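import Mathlib

set_option linter.all false

section

/-!
Statements of the combinatorial and analytic steps of the zero entropy theorem.
-/

set_option autoImplicit false

namespace Pool.Agent.MP_7bf9b2_an.Zc

open scoped ContDiff
open Finset Real

/-- An invariant mean on the subsets of `ℕ`. -/
structure IsMean (m : Set ℕ → ℝ) : Prop where
  nn : ∀ A, 0 ≤ m A
  one : m Set.univ = 1
  add : ∀ A B, Disjoint A B → m (A ∪ B) = m A + m B
  inv : ∀ A, m {s | s + 1 ∈ A} = m A

/-- Shannon entropy of a finite valued sequence for the mean `m`. -/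
noncomputable def Ent (m : Set ℕ → ℝ) {β : Type} [Fintype β] (X : ℕ → β) : ℝ :=
  ∑ b, negMulLog (m {s | X s = b})

/-- The word of length `T` read at time `s`. -/
def word {A : Type} (w : ℕ → A) (T s : ℕ) : Fin T → A := fun l => w (s + l)

def SMean : Prop := ∃ m, IsMean m

/-- Laws of finite valued sequences. -/
structure SLaw : Prop where
  empty : ∀ {m : Set ℕ → ℝ}, IsMean m → m ∅ = 0
  shift : ∀ {m : Set ℕ → ℝ}, IsMean m → ∀ (A : Set ℕ) (T : ℕ), m {s | s + T ∈ A} = m A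
  sum : ∀ {m : Set ℕ → ℝ}, IsMean m → ∀ {β : Type} [Fintype β] (X : ℕ → β) (A : Set ℕ),
    ∑ b, m {s | s ∈ A ∧ X s = b} = m A
  fib : ∀ {m : Set ℕ → ℝ}, IsMean m → ∀ {β γ : Type} [Fintype β] [DecidableEq γ] (X : ℕ → β)
    (h : β → γ) (A : Set ℕ) (c : γ),
    ∑ b ∈ univ.filter (fun b => h b = c), m {s | s ∈ A ∧ X s = b} = m {s | s ∈ A ∧ h (X s) = c}

/-- Basic entropy inequalities. -/
structure SEnt : Prop where
  nn : ∀ {m : Set ℕ → ℝ}, IsMean m → ∀ {β : Type} [Fintype β] (X : ℕ → β), 0 ≤ Ent m X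
  card : ∀ {m : Set ℕ → ℝ}, IsMean m → ∀ {β : Type} [Fintype β] (X : ℕ → β),
    Ent m X ≤ log (Fintype.card β)
  shift : ∀ {m : Set ℕ → ℝ}, IsMean m → ∀ {β : Type} [Fintype β] (X : ℕ → β) (T : ℕ),
    Ent m (fun s => X (s + T)) = Ent m X
  mono : ∀ {m : Set ℕ → ℝ}, IsMean m → ∀ {β γ : Type} [Fintype β] [Fintype γ] (X : ℕ → β)
    (h : β → γ), Ent m (fun s => h (X s)) ≤ Ent m X
  sub : ∀ {m : Set ℕ → ℝ}, IsMean m → ∀ {β γ : Type} [Fintype β] [Fintype γ] (X : ℕ → β)
    (Y : ℕ → γ), Ent m (fun s => (X s, Y s)) ≤ Ent m X + Ent m Y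

/-- A scale at which the colour and the word carry little information on the next word. -/
def SScale : Prop :=
  ∀ (η D : ℝ), 0 < η → 0 ≤ D → ∃ C : ℕ, ∀ (m : Set ℕ → ℝ), IsMean m →
    ∀ (A : Type) [Fintype A] [DecidableEq A] (w : ℕ → A) (N₀ : ℕ), ∃ N : ℕ, N₀ ≤ N ∧
      ∀ (B : Type) [Fintype B] (c : ℕ → B), log (Fintype.card B) ≤ D * N →
        ∃ T : ℕ, (N : ℝ) ≤ η * T ∧ T ≤ C * N ∧
          Ent m (fun s => (word w T s, c s)) + Ent m (word w T) -
            Ent m (fun s => ((word w T s, c s), word w T (s + T))) ≤ η * N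

section Dp
variable {S W : Type} [Fintype S] [Fintype W] [DecidableEq W]

/-- first marginal -/
noncomputable def mg (P : S → S → ℝ) (a : S) : ℝ := ∑ b, P a b
/-- law of the label -/
noncomputable def lq (P : S → S → ℝ) (lab : S → W) (v : W) : ℝ :=
  ∑ b ∈ univ.filter (fun b => lab b = v), mg P b
/-- joint law of a state and of the label of the next state -/
noncomputable def lr (P : S → S → ℝ) (lab : S → W) (a : S) (v : W) : ℝ :=
  ∑ b ∈ univ.filter (fun b => lab b = v), P a b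
/-- mutual information of a state and of the label of the next state -/
noncomputable def mi (P : S → S → ℝ) (lab : S → W) : ℝ :=
  ∑ a, negMulLog (mg P a) + ∑ v, negMulLog (lq P lab v) - ∑ a, ∑ v, negMulLog (lr P lab a v)

/-- a stationary law of pairs -/
structure Stn (P : S → S → ℝ) : Prop where
  nn : ∀ a b, 0 ≤ P a b
  one : ∑ a, mg P a = 1
  st : ∀ b, ∑ a, P a b = mg P b

/-- least value of `V` on the successors of `a` -/
noncomputable def mu (P : S → S → ℝ) (V : S → ℕ) (a : S) : ℕ := sInf (V '' {b | 0 < P a b})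

open Classical in
/-- labels of the successors of `a` where `V` is least -/
noncomputable def bs (P : S → S → ℝ) (lab : S → W) (V : S → ℕ) (a : S) : Finset W :=
  univ.filter fun v => ∃ b, 0 < P a b ∧ lab b = v ∧ V b = mu P V a

open Classical in
/-- one step of the value function -/
noncomputable def op (P : S → S → ℝ) (lab : S → W) (θ : ℝ) (V : S → ℕ) (a : S) : ℕ :=
  mu P V a + if exp (-θ) ≤ ∑ v ∈ bs P lab V a, lq P lab v then 0 else 1

end Dp

def SDpA : Prop :=
  ∀ (S W : Type) [Fintype S] [Fintype W] [DecidableEq W] (P : S → S → ℝ) (lab : S → W) (θ : ℝ)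
    (V : S → ℕ), Stn P → 0 < θ →
    ∑ a, mg P a * (op P lab θ V a : ℝ) ≤ ∑ a, mg P a * (V a : ℝ) + (mi P lab + 1) / θ

def SDp : Prop :=
  ∀ (S W : Type) [Fintype S] [Fintype W] [DecidableEq W] (P : S → S → ℝ) (lab : S → W) (θ : ℝ)
    (n : ℕ), Stn P → 0 < θ → ∃ 𝓑 : Finset (Finset W), 𝓑.card ≤ Fintype.card S * n ∧
      (∀ B ∈ 𝓑, exp (-θ) ≤ ∑ v ∈ B, lq P lab v) ∧
      ∀ F : Finset W, (∀ B ∈ 𝓑, ∃ v ∈ B, v ∈ F) → ∃ p : ℕ → S, (∀ i, 0 < P (p i) (p (i + 1))) ∧
        (((range n).filter fun i => lab (p (i + 1)) ∉ F).card : ℝ) ≤ n * ((mi P lab + 1) / θ)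

/-- A small set that meets every set of a family of heavy sets. -/
def SHit : Prop :=
  ∀ (W : Type) [Fintype W] [DecidableEq W] (q : W → ℝ) (x : ℝ) (𝓑 : Finset (Finset W)),
    (∀ v, 0 ≤ q v) → ∑ v, q v = 1 → 0 < x → (∀ B ∈ 𝓑, x ≤ ∑ v ∈ B, q v) →
    ∃ F : Finset W, (F.card : ℝ) ≤ log (𝓑.card + 1) / x + 1 ∧ ∀ B ∈ 𝓑, ∃ v ∈ B, v ∈ F

/-- The codebook lemma. -/
def SCore : Prop :=
  ∀ (A : Type) [Fintype A] [DecidableEq A] (w : ℕ → A) (η D : ℝ) (N₀ : ℕ), 0 < η → η ≤ 1 →
    0 ≤ D → ∃ N : ℕ, N₀ ≤ N ∧ ∀ (B : Type) [Fintype B] (c : ℕ → B) (n : ℕ),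
      (Fintype.card B : ℝ) ≤ exp (D * N) → (n : ℝ) ≤ exp (D * N) →
      ∃ (T : ℕ) (F : Finset (Fin T → A)) (s : ℕ → ℕ), (N : ℝ) ≤ η * T ∧
        (T : ℝ) * F.card ≤ exp (η * N) ∧ (∀ i, c (s i + T) = c (s (i + 1))) ∧
        (((range n).filter fun i => word w T (s i) ∉ F).card : ℝ) ≤ η * n

open Classical in
/-- Counting codes by greedy parsing. -/
def SCount : Prop :=
  ∀ (X : Type) (cl : X → X → Prop) (A : Finset X) (𝓣 : Finset (ℕ → X)) (L : ℕ) (lam : ℝ),
    A.Nonempty → 0 < L → 1 ≤ lam → 2 * (𝓣.card : ℝ) ≤ lam ^ L → ∀ n b : ℕ,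
    ∃ 𝓒 : Finset (ℕ → X), (𝓒.card : ℝ) ≤ lam ^ (n + L) * (2 * A.card) ^ b ∧
      ∀ (z : ℕ → X) (good : ℕ → Prop), (∀ j, ∃ a ∈ A, cl (z j) a) →
        (∀ j, good j → ∃ τ ∈ 𝓣, ∀ l < L, cl (z (j + l)) (τ l)) →
        ((range n).filter fun j => ¬ good j).card ≤ b → ∃ c ∈ 𝓒, ∀ j < n, cl (z j) (c j)

/-- Cells of diameter `δ` in a ball. -/
def SCell : Prop :=
  ∀ (F : Type) [NormedAddCommGroup F] [NormedSpace ℝ F] [FiniteDimensional ℝ F] (R : ℝ),
    ∃ (C : ℝ) (d : ℕ), 0 < C ∧ ∀ δ : ℝ, 0 < δ → δ ≤ 1 → ∃ (n : ℕ) (c : F → Fin (n + 1)),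
      ((n + 1 : ℕ) : ℝ) ≤ (C / δ) ^ d ∧
      ∀ x y : F, ‖x‖ ≤ R → ‖y‖ ≤ R → c x = c y → ‖x - y‖ ≤ δ

/-- Smooth cut-off functions at unit scale with bounds that do not depend on the set. -/
def SConv : Prop :=
  ∀ (F : Type) [NormedAddCommGroup F] [NormedSpace ℝ F] [FiniteDimensional ℝ F] (j : ℕ),
    ∃ C : ℝ, 0 < C ∧ ∀ S : Set F, ∃ ψ : F → ℝ, ContDiff ℝ ∞ ψ ∧ (∀ x, 0 ≤ ψ x ∧ ψ x ≤ 1) ∧
      (∀ x ∈ S, ψ x = 0) ∧ (∀ x, (∀ y ∈ S, 1 ≤ ‖x - y‖) → ψ x = 1) ∧
      (∀ i ≤ j, ∀ x, ‖iteratedFDeriv ℝ i ψ x‖ ≤ C) ∧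
      ∀ a : F, (∀ x, x + a ∈ S ↔ x ∈ S) → ∀ x, ψ (x + a) = ψ x

/-- Smooth cut-off functions at scale `ρ`. -/
def SBump : Prop :=
  ∀ (F : Type) [NormedAddCommGroup F] [NormedSpace ℝ F] [FiniteDimensional ℝ F] (j : ℕ),
    ∃ C : ℝ, 0 < C ∧ ∀ (S : Set F) (ρ : ℝ), 0 < ρ → ∃ ψ : F → ℝ, ContDiff ℝ ∞ ψ ∧
      (∀ x, 0 ≤ ψ x ∧ ψ x ≤ 1) ∧ (∀ x ∈ S, ψ x = 0) ∧
      (∀ x, (∀ y ∈ S, ρ ≤ ‖x - y‖) → ψ x = 1) ∧
      (∀ i ≤ j, ∀ x, ‖iteratedFDeriv ℝ i ψ x‖ ≤ C / ρ ^ i) ∧
      ∀ a : F, (∀ x, x + a ∈ S ↔ x ∈ S) → ∀ x, ψ (x + a) = ψ x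

open Classical in
/-- Few times are bad. -/
def SBad : Prop :=
  ∀ (d : ℝ → ℝ → ℝ) (f : ℝ → ℝ) (P Q : ℝ) (n : ℕ), (∀ a b, a ≤ b → 0 ≤ d a b) →
    (∀ a b c, d a b + d b c = d a c) → Continuous f → (∀ t, 0 ≤ f t) → 0 < P → P ≤ Q →
    (((range n).filter fun j : ℕ => Q < d j (j + 3) ∨
        ∀ t ∈ Set.Icc ((j : ℝ) + 1) (j + 2), P ≤ f t).card : ℝ) * P ≤
      3 * (d 0 (n + 3) + ∫ t in (0 : ℝ)..(n + 3), f t)

end Pool.Agent.MP_7bf9b2_an.Zc

end

section

set_option autoImplicit false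

namespace Pool.Agent.MP_7bf9b2_an.Zc

open Finset

open Classical in
theorem shift_Count (good : ℕ → Prop) (n L : ℕ) :
    ((range (n - L)).filter fun j => ¬ good (j + L)).card ≤
      (((range n).filter fun j => ¬ good j).filter fun j => L ≤ j).card := by
  refine card_le_card_of_injOn (fun j => j + L) (fun j hj => ?_) fun a _ b _ h => by simpa using h
  simp only [coe_filter, mem_range, mem_filter, Set.mem_ofPred_eq] at hj ⊢
  exact ⟨⟨by omega, hj.2⟩, by omega⟩

theorem s_count : SCount := by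
  classical
  intro X cl A 𝓣 L lam hA hL h1 hT n
  have hA1 : (1 : ℝ) ≤ A.card := by exact_mod_cast hA.card_pos
  have hl0 : 0 < lam := by linarith
  induction n using Nat.strong_induction_on with
  | _ n ih =>
  intro b
  have hb1 : (1 : ℝ) ≤ (2 * A.card) ^ b := one_le_pow₀ (by linarith)
  rcases n with _ | n
  · obtain ⟨a, -⟩ := hA
    refine ⟨{fun _ => a}, ?_, fun z good _ _ _ => ⟨_, mem_singleton_self _, fun j hj => by omega⟩⟩
    rw [card_singleton, Nat.cast_one]
    exact one_le_mul_of_one_le_of_one_le (one_le_pow₀ h1) hb1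
  have h2 : ∃ C : Finset (ℕ → X), 2 * (C.card : ℝ) ≤ lam ^ (n + 1 + L) * (2 * A.card) ^ b ∧
      ∀ (z : ℕ → X) (good : ℕ → Prop), (∀ j, ∃ a ∈ A, cl (z j) a) →
        (∀ j, good j → ∃ τ ∈ 𝓣, ∀ l < L, cl (z (j + l)) (τ l)) →
        ((range (n + 1)).filter fun j => ¬ good j).card ≤ b → good 0 →
        ∃ c ∈ C, ∀ j < n + 1, cl (z j) (c j) := by
    by_cases hn : n + 1 ≤ L
    · refine ⟨𝓣, hT.trans ((pow_le_pow_right₀ h1 (by omega)).trans
        (le_mul_of_one_le_right (by positivity) hb1)), fun z good _ hg _ h0 => ?_⟩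
      obtain ⟨τ, hτ, h⟩ := hg 0 h0
      exact ⟨τ, hτ, fun j hj => by simpa using h j (by omega)⟩
    · obtain ⟨C, hC, hc⟩ := ih (n + 1 - L) (by omega) b
      refine ⟨(𝓣 ×ˢ C).image fun p j => if j < L then p.1 j else p.2 (j - L), ?_,
        fun z good ha hg hb h0 => ?_⟩
      · have h3 : (((𝓣 ×ˢ C).image fun p j => if j < L then p.1 j else p.2 (j - L)).card : ℝ) ≤
            𝓣.card * C.card := by exact_mod_cast card_image_le.trans (card_product _ _).le
        rw [show n + 1 - L + L = n + 1 by omega] at hC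
        have h4 := mul_le_mul hT hC (by positivity) (by positivity)
        rw [pow_add lam (n + 1) L]
        linarith
      · obtain ⟨τ, hτ, h⟩ := hg 0 h0
        obtain ⟨c, hcC, h5⟩ := hc (fun j => z (j + L)) (fun j => good (j + L)) (fun j => ha _)
          (fun j hj => by
            obtain ⟨σ, hσ, h6⟩ := hg _ hj
            exact ⟨σ, hσ, fun l hl => by rw [add_right_comm]; exact h6 l hl⟩)
          (((shift_Count good (n + 1) L).trans (card_filter_le _ _)).trans hb)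
        refine ⟨_, mem_image_of_mem _ (mk_mem_product hτ hcC), fun j hj => ?_⟩
        dsimp only
        split_ifs with h6
        · simpa using h j h6
        · have := h5 (j - L) (by omega)
          rwa [show j - L + L = j by omega] at this
  have h3 : ∃ C : Finset (ℕ → X), 2 * (C.card : ℝ) ≤ lam ^ (n + 1 + L) * (2 * A.card) ^ b ∧
      ∀ (z : ℕ → X) (good : ℕ → Prop), (∀ j, ∃ a ∈ A, cl (z j) a) →
        (∀ j, good j → ∃ τ ∈ 𝓣, ∀ l < L, cl (z (j + l)) (τ l)) →
        ((range (n + 1)).filter fun j => ¬ good j).card ≤ b → ¬ good 0 →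
        ∃ c ∈ C, ∀ j < n + 1, cl (z j) (c j) := by
    have hlt : ∀ good : ℕ → Prop, ¬ good 0 →
        ((range n).filter fun j => ¬ good (j + 1)).card <
          ((range (n + 1)).filter fun j => ¬ good j).card := fun good h0 =>
      (shift_Count good (n + 1) 1).trans_lt (card_lt_card (filter_ssubset.2
        ⟨0, mem_filter.2 ⟨mem_range.2 n.succ_pos, h0⟩, by omega⟩))
    rcases b with _ | b
    · refine ⟨∅, by simp; positivity, fun z good _ _ hb h0 => ?_⟩
      have := hlt good h0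
      omega
    · obtain ⟨C, hC, hc⟩ := ih n (by omega) b
      refine ⟨(A ×ˢ C).image fun p j => if j = 0 then p.1 else p.2 (j - 1), ?_,
        fun z good ha hg hb h0 => ?_⟩
      · have h3 : (((A ×ˢ C).image fun p (j : ℕ) =>
            if j = 0 then p.1 else p.2 (j - 1)).card : ℝ) ≤ A.card * C.card := by
          rw [← Nat.cast_mul, ← card_product]
          exact Nat.cast_le.2 card_image_le
        have h4 := mul_le_mul_of_nonneg_left hC (show (0 : ℝ) ≤ 2 * A.card by positivity)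
        have h5 := mul_le_mul_of_nonneg_right (pow_le_pow_right₀ h1 (show n + L ≤ n + 1 + L by
          omega)) (show (0 : ℝ) ≤ (2 * A.card) ^ (b + 1) by positivity)
        rw [pow_succ] at h5 ⊢
        linarith
      · obtain ⟨a, haA, h⟩ := ha 0
        obtain ⟨c, hcC, h5⟩ := hc (fun j => z (j + 1)) (fun j => good (j + 1)) (fun j => ha _)
          (fun j hj => by
            obtain ⟨σ, hσ, h6⟩ := hg _ hj
            exact ⟨σ, hσ, fun l hl => by rw [add_right_comm]; exact h6 l hl⟩)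
          (by have := hlt good h0; omega)
        refine ⟨_, mem_image_of_mem _ (mk_mem_product haA hcC), fun j hj => ?_⟩
        dsimp only
        split_ifs with h6
        · rwa [h6]
        · have := h5 (j - 1) (by omega)
          rwa [show j - 1 + 1 = j by omega] at this
  obtain ⟨C2, a2, c2⟩ := h2
  obtain ⟨C1, a1, c1⟩ := h3
  refine ⟨C1 ∪ C2, ?_, fun z good ha hg hb => ?_⟩
  · have : ((C1 ∪ C2).card : ℝ) ≤ C1.card + C2.card := by exact_mod_cast card_union_le _ _
    linarith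
  · by_cases h0 : good 0
    · obtain ⟨c, h4, h5⟩ := c2 z good ha hg hb h0
      exact ⟨c, mem_union_right _ h4, h5⟩
    · obtain ⟨c, h4, h5⟩ := c1 z good ha hg hb h0
      exact ⟨c, mem_union_left _ h4, h5⟩

end Pool.Agent.MP_7bf9b2_an.Zc

end

section

set_option autoImplicit false

namespace Pool.Agent.MP_7bf9b2_an.Zc

open Finset Real

theorem pos_Dp {S : Type} [Fintype S] {P : S → S → ℝ} (hP : Stn P) {a b : S} (h : 0 < P a b) :
    0 < mg P b := by
  rw [← hP.st b]
  exact lt_of_lt_of_le h (single_le_sum (f := fun a => P a b) (fun a _ => hP.nn a b) (mem_univ a))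

theorem succ_Dp {S : Type} [Fintype S] {P : S → S → ℝ} {a : S} (h : 0 < mg P a) :
    ∃ b, 0 < P a b := by
  by_contra hc
  push Not at hc
  exact absurd h (not_lt.mpr (sum_nonpos fun b _ => hc b))

theorem path_Dp {S : Type} [Fintype S] {P : S → S → ℝ} (hP : Stn P) {a : S} (h : 0 < mg P a) :
    ∃ p : ℕ → S, p 0 = a ∧ ∀ i, 0 < P (p i) (p (i + 1)) := by
  have h1 : ∀ x : {x // 0 < mg P x}, ∃ y : {x // 0 < mg P x}, 0 < P x.1 y.1 := fun x => by
    obtain ⟨b, hb⟩ := succ_Dp x.2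
    exact ⟨⟨b, pos_Dp hP hb⟩, hb⟩
  choose f hf using h1
  refine ⟨fun i => (f^[i] ⟨a, h⟩).1, rfl, fun i => ?_⟩
  simp only [Function.iterate_succ_apply']
  exact hf _

theorem s_dp (h : SDpA) : SDp := by
  classical
  intro S W _ _ _ P lab θ n hP hθ
  obtain ⟨V, hV0, hV⟩ : ∃ V : ℕ → S → ℕ, V 0 = (fun _ => 0) ∧ ∀ i, V (i + 1) = op P lab θ (V i) :=
    ⟨fun i => (op P lab θ)^[i] fun _ => 0, rfl, fun i => Function.iterate_succ_apply' _ _ _⟩
  have hsum : ∀ i : ℕ, ∑ a, mg P a * (V i a : ℝ) ≤ i * ((mi P lab + 1) / θ) := by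
    intro i
    induction i with
    | zero => simp [hV0]
    | succ i ih =>
      have h1 := h S W P lab θ (V i) hP hθ
      rw [hV]
      push_cast
      linarith
  have hmg : ∀ a, 0 ≤ mg P a := fun a => sum_nonneg fun b _ => hP.nn a b
  obtain ⟨a0, ha0, hV0'⟩ : ∃ a, 0 < mg P a ∧ (V n a : ℝ) ≤ n * ((mi P lab + 1) / θ) := by
    by_contra hc
    push Not at hc
    obtain ⟨a1, ha1⟩ : ∃ a, 0 < mg P a := by
      by_contra h0
      push Not at h0
      have h2 : ∑ a, mg P a ≤ 0 := sum_nonpos fun a _ => h0 a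
      rw [hP.one] at h2
      linarith
    have h3 : ∑ a, mg P a * (n * ((mi P lab + 1) / θ)) < ∑ a, mg P a * (V n a : ℝ) := by
      refine sum_lt_sum (fun a _ => ?_) ⟨a1, mem_univ _, mul_lt_mul_of_pos_left (hc a1 ha1) ha1⟩
      rcases (hmg a).eq_or_lt with h4 | h4
      · rw [← h4, zero_mul, zero_mul]
      · exact (mul_lt_mul_of_pos_left (hc a h4) h4).le
    rw [← sum_mul, hP.one, one_mul] at h3
    exact absurd (hsum n) (not_le.mpr h3)
  refine ⟨((univ ×ˢ range n).image fun x : S × ℕ => bs P lab (V x.2) x.1).filter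
    fun B => exp (-θ) ≤ ∑ v ∈ B, lq P lab v, ?_, fun B hB => (mem_filter.mp hB).2, ?_⟩
  · refine le_trans (card_filter_le _ _) (le_trans card_image_le ?_)
    rw [card_product, card_univ, card_range]
  · intro F hF
    have key : ∀ i, i ≤ n → ∀ a, 0 < mg P a → ∃ p : ℕ → S, p 0 = a ∧
        (∀ l, 0 < P (p l) (p (l + 1))) ∧
        ((range i).filter fun l => lab (p (l + 1)) ∉ F).card ≤ V i a := by
      intro i
      induction i with
      | zero =>
        intro _ a ha
        obtain ⟨p, h0, hp⟩ := path_Dp hP ha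
        exact ⟨p, h0, hp, by simp⟩
      | succ i ih =>
        intro hi a ha
        obtain ⟨b, hb, hb2⟩ : ∃ b, 0 < P a b ∧
            V i b + (if lab b ∉ F then 1 else 0) ≤ V (i + 1) a := by
          rw [hV]
          unfold op
          by_cases hh : exp (-θ) ≤ ∑ v ∈ bs P lab (V i) a, lq P lab v
          · obtain ⟨v, hv, hvF⟩ := hF (bs P lab (V i) a) (mem_filter.mpr ⟨mem_image.mpr
              ⟨(a, i), mem_product.mpr ⟨mem_univ _, mem_range.mpr (by omega)⟩, rfl⟩, hh⟩)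
            obtain ⟨b, hb, hb1, hb2⟩ := (mem_filter.mp hv).2
            refine ⟨b, hb, ?_⟩
            rw [if_neg (by rw [hb1]; exact not_not.mpr hvF), hb2]
            omega
          · obtain ⟨b0, hb0⟩ := succ_Dp ha
            obtain ⟨b, hb, hb2⟩ := Nat.sInf_mem (s := V i '' {b | 0 < P a b}) ⟨_, b0, hb0, rfl⟩
            refine ⟨b, hb, ?_⟩
            rw [if_neg hh, hb2]
            unfold mu
            split_ifs <;> omega
        obtain ⟨p, h0, hp, hc⟩ := ih (by omega) b (pos_Dp hP hb)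
        refine ⟨fun l => Nat.casesOn l a p, rfl, fun l => ?_, ?_⟩
        · rcases l with _ | l
          · show 0 < P a (p 0)
            rw [h0]; exact hb
          · exact hp l
        · show ((range (i + 1)).filter fun l => lab (p l) ∉ F).card ≤ V (i + 1) a
          rw [card_filter] at hc ⊢
          rw [sum_range_succ', h0]
          omega
    obtain ⟨p, -, hp, hc⟩ := key n le_rfl a0 ha0
    exact ⟨p, hp, le_trans (by exact_mod_cast hc) hV0'⟩

end Pool.Agent.MP_7bf9b2_an.Zc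

end

section

set_option autoImplicit false

namespace Pool.Agent.MP_7bf9b2_an.Zc

open Finset Real

theorem fen_DpA {R p q : ℝ} (x : ℝ) (h0 : 0 ≤ R) (hp : R ≤ p) (hq : R ≤ q) :
    R * x ≤ -negMulLog R - R * log p - R * log q - R + p * (q * exp x) := by
  rcases h0.eq_or_lt with rfl | h
  · have := mul_nonneg hp (mul_nonneg hq (exp_pos x).le)
    simpa using this
  · have hp' : 0 < p := h.trans_le hp
    have hq' : 0 < q := h.trans_le hq
    have h1 := log_le_sub_one_of_pos (div_pos (mul_pos hp' (mul_pos hq' (exp_pos x))) h)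
    rw [log_div (by positivity) h.ne', log_mul hp'.ne' (by positivity),
      log_mul hq'.ne' (exp_pos x).ne', log_exp] at h1
    have h2 := mul_le_mul_of_nonneg_left h1 h0
    rw [mul_sub R (_ / R), mul_div_cancel₀ _ h.ne'] at h2
    rw [negMulLog]
    linarith

section

variable {S W : Type} [Fintype S] [Fintype W] [DecidableEq W] {P : S → S → ℝ} (lab : S → W)

theorem fib_DpA (f : S → ℝ) (x : W → ℝ) :
    ∑ v, (∑ b ∈ univ.filter (fun b => lab b = v), f b) * x v = ∑ b, f b * x (lab b) := by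
  rw [← sum_fiberwise univ lab fun b => f b * x (lab b)]
  refine sum_congr rfl fun v _ => ?_
  rw [sum_mul]
  exact sum_congr rfl fun b hb => by rw [(mem_filter.1 hb).2]

theorem var_DpA (hP : Stn P) (x : S → W → ℝ) (hx : ∀ a, ∑ v, lq P lab v * exp (x a v) ≤ 2) :
    ∑ a, ∑ v, lr P lab a v * x a v ≤ mi P lab + 1 := by
  have hr0 : ∀ a v, 0 ≤ lr P lab a v := fun a v => sum_nonneg fun b _ => hP.nn a b
  have hm0 : ∀ a, 0 ≤ mg P a := fun a => sum_nonneg fun b _ => hP.nn a b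
  have h1 : ∀ a, ∑ v, lr P lab a v = mg P a := fun a => sum_fiberwise univ lab (P a)
  have h2 : ∀ v, ∑ a, lr P lab a v = lq P lab v := fun v => by
    unfold lr lq
    rw [sum_comm]
    exact sum_congr rfl fun b _ => hP.st b
  have h3 : ∑ a, ∑ v, lr P lab a v * x a v ≤ ∑ a, ∑ v, (-negMulLog (lr P lab a v) -
      lr P lab a v * log (mg P a) - lr P lab a v * log (lq P lab v) - lr P lab a v +
      mg P a * (lq P lab v * exp (x a v))) := by
    refine sum_le_sum fun a _ => sum_le_sum fun v _ => fen_DpA _ (hr0 a v) ?_ ?_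
    · rw [← h1]
      exact single_le_sum (fun v _ => hr0 a v) (mem_univ v)
    · rw [← h2]
      exact single_le_sum (f := fun a => lr P lab a v) (fun a _ => hr0 a v) (mem_univ a)
  have h4 : ∑ a, ∑ v, lr P lab a v * log (mg P a) = -∑ a, negMulLog (mg P a) := by
    rw [← sum_neg_distrib]
    refine sum_congr rfl fun a _ => ?_
    rw [← sum_mul, h1, negMulLog]
    ring
  have h5 : ∑ a, ∑ v, lr P lab a v * log (lq P lab v) = -∑ v, negMulLog (lq P lab v) := by
    rw [← sum_neg_distrib, sum_comm]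
    refine sum_congr rfl fun v _ => ?_
    rw [← sum_mul, h2, negMulLog]
    ring
  have h6 : ∑ a, ∑ v, lr P lab a v = 1 := by
    rw [← hP.one]
    exact sum_congr rfl fun a _ => h1 a
  have h7 : ∑ a, ∑ v, mg P a * (lq P lab v * exp (x a v)) ≤ 2 := by
    calc ∑ a, ∑ v, mg P a * (lq P lab v * exp (x a v)) ≤ ∑ a, mg P a * 2 := by
          refine sum_le_sum fun a _ => ?_
          rw [← mul_sum]
          exact mul_le_mul_of_nonneg_left (hx a) (hm0 a)
      _ = 2 := by rw [← sum_mul, hP.one, one_mul]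
  simp only [sum_add_distrib, sum_sub_distrib, sum_neg_distrib] at h3
  rw [mi]
  linarith

end

theorem s_dpA : SDpA := by
  classical
  intro S W _ _ _ P lab θ V hP hθ
  obtain ⟨x, hx⟩ : ∃ x : S → W → ℝ, ∀ a v, x a v =
      if ¬ (exp (-θ) ≤ ∑ v ∈ bs P lab V a, lq P lab v) ∧ v ∈ bs P lab V a then θ else 0 :=
    ⟨_, fun _ _ => rfl⟩
  have hm0 : ∀ a, 0 ≤ mg P a := fun a => sum_nonneg fun b _ => hP.nn a b
  have hq0 : ∀ v, 0 ≤ lq P lab v := fun v => sum_nonneg fun b _ => hm0 b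
  have hq1 : ∑ v, lq P lab v = 1 := (sum_fiberwise univ lab (mg P)).trans hP.one
  have h3 : ∀ a, ∑ v, lq P lab v * exp (x a v) ≤ 2 := by
    intro a
    by_cases h : exp (-θ) ≤ ∑ v ∈ bs P lab V a, lq P lab v
    · have : ∀ v, x a v = 0 := fun v => by rw [hx, if_neg fun h' => h'.1 h]
      simp only [this, exp_zero, mul_one, hq1]
      norm_num
    · have h1 : ∑ v, lq P lab v * exp (x a v) ≤
          ∑ v, (lq P lab v + if v ∈ bs P lab V a then lq P lab v * exp θ else 0) := by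
        refine sum_le_sum fun v _ => ?_
        by_cases hv : v ∈ bs P lab V a
        · rw [hx, if_pos ⟨h, hv⟩, if_pos hv]
          linarith [hq0 v]
        · rw [hx, if_neg fun h' => hv h'.2, if_neg hv, exp_zero, mul_one, add_zero]
      rw [sum_add_distrib, hq1, sum_ite_mem, univ_inter, ← sum_mul] at h1
      have h2 := mul_le_mul_of_nonneg_right (not_le.1 h).le (exp_pos θ).le
      rw [← exp_add, neg_add_cancel, exp_zero] at h2
      linarith
  have h1 : ∀ a b, θ * (P a b * (op P lab θ V a : ℝ)) ≤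
      θ * (P a b * (V b : ℝ)) + P a b * x a (lab b) := by
    intro a b
    rcases (hP.nn a b).eq_or_lt with h | h
    · rw [← h]; simp
    have hmu : mu P V a ≤ V b := Nat.sInf_le ⟨b, h, rfl⟩
    have key : θ * (op P lab θ V a : ℝ) ≤ θ * (V b : ℝ) + x a (lab b) := by
      rw [op, hx]
      by_cases he : exp (-θ) ≤ ∑ v ∈ bs P lab V a, lq P lab v
      · rw [if_pos he, if_neg fun h' => h'.1 he, add_zero, add_zero]
        exact mul_le_mul_of_nonneg_left (by exact_mod_cast hmu) hθ.le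
      · rw [if_neg he]
        by_cases hb : lab b ∈ bs P lab V a
        · rw [if_pos ⟨he, hb⟩, Nat.cast_add, Nat.cast_one, mul_add, mul_one]
          exact add_le_add (mul_le_mul_of_nonneg_left (by exact_mod_cast hmu) hθ.le) le_rfl
        · rw [if_neg fun h' => hb h'.2, add_zero]
          have hne : V b ≠ mu P V a := fun e => hb (by
            rw [bs]
            exact mem_filter.2 ⟨mem_univ _, b, h, rfl, e⟩)
          have : mu P V a + 1 ≤ V b := by omega
          exact mul_le_mul_of_nonneg_left (by exact_mod_cast this) hθ.le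
    have := mul_le_mul_of_nonneg_left key h.le
    linarith
  have h2 : ∑ a, ∑ b, θ * (P a b * (op P lab θ V a : ℝ)) ≤
      ∑ a, ∑ b, (θ * (P a b * (V b : ℝ)) + P a b * x a (lab b)) :=
    sum_le_sum fun a _ => sum_le_sum fun b _ => h1 a b
  have h4 : ∑ a, ∑ b, θ * (P a b * (op P lab θ V a : ℝ)) =
      θ * ∑ a, mg P a * (op P lab θ V a : ℝ) := by
    rw [mul_sum]
    exact sum_congr rfl fun a _ => by rw [← mul_sum, ← sum_mul, mg]
  have h5 : ∑ a, ∑ b, θ * (P a b * (V b : ℝ)) = θ * ∑ a, mg P a * (V a : ℝ) := by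
    rw [mul_sum, sum_comm]
    exact sum_congr rfl fun b _ => by rw [← mul_sum, ← sum_mul, hP.st]
  have h6 : ∑ a, ∑ b, P a b * x a (lab b) = ∑ a, ∑ v, lr P lab a v * x a v :=
    sum_congr rfl fun a _ => (fib_DpA lab (P a) (x a)).symm
  have h7 := var_DpA lab hP x h3
  simp only [sum_add_distrib] at h2
  rw [h4, h5, h6] at h2
  refine le_of_mul_le_mul_left ?_ hθ
  rw [mul_add, mul_div_cancel₀ _ hθ.ne']
  linarith

end Pool.Agent.MP_7bf9b2_an.Zc

end

section

/-!
Basic entropy inequalities for an invariant mean.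
-/

set_option autoImplicit false

namespace Pool.Agent.MP_7bf9b2_an.Zc

open Finset Real

theorem gibbs_Ent {r q : ℝ} (hr : 0 ≤ r) (hq : 0 ≤ q) (h : 0 < r → 0 < q) :
    negMulLog r + r * log q ≤ q - r := by
  rcases hr.eq_or_lt with h0 | h0
  · subst h0
    simpa using hq
  · have hq' := h h0
    have h1 := Real.log_le_sub_one_of_pos (div_pos hq' h0)
    rw [Real.log_div hq'.ne' h0.ne'] at h1
    have h2 := mul_le_mul_of_nonneg_left h1 hr
    have h3 : r * (q / r - 1) = q - r := by field_simp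
    unfold negMulLog
    nlinarith

theorem nml_sum_Ent {ι : Type} (s : Finset ι) (x : ι → ℝ) (hx : ∀ i ∈ s, 0 ≤ x i) :
    negMulLog (∑ i ∈ s, x i) ≤ ∑ i ∈ s, negMulLog (x i) := by
  have h : negMulLog (∑ i ∈ s, x i) = ∑ i ∈ s, -(x i) * log (∑ j ∈ s, x j) := by
    unfold negMulLog
    rw [← Finset.sum_mul, Finset.sum_neg_distrib]
  rw [h]
  refine Finset.sum_le_sum fun i hi => ?_
  rcases (hx i hi).eq_or_lt with h0 | h0
  · simp [← h0]
  · have h1 := Real.log_le_log h0 (Finset.single_le_sum hx hi)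
    unfold negMulLog
    nlinarith

theorem one_Ent (hl : SLaw) {m : Set ℕ → ℝ} (hm : IsMean m) {β : Type} [Fintype β] (X : ℕ → β) :
    ∑ b, m {s | X s = b} = 1 := by
  have h := hl.sum hm X Set.univ
  simpa [hm.one] using h

theorem nn_Ent (hl : SLaw) {m : Set ℕ → ℝ} (hm : IsMean m) {β : Type} [Fintype β] (X : ℕ → β) :
    0 ≤ Ent m X := by
  refine Finset.sum_nonneg fun b _ => negMulLog_nonneg (hm.nn _) ?_
  rw [← one_Ent hl hm X]
  exact Finset.single_le_sum (f := fun b => m {s | X s = b}) (fun c _ => hm.nn _)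
    (Finset.mem_univ b)

theorem card_Ent (hl : SLaw) {m : Set ℕ → ℝ} (hm : IsMean m) {β : Type} [Fintype β]
    (X : ℕ → β) : Ent m X ≤ log (Fintype.card β) := by
  have hne : Nonempty β := ⟨X 0⟩
  have hc : (0 : ℝ) < Fintype.card β := by exact_mod_cast Fintype.card_pos
  have h1 := one_Ent hl hm X
  have h2 : ∑ b, (negMulLog (m {s | X s = b}) + m {s | X s = b} * log (Fintype.card β : ℝ)⁻¹) ≤
      ∑ b, ((Fintype.card β : ℝ)⁻¹ - m {s | X s = b}) :=
    Finset.sum_le_sum fun b _ => gibbs_Ent (hm.nn _) (inv_pos.2 hc).le fun _ => inv_pos.2 hc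
  rw [Finset.sum_add_distrib, ← Finset.sum_mul, Finset.sum_sub_distrib, h1, Finset.sum_const,
    Finset.card_univ, nsmul_eq_mul, mul_inv_cancel₀ hc.ne', Real.log_inv] at h2
  unfold Ent
  linarith

theorem shift_Ent (hl : SLaw) {m : Set ℕ → ℝ} (hm : IsMean m) {β : Type} [Fintype β]
    (X : ℕ → β) (T : ℕ) : Ent m (fun s => X (s + T)) = Ent m X := by
  unfold Ent
  refine Finset.sum_congr rfl fun b _ => ?_
  have h := hl.shift hm {s | X s = b} T
  simp only [Set.mem_ofPred_eq] at h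
  rw [h]

theorem mono_Ent (hl : SLaw) {m : Set ℕ → ℝ} (hm : IsMean m) {β γ : Type} [Fintype β]
    [Fintype γ] (X : ℕ → β) (h : β → γ) : Ent m (fun s => h (X s)) ≤ Ent m X := by
  classical
  unfold Ent
  rw [← Finset.sum_fiberwise (s := univ) (g := h) (f := fun b => negMulLog (m {s | X s = b}))]
  refine Finset.sum_le_sum fun c _ => ?_
  have h1 := hl.fib hm X h Set.univ c
  simp only [Set.mem_univ, true_and] at h1
  rw [← h1]
  exact nml_sum_Ent _ _ fun b _ => hm.nn _

theorem sub_Ent (hl : SLaw) {m : Set ℕ → ℝ} (hm : IsMean m) {β γ : Type} [Fintype β]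
    [Fintype γ] (X : ℕ → β) (Y : ℕ → γ) :
    Ent m (fun s => (X s, Y s)) ≤ Ent m X + Ent m Y := by
  set r : β → γ → ℝ := fun b c => m {s | X s = b ∧ Y s = c} with hr
  set p : β → ℝ := fun b => m {s | X s = b} with hp
  set q : γ → ℝ := fun c => m {s | Y s = c} with hq
  have hr0 : ∀ b c, 0 ≤ r b c := fun b c => hm.nn _
  have hrp : ∀ b, ∑ c, r b c = p b := fun b => hl.sum hm Y {s | X s = b}
  have hrq : ∀ c, ∑ b, r b c = q c := fun c => by
    have h := hl.sum hm X {s | Y s = c}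
    simp only [Set.mem_ofPred_eq] at h
    simp only [hr, hq, ← h, and_comm]
  have hp1 : ∑ b, p b = 1 := one_Ent hl hm X
  have hq1 : ∑ c, q c = 1 := one_Ent hl hm Y
  have hle : ∀ b c, negMulLog (r b c) + (r b c * log (p b) + r b c * log (q c)) ≤
      p b * q c - r b c := by
    intro b c
    have h1 : r b c ≤ p b := by
      rw [← hrp b]
      exact Finset.single_le_sum (f := fun c => r b c) (fun c _ => hr0 b c) (Finset.mem_univ c)
    have h2 : r b c ≤ q c := by
      rw [← hrq c]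
      exact Finset.single_le_sum (f := fun b => r b c) (fun b _ => hr0 b c) (Finset.mem_univ b)
    have h3 := gibbs_Ent (hr0 b c) (mul_nonneg ((hr0 b c).trans h1) ((hr0 b c).trans h2))
      fun h => mul_pos (h.trans_le h1) (h.trans_le h2)
    rcases (hr0 b c).eq_or_lt with h0 | h0
    · rw [← h0] at h3 ⊢
      simpa using h3
    · rw [Real.log_mul (h0.trans_le h1).ne' (h0.trans_le h2).ne'] at h3
      linarith
  have hs : ∑ b, ∑ c, (negMulLog (r b c) + (r b c * log (p b) + r b c * log (q c))) ≤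
      ∑ b, ∑ c, (p b * q c - r b c) :=
    Finset.sum_le_sum fun b _ => Finset.sum_le_sum fun c _ => hle b c
  have e1 : ∑ b, ∑ c, r b c * log (p b) = -∑ b, negMulLog (p b) := by
    rw [← Finset.sum_neg_distrib]
    refine Finset.sum_congr rfl fun b _ => ?_
    rw [← Finset.sum_mul, hrp b]
    unfold negMulLog
    ring
  have e2 : ∑ b, ∑ c, r b c * log (q c) = -∑ c, negMulLog (q c) := by
    rw [Finset.sum_comm, ← Finset.sum_neg_distrib]
    refine Finset.sum_congr rfl fun c _ => ?_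
    rw [← Finset.sum_mul, hrq c]
    unfold negMulLog
    ring
  have e3 : ∑ b, ∑ c, (p b * q c - r b c) = 0 := by
    simp only [Finset.sum_sub_distrib, ← Finset.mul_sum, hq1, hrp, mul_one, sub_self,
      Finset.sum_const_zero]
  simp only [Finset.sum_add_distrib] at hs
  rw [e1, e2, e3] at hs
  have e4 : Ent m (fun s => (X s, Y s)) = ∑ b, ∑ c, negMulLog (r b c) := by
    unfold Ent
    rw [Fintype.sum_prod_type]
    simp only [hr, Prod.mk.injEq]
  rw [e4]
  change _ ≤ ∑ b, negMulLog (p b) + ∑ c, negMulLog (q c)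
  linarith

theorem s_ent (hl : SLaw) : SEnt where
  nn := fun hm _ _ X => nn_Ent hl hm X
  card := fun hm _ _ X => card_Ent hl hm X
  shift := fun hm _ _ X T => shift_Ent hl hm X T
  mono := fun hm _ _ _ _ X h => mono_Ent hl hm X h
  sub := fun hm _ _ _ _ X Y => sub_Ent hl hm X Y

end Pool.Agent.MP_7bf9b2_an.Zc

end

section

/-! A small set that meets every set of a family of heavy sets. -/

set_option autoImplicit false

namespace Pool.Agent.MP_7bf9b2_an.Zc

open Finset Real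

theorem step_Hit {W : Type} [Fintype W] [DecidableEq W] (q : W → ℝ) (x : ℝ)
    (U : Finset (Finset W)) (h0 : ∀ v, 0 ≤ q v) (h1 : ∑ v, q v = 1)
    (hU : ∀ B ∈ U, x ≤ ∑ v ∈ B, q v) :
    ∃ v : W, ((U.filter fun B => v ∉ B).card : ℝ) ≤ U.card * exp (-x) := by
  have hW : Nonempty W := by
    by_contra h
    rw [not_nonempty_iff] at h
    simp at h1
  obtain ⟨v, hv⟩ := Finite.exists_max fun v : W => (U.filter fun B => v ∈ B).card
  refine ⟨v, ?_⟩
  have a1 : (U.card : ℝ) * x ≤ ∑ B ∈ U, ∑ w ∈ B, q w := by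
    have := card_nsmul_le_sum U _ x hU
    rwa [nsmul_eq_mul] at this
  have a2 : ∑ B ∈ U, ∑ w ∈ B, q w = ∑ w, q w * (U.filter fun B => w ∈ B).card := by
    have : ∀ B ∈ U, ∑ w ∈ B, q w = ∑ w, if w ∈ B then q w else 0 := fun B _ => by
      rw [← sum_filter]
      congr 1
      ext w
      simp
    rw [sum_congr rfl this, sum_comm]
    refine sum_congr rfl fun w _ => ?_
    rw [← sum_filter, sum_const, nsmul_eq_mul, mul_comm]
  have a3 : ∑ w, q w * ((U.filter fun B => w ∈ B).card : ℝ) ≤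
      ∑ w, q w * ((U.filter fun B => v ∈ B).card : ℝ) :=
    sum_le_sum fun w _ => mul_le_mul_of_nonneg_left (by exact_mod_cast hv w) (h0 w)
  rw [← sum_mul, h1, one_mul] at a3
  have a4 : ((U.filter fun B => v ∈ B).card : ℝ) + (U.filter fun B => v ∉ B).card = U.card := by
    exact_mod_cast card_filter_add_card_filter_not (s := U) fun B => v ∈ B
  have a5 : (U.card : ℝ) * (-x + 1) ≤ U.card * exp (-x) :=
    mul_le_mul_of_nonneg_left (add_one_le_exp _) (Nat.cast_nonneg _)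
  linarith

theorem ind_Hit {W : Type} [Fintype W] [DecidableEq W] (q : W → ℝ) (x : ℝ)
    (𝓑 : Finset (Finset W)) (h0 : ∀ v, 0 ≤ q v) (h1 : ∑ v, q v = 1)
    (hB : ∀ B ∈ 𝓑, x ≤ ∑ v ∈ B, q v) (r : ℕ) : ∃ F : Finset W, F.card ≤ r ∧
      ((𝓑.filter fun B => ∀ v ∈ B, v ∉ F).card : ℝ) ≤ 𝓑.card * exp (-(x * r)) := by
  induction r with
  | zero => exact ⟨∅, by simp, by simp⟩
  | succ r ih =>
    obtain ⟨F, hF, hc⟩ := ih
    obtain ⟨v, hv⟩ := step_Hit q x (𝓑.filter fun B => ∀ v ∈ B, v ∉ F) h0 h1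
      fun B hB' => hB B (mem_filter.mp hB').1
    refine ⟨insert v F, (card_insert_le _ _).trans (by omega), ?_⟩
    have e : (𝓑.filter fun B => ∀ w ∈ B, w ∉ insert v F) =
        (𝓑.filter fun B => ∀ w ∈ B, w ∉ F).filter fun B => v ∉ B := by
      ext B
      simp only [mem_filter, mem_insert, not_or, and_assoc]
      exact ⟨fun h => ⟨h.1, fun w hw => (h.2 w hw).2, fun hv => (h.2 v hv).1 rfl⟩,
        fun h => ⟨h.1, fun w hw => ⟨fun e => h.2.2 (e ▸ hw), h.2.1 w hw⟩⟩⟩
    rw [e]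
    refine hv.trans ((mul_le_mul_of_nonneg_right hc (exp_pos _).le).trans_eq ?_)
    rw [mul_assoc, ← exp_add]
    push_cast
    ring_nf

theorem s_hit : SHit := by
  intro W _ _ q x 𝓑 h0 h1 hx hB
  have hl : 0 ≤ log ((𝓑.card : ℝ) + 1) := log_nonneg (by simp)
  obtain ⟨F, hF, hc⟩ := ind_Hit q x 𝓑 h0 h1 hB ⌈log (𝓑.card + 1) / x⌉₊
  refine ⟨F, le_trans (by exact_mod_cast hF) (Nat.ceil_lt_add_one (by positivity)).le, ?_⟩
  have a1 : log ((𝓑.card : ℝ) + 1) ≤ x * ⌈log (𝓑.card + 1) / x⌉₊ := by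
    have := Nat.le_ceil (log ((𝓑.card : ℝ) + 1) / x)
    rwa [div_le_iff₀ hx, mul_comm] at this
  have a2 : exp (-(x * ⌈log ((𝓑.card : ℝ) + 1) / x⌉₊)) ≤ ((𝓑.card : ℝ) + 1)⁻¹ := by
    rw [← exp_log (show (0 : ℝ) < 𝓑.card + 1 by positivity), ← exp_neg, log_exp]
    exact exp_le_exp.mpr (neg_le_neg a1)
  have a3 : (𝓑.card : ℝ) * ((𝓑.card : ℝ) + 1)⁻¹ < 1 := by
    rw [← div_eq_mul_inv, div_lt_one (by positivity)]
    linarith
  have a4 : ((𝓑.filter fun B => ∀ v ∈ B, v ∉ F).card : ℝ) < 1 :=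
    (hc.trans (mul_le_mul_of_nonneg_left a2 (Nat.cast_nonneg _))).trans_lt a3
  have a5 : (𝓑.filter fun B => ∀ v ∈ B, v ∉ F) = ∅ := by
    rw [← card_eq_zero]
    exact Nat.lt_one_iff.mp (by exact_mod_cast a4)
  intro B hB'
  by_contra hn
  push Not at hn
  have : B ∈ 𝓑.filter fun B => ∀ v ∈ B, v ∉ F := mem_filter.mpr ⟨hB', hn⟩
  rw [a5] at this
  exact notMem_empty _ this

end Pool.Agent.MP_7bf9b2_an.Zc

end

section

set_option autoImplicit false

namespace Pool.Agent.MP_7bf9b2_an.Zc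
open Finset Filter Topology

open Classical in
/-- the density of a set among the first `n + 1` numbers -/
noncomputable def den_Mean (A : Set ℕ) (n : ℕ) : ℝ :=
  (∑ s ∈ range (n + 1), if s ∈ A then (1 : ℝ) else 0) / ((n : ℝ) + 1)

lemma den_mem_Mean (A : Set ℕ) (n : ℕ) : den_Mean A n ∈ Set.Icc (0 : ℝ) 1 := by
  classical
  have h : (0 : ℝ) < (n : ℝ) + 1 := by positivity
  refine ⟨div_nonneg (sum_nonneg fun s _ => by split_ifs <;> norm_num) h.le, ?_⟩
  rw [den_Mean, div_le_one h]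
  refine (sum_le_sum (g := fun _ => (1 : ℝ)) fun s _ => by split_ifs <;> norm_num).trans ?_
  simp

theorem s_mean : SMean := by
  classical
  have h1 : ∀ A : Set ℕ, ∃ x ∈ Set.Icc (0 : ℝ) 1,
      Tendsto (den_Mean A) (hyperfilter ℕ : Filter ℕ) (𝓝 x) := fun A =>
    isCompact_Icc.ultrafilter_le_nhds (Ultrafilter.map (den_Mean A) (hyperfilter ℕ)) (by
      rw [le_principal_iff]
      exact Filter.mem_map.2 (univ_mem' fun n => den_mem_Mean A n))
  choose m hm hl using h1
  refine ⟨m, fun A => (hm A).1, ?_, fun A B hAB => ?_, fun A => ?_⟩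
  · refine tendsto_nhds_unique (hl _) (tendsto_const_nhds.congr fun n => ?_)
    have h : (n : ℝ) + 1 ≠ 0 := by positivity
    simp [den_Mean, h]
  · refine tendsto_nhds_unique (hl _) (((hl A).add (hl B)).congr fun n => ?_)
    simp only [den_Mean]
    rw [← add_div, ← sum_add_distrib]
    congr 1
    refine sum_congr rfl fun s _ => ?_
    have : s ∈ A → s ∉ B := fun h => Set.disjoint_left.1 hAB h
    by_cases h1 : s ∈ A <;> by_cases h2 : s ∈ B <;> simp_all
  · have h0 : Tendsto (fun n => den_Mean {s | s + 1 ∈ A} n - den_Mean A n) atTop (𝓝 0) := by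
      refine squeeze_zero_norm (fun n => ?_) tendsto_one_div_add_atTop_nhds_zero_nat
      have h : (0 : ℝ) < (n : ℝ) + 1 := by positivity
      simp only [den_Mean, Set.mem_ofPred_eq]
      rw [← sub_div, norm_div, Real.norm_of_nonneg h.le]
      refine div_le_div_of_nonneg_right ?_ h.le
      rw [sum_range_succ, sum_range_succ' (fun s => if s ∈ A then (1 : ℝ) else 0),
        add_sub_add_left_eq_sub, Real.norm_eq_abs]
      split_ifs <;> norm_num
    have h2 := (h0.mono_left Nat.hyperfilter_le_atTop).add (hl A)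
    rw [zero_add] at h2
    exact tendsto_nhds_unique (hl _) (h2.congr fun n => by ring)

lemma empty_Mean {m : Set ℕ → ℝ} (h : IsMean m) : m ∅ = 0 := by
  have := h.add ∅ ∅ (by simp)
  rw [Set.union_empty] at this
  linarith

lemma fin_Mean {m : Set ℕ → ℝ} (h : IsMean m) {β : Type} (X : ℕ → β) (A : Set ℕ) (t : Finset β) :
    ∑ b ∈ t, m {s | s ∈ A ∧ X s = b} = m {s | s ∈ A ∧ X s ∈ t} := by
  classical
  induction t using Finset.induction_on with
  | empty => simp [empty_Mean h]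
  | insert b t hb ih =>
    rw [sum_insert hb, ih, ← h.add]
    · congr 1
      ext s
      simp only [Set.mem_union, Set.mem_ofPred_eq, mem_insert]
      tauto
    · rw [Set.disjoint_left]
      rintro s ⟨-, rfl⟩ ⟨-, h2⟩
      exact hb h2

theorem s_law : SLaw where
  empty := empty_Mean
  shift := by
    intro m h A T
    induction T with
    | zero => simp
    | succ T ih =>
      rw [← ih, ← h.inv {s | s + T ∈ A}]
      congr 1
      ext s
      simp only [Set.mem_ofPred_eq]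
      rw [add_assoc, add_comm 1 T]
  sum := fun h _ _ X A => by simpa using fin_Mean h X A univ
  fib := fun h _ _ _ _ X f A c => by simpa using fin_Mean h X A (univ.filter fun b => f b = c)

end Pool.Agent.MP_7bf9b2_an.Zc

end
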