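import Pool.Agent.Mg.F7bf9b2a.G0a54d9

set_option linter.all false

/-! The codebook lemma. -/

set_option autoImplicit false

namespace Pool.Agent.MP_7bf9b2_an.Zc

open Finset Real

/-- A quadratic polynomial is eventually below an exponential. -/
theorem big_Core (η K : ℝ) (hη : 0 < η) :
    ∃ N₁ : ℕ, ∀ N : ℕ, N₁ ≤ N → 4 ≤ η ^ 2 * N ∧ K * (N : ℝ) ^ 2 ≤ exp (η * N / 2) := by
  obtain ⟨N₁, hN₁⟩ := exists_nat_ge (max (4 / η ^ 2) (48 * K / η ^ 3))
  refine ⟨N₁, fun N hN => ?_⟩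
  have hN' : (N₁ : ℝ) ≤ N := by exact_mod_cast hN
  have h1 : 4 / η ^ 2 ≤ N := ((le_max_left _ _).trans hN₁).trans hN'
  have h2 : 48 * K / η ^ 3 ≤ N := ((le_max_right _ _).trans hN₁).trans hN'
  rw [div_le_iff₀ (by positivity)] at h1 h2
  refine ⟨by linarith, ?_⟩
  have h3 := Real.pow_div_factorial_le_exp (η * N / 2) (by positivity) 3
  refine le_trans ?_ h3
  have h4 : ((Nat.factorial 3 : ℕ) : ℝ) = 6 := by norm_num [Nat.factorial]
  rw [h4]
  have h5 : (0 : ℝ) ≤ (N : ℝ) ^ 2 := by positivity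
  have h6 := mul_le_mul_of_nonneg_right h2 h5
  nlinarith

/-- The law of two states at distance `T`. -/
noncomputable def pr_Core {S : Type} (m : Set ℕ → ℝ) (σ : ℕ → S) (T : ℕ) (a b : S) : ℝ :=
  m {s | σ s = a ∧ σ (s + T) = b}

section law
variable {S W : Type} [Fintype S] {m : Set ℕ → ℝ}

theorem mg_Core (hl : SLaw) (hm : IsMean m) (σ : ℕ → S) (T : ℕ) (a : S) :
    mg (pr_Core m σ T) a = m {s | σ s = a} :=
  hl.sum hm (fun s => σ (s + T)) {s | σ s = a}

theorem tot_Core (hl : SLaw) (hm : IsMean m) (σ : ℕ → S) : ∑ a, m {s | σ s = a} = 1 := by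
  have := hl.sum hm σ Set.univ
  rw [hm.one] at this
  simpa using this

theorem stn_Core (hl : SLaw) (hm : IsMean m) (σ : ℕ → S) (T : ℕ) : Stn (pr_Core m σ T) where
  nn := fun _ _ => hm.nn _
  one := by
    simp only [mg_Core hl hm]
    exact tot_Core hl hm σ
  st := fun b => by
    rw [mg_Core hl hm, ← hl.shift hm {s | σ s = b} T, ← hl.sum hm σ]
    refine sum_congr rfl fun a _ => ?_
    unfold pr_Core
    congr 1
    ext s
    exact and_comm

variable [DecidableEq W]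

theorem lq_Core (hl : SLaw) (hm : IsMean m) (σ : ℕ → S) (T : ℕ) (lab : S → W) (v : W) :
    lq (pr_Core m σ T) lab v = m {s | lab (σ s) = v} := by
  have := hl.fib hm σ lab Set.univ v
  simp only [Set.mem_univ, true_and] at this
  simp only [lq, mg_Core hl hm]
  exact this

theorem lr_Core (hl : SLaw) (hm : IsMean m) (σ : ℕ → S) (T : ℕ) (lab : S → W) (a : S) (v : W) :
    lr (pr_Core m σ T) lab a v = m {s | σ s = a ∧ lab (σ (s + T)) = v} :=
  hl.fib hm (fun s => σ (s + T)) lab {s | σ s = a} v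

theorem mi_Core [Fintype W] (hl : SLaw) (hm : IsMean m) (σ : ℕ → S) (T : ℕ) (lab : S → W) :
    mi (pr_Core m σ T) lab = Ent m σ + Ent m (fun s => lab (σ s)) -
      Ent m (fun s => (σ s, lab (σ (s + T)))) := by
  simp only [mi, Ent, mg_Core hl hm, lq_Core hl hm, lr_Core hl hm, Fintype.sum_prod_type,
    Prod.mk.injEq]

end law

theorem s_core (h0 : SMean) (hl : SLaw) (hs : SScale) (hd : SDp) (hh : SHit) : SCore := by
  intro A _ _ w η D N₀ hη hη1 hD
  obtain ⟨m, hm⟩ := h0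
  obtain ⟨C, hC⟩ := hs (η ^ 2 / 4) D (by positivity) hD
  obtain ⟨N₁, hN₁⟩ := big_Core η (C * (2 + C * Fintype.card A + 2 * D)) hη
  obtain ⟨N, hN, hB⟩ := hC m hm A w (max N₀ N₁)
  obtain ⟨h4, hexp⟩ := hN₁ N ((le_max_right _ _).trans hN)
  refine ⟨N, (le_max_left _ _).trans hN, fun B _ c n hcB hn => ?_⟩
  have hη2 : η ^ 2 ≤ η := by nlinarith
  have hN0 : (0 : ℝ) ≤ N := Nat.cast_nonneg N
  have hN1 : (1 : ℝ) ≤ N := by nlinarith
  have hBpos : (0 : ℝ) < Fintype.card B := by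
    have : Nonempty B := ⟨c 0⟩
    exact_mod_cast Fintype.card_pos
  obtain ⟨T, hT1, hT2, hT3⟩ := hB B c ((Real.log_le_iff_le_exp hBpos).2 hcB)
  have hT0 : (0 : ℝ) ≤ T := Nat.cast_nonneg T
  have hT2' : (T : ℝ) ≤ C * N := by exact_mod_cast hT2
  have hθ : 0 < η * N / 2 := by positivity
  set σ : ℕ → (Fin T → A) × B := fun s => (word w T s, c s) with hσ
  have hmi : mi (pr_Core m σ T) Prod.fst ≤ η ^ 2 / 4 * N := by
    rw [mi_Core hl hm]
    exact hT3
  obtain ⟨𝓑, hc𝓑, hheavy, hpath⟩ := hd _ (Fin T → A) (pr_Core m σ T) Prod.fst (η * N / 2) n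
    (stn_Core hl hm σ T) hθ
  obtain ⟨F, hF, hhit⟩ := hh (Fin T → A) (lq (pr_Core m σ T) Prod.fst) (exp (-(η * N / 2))) 𝓑
    (fun v => by rw [lq_Core hl hm]; exact hm.nn _)
    (by simp only [lq_Core hl hm]; exact tot_Core hl hm _) (exp_pos _) hheavy
  obtain ⟨p, hp, hbad⟩ := hpath F hhit
  have hne : ∀ i, ∃ t, σ t = p i ∧ σ (t + T) = p (i + 1) := by
    intro i
    by_contra hcon
    have h1 := hp i
    have h2 : {s | σ s = p i ∧ σ (s + T) = p (i + 1)} = (∅ : Set ℕ) :=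
      Set.eq_empty_of_forall_notMem fun s hs => hcon ⟨s, hs⟩
    unfold pr_Core at h1
    rw [h2, hl.empty hm] at h1
    exact lt_irrefl _ h1
  choose t ht1 ht2 using hne
  refine ⟨T, F, fun i => t (i + 1), by nlinarith, ?_, fun i => ?_, ?_⟩
  · have hA : ((Fintype.card A : ℝ)) ^ T ≤ exp (T * Fintype.card A) := by
      rw [exp_nat_mul]
      refine pow_le_pow_left₀ (Nat.cast_nonneg _) ?_ T
      linarith [add_one_le_exp (Fintype.card A : ℝ)]
    have h1 : (𝓑.card : ℝ) ≤ exp (T * Fintype.card A + 2 * D * N) := by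
      have h2 : (𝓑.card : ℝ) ≤ (Fintype.card A : ℝ) ^ T * Fintype.card B * n := by
        rw [Fintype.card_prod, Fintype.card_fun, Fintype.card_fin] at hc𝓑
        exact_mod_cast hc𝓑
      refine h2.trans ?_
      have h3 : T * (Fintype.card A : ℝ) + 2 * D * N =
          T * Fintype.card A + D * N + D * N := by ring
      rw [h3, exp_add, exp_add]
      gcongr
    have hX : 1 ≤ exp (T * Fintype.card A + 2 * D * N) := one_le_exp (by positivity)
    have h2 : log (𝓑.card + 1) ≤ 1 + (T * Fintype.card A + 2 * D * N) := by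
      rw [Real.log_le_iff_le_exp (by positivity), exp_add]
      have h3 : (2 : ℝ) ≤ exp 1 := by linarith [add_one_le_exp (1 : ℝ)]
      nlinarith
    have hE : 1 ≤ exp (η * N / 2) := one_le_exp hθ.le
    rw [exp_neg, div_inv_eq_mul] at hF
    have hcA : (0 : ℝ) ≤ Fintype.card A := Nat.cast_nonneg _
    have hC0 : (0 : ℝ) ≤ C := Nat.cast_nonneg _
    have h3 : 1 + (T * (Fintype.card A : ℝ) + 2 * D * N) + 1 ≤
        (2 + C * Fintype.card A + 2 * D) * N := by
      have := mul_le_mul_of_nonneg_right hT2' hcA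
      nlinarith
    have h5 : (F.card : ℝ) ≤ (2 + C * Fintype.card A + 2 * D) * N * exp (η * N / 2) := by
      have h6 := mul_le_mul_of_nonneg_right h2 (exp_pos (η * N / 2)).le
      have h7 := mul_le_mul_of_nonneg_right h3 (exp_pos (η * N / 2)).le
      nlinarith
    calc (T : ℝ) * F.card
        ≤ C * N * ((2 + C * Fintype.card A + 2 * D) * N * exp (η * N / 2)) := by gcongr
      _ = C * (2 + C * Fintype.card A + 2 * D) * (N : ℝ) ^ 2 * exp (η * N / 2) := by ring
      _ ≤ exp (η * N / 2) * exp (η * N / 2) := by gcongr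
      _ = exp (η * N) := by rw [← exp_add]; congr 1; ring
  · have h1 := congrArg Prod.snd ((ht2 (i + 1)).trans (ht1 (i + 1 + 1)).symm)
    exact h1
  · have h1 : ∀ i, word w T (t (i + 1)) = (p (i + 1)).1 := fun i =>
      congrArg Prod.fst (ht1 (i + 1))
    simp only [h1]
    refine hbad.trans ?_
    rw [mul_comm η (n : ℝ)]
    have hn0 : (0 : ℝ) ≤ n := Nat.cast_nonneg n
    refine mul_le_mul_of_nonneg_left ?_ hn0
    rw [div_le_iff₀ hθ]
    nlinarith

end Pool.Agent.MP_7bf9b2_an.Zc
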