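import Pool.Agent.Mg.F7bf9b2a.Gfbc720

set_option linter.all false

section

set_option autoImplicit false
set_option maxSynthPendingDepth 3

namespace Pool.Agent.MP_7bf9b2_an.Zc

open scoped Topology Manifold ContDiff
open Set Filter MeasureTheory Metric

variable {V : Type} [NormedAddCommGroup V] [NormedSpace ℝ V] [FiniteDimensional ℝ V]
  {M : Type} [TopologicalSpace M] [ChartedSpace V M] [IsManifold 𝓘(ℝ, V) ∞ M]
  {E : Type} [NormedAddCommGroup E] [InnerProductSpace ℝ E] [FiniteDimensional ℝ E]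

theorem s_cpt : SCpt V M E := by
  intro a R
  have h2 : Ch2Stmt V M E := ch2 ch1
  obtain ⟨θ, -, θb, θc⟩ := Ms3L.exists_th
  have e : {z : TT V M | ‖a.vel z‖ ≤ R} = a.lift '' FlbL.K0 a.G R := by
    refine Subset.antisymm (fun z hz => ?_) ?_
    · have h := h2.tm a z (θ z.2)
      exact ⟨(a.pos z, a.vel z, θ z.2), ⟨⟨h.1, mem_closedBall_zero_iff.2 hz, θb _⟩,
        sub_eq_zero.2 h.2⟩, h2.lift_pv a z _ (θc _).symm⟩
    · rintro _ ⟨p, hp, rfl⟩
      have h := FlbL.K0_sub _ _ hp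
      change ‖a.vel (a.lift p)‖ ≤ R
      rw [(h2.dr a p (a.G.M_sub_U h.1)).2, h.2]
      exact mem_closedBall_zero_iff.1 hp.1.2.1
  rw [e]
  exact (FlbL.K0_cpt a.G R).image_of_continuousOn
    ((h2.clift a).mono fun p hp => a.G.M_sub_U hp.1.1)

end Pool.Agent.MP_7bf9b2_an.Zc

end

section

/-!
Continuous dependence of Euler-Lagrange curves on the initial data and on the Lagrangian.
-/

set_option autoImplicit false
set_option maxSynthPendingDepth 3
set_option linter.unusedSectionVars false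

namespace Pool.Agent.MP_7bf9b2_an.Zc

open scoped Topology Manifold ContDiff
open Set Filter MeasureTheory Metric

variable {E : Type} [NormedAddCommGroup E] [InnerProductSpace ℝ E] [FiniteDimensional ℝ E]

theorem core_Gr {G : Geo E} {Λ₀ Λ : PP E → ℝ} {y z : ℝ → E} {R κ K σ e T D C t : ℝ}
    (hD : D = (K + 1) / κ) (hC : C = 1 + K + K * D) (hL : Lag G Λ₀) (hb : Bd G Λ₀ R κ K)
    (hc : Close G σ Λ Λ₀) (hσ : 0 ≤ σ) (hσe : σ * (R + 2) ≤ e) (hy : ELc G Λ₀ y) (hz : ELc G Λ z)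
    (sy : Spd R y) (sz : Spd R z) (hr : 2 * Real.exp (C * T) * e ≤ G.r0)
    (i1 : ‖z t - y t‖ ≤ e) (i2 : ‖mom Λ z t - mom Λ₀ y t‖ ≤ e) :
    ∀ r ∈ Icc t (t + T), ‖z r - y r‖ ≤ 2 * Real.exp (C * T) * e ∧
      ‖deriv z r - deriv y r‖ ≤ D * (2 * Real.exp (C * T) * e + e) := by
  have hκ := hb.k0
  have hK := hb.K1
  have hr0 := G.r0_pos
  have he : 0 ≤ e := (norm_nonneg _).trans i1
  have hD0 : 0 < D := by rw [hD]; positivity
  have hC0 : 0 < C := by rw [hC]; positivity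
  have hDC : D ≤ C := by nlinarith
  have dy : ∀ t, HasDerivAt y (deriv y t) t := fun t =>
    (hy.cu.c2.differentiable two_ne_zero t).hasDerivAt
  have dz : ∀ t, HasDerivAt z (deriv z t) t := fun t =>
    (hz.cu.c2.differentiable two_ne_zero t).hasDerivAt
  have c2 : Continuous fun t => ‖z t - y t‖ := (hz.cu.c2.continuous.sub hy.cu.c2.continuous).norm
  have du : ∀ t, HasDerivAt (fun t => (z t - y t, mom Λ z t - mom Λ₀ y t))
      (deriv z t - deriv y t, px Λ (ph z t) - px Λ₀ (ph y t)) t := fun t =>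
    ((dz t).sub (dy t)).prodMk ((hz.el t).sub (hy.el t))
  have pt : ∀ t, ‖z t - y t‖ ≤ 2 * G.r0 →
      ‖deriv z t - deriv y t‖ ≤ D * (‖(z t - y t, mom Λ z t - mom Λ₀ y t)‖ + e) ∧
      ‖px Λ (ph z t) - px Λ₀ (ph y t)‖ ≤ C * (‖(z t - y t, mom Λ z t - mom Λ₀ y t)‖ + e) :=
    fun t h2 => by
      have := GronL.est bas hL hb hc hσ (t := t) (hz.cu.mem t) (hy.cu.mem t)
        ((sz t).trans (by linarith)) ((sy t).trans (by linarith)) h2
        (norm_fst_le (z t - y t, mom Λ z t - mom Λ₀ y t))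
        (norm_snd_le (z t - y t, mom Λ z t - mom Λ₀ y t))
      rw [← hD, ← hC] at this
      exact ⟨this.1.trans (mul_le_mul_of_nonneg_left (add_le_add_right hσe _) hD0.le),
        this.2.trans (mul_le_mul_of_nonneg_left (add_le_add_right hσe _) hC0.le)⟩
  have gr : ∀ b ∈ Icc t (t + T), Icc t b ⊆ {r | ‖z r - y r‖ ≤ 2 * G.r0} →
      ‖(z b - y b, mom Λ z b - mom Λ₀ y b)‖ ≤ 2 * Real.exp (C * T) * e := fun b hb' hS => by
    have g1 := norm_le_gronwallBound_of_norm_deriv_right_le (K := C) (ε := C * e) (b := b)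
      (fun r _ => (du r).continuousAt.continuousWithinAt) (fun r _ => (du r).hasDerivWithinAt)
      (norm_prod_le_iff.2 ⟨i1, i2⟩)
      (fun r hr => by
        obtain ⟨h3, h4⟩ := pt r (hS ⟨hr.1, hr.2.le⟩)
        rw [norm_prod_le_iff, ← mul_add]
        exact ⟨h3.trans (mul_le_mul_of_nonneg_right hDC (by positivity)), h4⟩)
      b ⟨hb'.1, le_rfl⟩
    exact g1.trans (GronL.gb he hC0 (T := T) (by linarith [hb'.2]))
  intro r hr'
  have hT : 0 ≤ T := by linarith [hr'.1, hr'.2]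
  have h1 : 1 ≤ Real.exp (C * T) := Real.one_le_exp (by positivity)
  have key : Icc t (t + T) ⊆ {r | ‖z r - y r‖ ≤ 2 * G.r0} := by
    refine IsClosed.Icc_subset_of_forall_mem_nhdsGT_of_Icc_subset
      ((isClosed_le c2 continuous_const).inter isClosed_Icc) (i1.trans (by nlinarith))
      fun b hb' hS => ?_
    have g4 : ‖z b - y b‖ < 2 * G.r0 := by
      have := (norm_fst_le (z b - y b, mom Λ z b - mom Λ₀ y b)).trans (gr b ⟨hb'.1, hb'.2.le⟩ hS)
      linarith
    refine mem_nhdsWithin_of_mem_nhds ?_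
    filter_upwards [(c2.tendsto b).eventually_lt_const g4] with r a using a.le
  have g2 := gr r hr' ((Icc_subset_Icc_right hr'.2).trans key)
  exact ⟨(norm_fst_le (z r - y r, mom Λ z r - mom Λ₀ y r)).trans g2,
    (pt r (key hr')).1.trans (mul_le_mul_of_nonneg_left (add_le_add_left g2 e) hD0.le)⟩

theorem s_gr : SGr E := by
  intro κ K
  obtain ⟨D, hD⟩ : ∃ D, D = (K + 1) / κ := ⟨_, rfl⟩
  obtain ⟨C, hC⟩ : ∃ C, C = 1 + K + K * D := ⟨_, rfl⟩
  refine ⟨3 + 3 * |C| + 3 * |D|, by linarith [abs_nonneg C, abs_nonneg D], ?_⟩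
  intro G Λ₀ Λ y z R σ e T hL hb hc hσ hσe hy hz sy sz hT hr s t k hk i1 i2 τ hτ
  have he : 0 ≤ e := (norm_nonneg _).trans i1
  have a1 := le_abs_self C
  have a2 := le_abs_self D
  have a3 := abs_nonneg C
  have a4 := abs_nonneg D
  generalize hC' : 3 + 3 * |C| + 3 * |D| = C' at hr ⊢
  have hκ := hb.k0
  have hK := hb.K1
  have hD0 : 0 < D := by rw [hD]; positivity
  have hC0 : 0 < C := by rw [hC]; positivity
  have h1 : 1 ≤ Real.exp (C * T) := Real.one_le_exp (by positivity)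
  have h2 : Real.exp (C * T) * e ≤ Real.exp (C' * T) * e := mul_le_mul_of_nonneg_right
    (Real.exp_le_exp.2 (mul_le_mul_of_nonneg_right (by linarith) hT)) he
  have h3 : e ≤ Real.exp (C * T) * e := le_mul_of_one_le_left he h1
  have h4 : 2 * Real.exp (C * T) * e ≤ C' * Real.exp (C' * T) * e := by
    rw [mul_assoc, mul_assoc]
    exact mul_le_mul (by linarith) h2 (he.trans h3) (by linarith)
  have h5 : D * (2 * Real.exp (C * T) * e + e) ≤ C' * Real.exp (C' * T) * e := by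
    calc _ ≤ D * (3 * (Real.exp (C * T) * e)) :=
          mul_le_mul_of_nonneg_left (by linarith) hD0.le
      _ = 3 * D * (Real.exp (C * T) * e) := by ring
      _ ≤ _ := by
          rw [mul_assoc C']
          exact mul_le_mul (by linarith) h2 (he.trans h3) (by linarith)
  have e0 : ∀ a : ℝ, t + a + ((-k : ℤ) : ℝ) = s + a := fun a => by
    rw [hk, Int.cast_neg]
    ring
  have e1 : t + ((-k : ℤ) : ℝ) = s := by simpa using e0 0
  have h := core_Gr (t := t) hD hC hL hb hc hσ hσe (bas.shf.el (-k) hL hy) hz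
    (bas.shf.spd (-k) sy) sz (h4.trans hr) (by rwa [sh, e1]) (by rwa [bas.shf.smom hL, e1])
    (t + τ) ⟨by linarith [hτ.1], by linarith [hτ.2]⟩
  rw [bas.shf.dv, sh, e0] at h
  exact norm_prod_le_iff.2 ⟨h.1.trans h4, h.2.trans h5⟩

end Pool.Agent.MP_7bf9b2_an.Zc

end

section

/-!
An invariant measure of least action, as a limit of measures on periodic orbits.
-/

set_option autoImplicit false
set_option maxSynthPendingDepth 3

namespace Pool.Agent.MP_7bf9b2_an.Zc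

open scoped Topology Manifold ContDiff
open Set Filter MeasureTheory Metric

theorem core_MsB {K : Type} [TopologicalSpace K] [CompactSpace K]
    [TopologicalSpace.MetrizableSpace K] [MeasurableSpace K] [BorelSpace K] {φ : ℝ → K → K}
    (hφ : ∀ s, Continuous (φ s)) {f : K → ℝ} (hf : Continuous f) {c : ℝ}
    (h : ∀ δ > 0, ∃ ν : Measure K, IsProbabilityMeasure ν ∧ (∀ s, ν.map (φ s) = ν) ∧
      ∫ z, f z ∂ν ≤ c + δ) :
    ∃ ν : Measure K, IsProbabilityMeasure ν ∧ (∀ s, ν.map (φ s) = ν) ∧ ∫ z, f z ∂ν ≤ c := by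
  let S : Set (ProbabilityMeasure K) :=
    ⋂ s, {ν | ν.map (hφ s).measurable.aemeasurable = ν}
  have hS : IsClosed S := isClosed_iInter fun s =>
    isClosed_eq (ProbabilityMeasure.continuous_map (hφ s)) continuous_id
  have hm : ∀ (ν : Measure K) (p : IsProbabilityMeasure ν), (∀ s, ν.map (φ s) = ν) →
      (⟨ν, p⟩ : ProbabilityMeasure K) ∈ S := fun ν p hν =>
    mem_iInter.2 fun s => Subtype.ext (hν s)
  have hc : Continuous fun ν : ProbabilityMeasure K => ∫ z, f z ∂(ν : Measure K) :=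
    ProbabilityMeasure.continuous_integral_boundedContinuousFunction
      (BoundedContinuousFunction.mkOfCompact ⟨f, hf⟩)
  obtain ⟨ν₁, p₁, h₁, -⟩ := h 1 one_pos
  obtain ⟨ν, hν, hmin⟩ := hS.isCompact.exists_isMinOn ⟨_, hm ν₁ p₁ h₁⟩ hc.continuousOn
  refine ⟨ν, ν.2, fun s => congrArg Subtype.val (mem_iInter.1 hν s),
    le_of_forall_pos_le_add fun δ hδ => ?_⟩
  obtain ⟨ν', p', h', e'⟩ := h δ hδ
  exact (hmin (hm ν' p' h')).trans e'

theorem lim_MsB {X : Type} [TopologicalSpace X] [T2Space X] [MeasurableSpace X] [BorelSpace X]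
    {Φ : Flow ℝ X} {K : Set X} (hK : IsCompact K) [TopologicalSpace.MetrizableSpace K]
    (hi : ∀ s, ∀ z ∈ K, Φ s z ∈ K) {f : X → ℝ} (hf : Continuous f) {c : ℝ}
    (h : ∀ δ > 0, ∃ μ : Measure X, IsInv Φ μ ∧ μ Kᶜ = 0 ∧ ∫ z, f z ∂μ ≤ c + δ) :
    ∃ μ : Measure X, IsInv Φ μ ∧ ∫ z, f z ∂μ ≤ c ∧ μ.support.Nonempty := by
  have : CompactSpace K := isCompact_iff_compactSpace.1 hK
  have he := MeasurableEmbedding.subtype_coe hK.measurableSet
  let φ : ℝ → K → K := fun s z => ⟨Φ s z, hi s z z.2⟩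
  have hΦ : ∀ s, Continuous (Φ s) := fun s => Φ.continuous continuous_const continuous_id
  have hφ : ∀ s, Continuous (φ s) := fun s => ((hΦ s).comp continuous_subtype_val).subtype_mk _
  have hc : ∀ (ν : Measure K) (s : ℝ),
      (ν.map (φ s)).map Subtype.val = (ν.map Subtype.val).map (Φ s) := fun ν s => by
    rw [Measure.map_map he.measurable (hφ s).measurable,
      Measure.map_map (hΦ s).measurable he.measurable]
    rfl
  obtain ⟨ν, p, hν, e⟩ := core_MsB hφ (hf.comp continuous_subtype_val) (c := c) fun δ hδ => by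
    obtain ⟨μ, ⟨p, -, hμ⟩, h0, e⟩ := h δ hδ
    have h1 : (μ.comap Subtype.val : Measure K).map Subtype.val = μ := by
      rw [map_comap_subtype_coe hK.measurableSet]
      exact Measure.restrict_eq_self_of_ae_mem h0
    refine ⟨μ.comap Subtype.val, he.isProbabilityMeasure_comap ?_, fun s => he.map_injective ?_, ?_⟩
    · rw [Subtype.range_coe]
      exact h0
    · rw [hc, h1, hμ]
    · rw [← h1, he.integral_map] at e
      exact e
  have p' : IsProbabilityMeasure (ν.map Subtype.val : Measure X) :=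
    Measure.isProbabilityMeasure_map he.measurable.aemeasurable
  have h0 : (ν.map Subtype.val : Measure X) Kᶜ = 0 := by
    rw [he.map_apply, preimage_compl, Subtype.coe_preimage_self, compl_univ, measure_empty]
  refine ⟨ν.map Subtype.val, ⟨p', ⟨K, hK, h0⟩, fun s => by rw [← hc, hν]⟩, ?_, ?_⟩
  · rw [he.integral_map]
    exact e
  · rw [nonempty_iff_ne_empty]
    intro h1
    have h2 := Measure.measure_eq_zero_of_isCompact_subset_compl_support
      (μ := ν.map Subtype.val) hK (by rw [h1, compl_empty]; exact subset_univ _)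
    have h3 := measure_union_null h2 h0
    rw [union_compl_self, measure_univ] at h3
    exact one_ne_zero h3

variable {E : Type} [NormedAddCommGroup E] [InnerProductSpace ℝ E] [FiniteDimensional ℝ E]

theorem s_msB : SMsB E := by
  intro G Λ Y X _ _ _ _ Φ ℓ tm pos vel α R _ h hv hc ⟨_, _, _, hcr⟩
  let K : Set X := ⋂ t : ℝ, {z | ‖vel (Φ t z)‖ ≤ R}
  have hΦ : ∀ s, Continuous (Φ s) := fun s => Φ.continuous continuous_const continuous_id
  have hK : IsCompact K := hc.of_isClosed_subset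
    (isClosed_iInter fun t => isClosed_le (hv.comp (hΦ t)).norm continuous_const) fun z hz => by
      simpa using mem_iInter.1 hz 0
  have : CompactSpace K := isCompact_iff_compactSpace.1 hK
  have hcont : Continuous fun z : K => (pos z, vel z, tm z) :=
    (h.cpos.prodMk (hv.prodMk h.ctm)).comp continuous_subtype_val
  have : TopologicalSpace.MetrizableSpace K :=
    (hcont.isClosedEmbedding fun z z' e => Subtype.ext (h.inj _ _ (congrArg (·.1) e)
      (congrArg (·.2.1) e) (congrArg (·.2.2) e))).isEmbedding.metrizableSpace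
  refine lim_MsB hK (fun s z hz => mem_iInter.2 fun t => ?_) h.cL fun δ hδ => ?_
  · have := mem_iInter.1 hz (t + s)
    rwa [mem_ofPred_eq, Φ.map_add] at this
  · obtain ⟨l, Γ, hl, horb, hper, hs, hact⟩ := hcr δ hδ
    obtain ⟨p, hp, hΓ⟩ := h.orb Γ horb
    obtain rfl : Γ = fun t => pos (Φ t p) := funext hΓ
    have n1 : (1 : ℝ) ≤ l := by exact_mod_cast hl
    have hpp : Φ l p = p := (Ms3L.eq_of h hp hp l fun t => (hper t).symm).symm
    obtain ⟨μ, μi, μ0, μe, -⟩ := ms2 Φ p l (by linarith) hpp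
    refine ⟨μ, μi, measure_mono_null (compl_subset_compl.2 ?_) μ0, ?_⟩
    · rintro _ ⟨s, rfl⟩
      refine mem_iInter.2 fun t => ?_
      have := hs (t + s)
      rwa [h.dv p hp, Φ.map_add] at this
    · rw [μe ℓ h.cL, ← Ms3L.act_eq h hp, div_le_iff₀ (by linarith)]
      nlinarith

end Pool.Agent.MP_7bf9b2_an.Zc

end

section

set_option autoImplicit false
set_option maxSynthPendingDepth 3

namespace Pool.Agent.MP_7bf9b2_an.Zc

open scoped Topology Manifold ContDiff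
open Set Filter MeasureTheory Metric

variable {E : Type} [NormedAddCommGroup E] [InnerProductSpace ℝ E] [FiniteDimensional ℝ E]

theorem exp_MsC (u : ℕ → ENNReal)
    (h : ∀ γ : ℝ, 0 < γ → ∃ C : ℝ, ∀ n : ℕ, u n ≤ ENNReal.ofReal (C * Real.exp (γ * n))) :
    ExpGrowth.expGrowthSup u ≤ 0 := by
  refine le_of_forall_gt_imp_ge_of_dense fun a ha => ?_
  obtain ⟨γ, h0, h1⟩ := EReal.lt_iff_exists_real_btwn.1 ha
  obtain ⟨C, hC⟩ := h γ (by exact_mod_cast h0)
  refine le_trans ?_ h1.le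
  rw [← ExpGrowth.expGrowthSup_exp (a := (γ : EReal))]
  refine ExpGrowth.expGrowthSup_le_of_eventually_le (b := ENNReal.ofReal C) ENNReal.ofReal_ne_top
    (Eventually.of_forall fun n => (hC n).trans ?_)
  have e : (γ : EReal) * (n : EReal) = ((γ * n : ℝ) : EReal) := by
    rw [EReal.coe_mul, EReal.coe_natCast]
  rw [e, EReal.exp_coe, ENNReal.ofReal_mul' (Real.exp_pos _).le]

theorem cov_MsC {X ι : Type} [TopologicalSpace X] {T : X → X} (hT : Continuous T)
    {S Z : Set X} {Wc W : Set (X × X)} (hc : IsClosed Wc) (hW : Wc ⊆ W) (hZ : Z ⊆ closure S)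
    (n : ℕ) (I : Finset ι) (lab : X → ι → Prop) (h1 : ∀ z ∈ S, ∃ i ∈ I, lab z i)
    (h2 : ∀ z z' i, lab z i → lab z' i → ∀ k < n, (T^[k] z, T^[k] z') ∈ Wc) :
    Dynamics.coverMincard T Z W n ≤ I.card := by
  classical
  rcases Z.eq_empty_or_nonempty with rfl | ⟨z₀, -⟩
  · simp
  have hr : ∀ i, ∃ y : X, ∀ z, lab z i → ∀ k < n, (T^[k] z, T^[k] y) ∈ Wc := fun i => by
    by_cases h : ∃ y, lab y i
    · obtain ⟨y, hy⟩ := h
      exact ⟨y, fun z hz => h2 z y i hz hy⟩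
    · exact ⟨z₀, fun z hz => (h ⟨z, hz⟩).elim⟩
  choose rep hrep using hr
  have hcl : IsClosed (⋃ i ∈ I, ⋂ k ∈ Finset.range n, {z | (T^[k] z, T^[k] (rep i)) ∈ Wc}) := by
    refine isClosed_biUnion_finset fun i _ => isClosed_biInter fun k _ => ?_
    exact hc.preimage ((hT.iterate k).prodMk continuous_const)
  have hS : S ⊆ ⋃ i ∈ I, ⋂ k ∈ Finset.range n, {z | (T^[k] z, T^[k] (rep i)) ∈ Wc} := by
    intro z hz
    obtain ⟨i, hi, hl⟩ := h1 z hz
    refine mem_iUnion₂.2 ⟨i, hi, mem_iInter₂.2 fun k hk => ?_⟩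
    exact hrep i z hl k (Finset.mem_range.1 hk)
  have hcov : Dynamics.IsDynCoverOf T Z W n (I.image rep : Finset X) := by
    intro z hz
    obtain ⟨i, hi, hm⟩ := mem_iUnion₂.1 (closure_minimal hS hcl (hZ hz))
    refine ⟨rep i, by simpa using ⟨i, hi, rfl⟩, Dynamics.mem_dynEntourage.2 fun k hk => hW ?_⟩
    exact mem_iInter₂.1 hm k (Finset.mem_range.2 hk)
  exact hcov.coverMincard_le_card.trans (by exact_mod_cast Finset.card_image_le)

theorem ent_MsC {X : Type} [TopologicalSpace X] [T2Space X] (Φ : Flow ℝ X) {K : Set X}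
    (hK : IsCompact K) {pos vel : X → E} (hp : Continuous pos) (hv : Continuous vel)
    (hi : ∀ z ∈ K, ∀ z' ∈ K, pos z = pos z' → vel z = vel z' → z = z') {W : Set (X × X)}
    (hW : W ∈ 𝓝ˢ (diagonal X)) : ∃ r > 0, ∃ Wc : Set (X × X), IsClosed Wc ∧ Wc ⊆ W ∧
      ∀ w ∈ K, ∀ w' ∈ K, ∀ θ ∈ Icc (0 : ℝ) 1, ∀ θ' ∈ Icc (0 : ℝ) 1,
        ‖pos w - pos w'‖ ≤ 2 * r → ‖vel w - vel w'‖ ≤ 2 * r → |θ - θ'| ≤ r →
          (Φ θ w, Φ θ' w') ∈ Wc := by
  obtain ⟨W', hWW, ho, hd⟩ := mem_nhdsSet_iff_exists.1 hW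
  set F : (X × ℝ) × (X × ℝ) → X × X := fun p => (Φ p.1.2 p.1.1, Φ p.2.2 p.2.1) with hF
  have cF : Continuous F := by
    refine Continuous.prodMk ?_ ?_
    · exact Φ.continuous (by fun_prop) (by fun_prop)
    · exact Φ.continuous (by fun_prop) (by fun_prop)
  set d : (X × ℝ) × (X × ℝ) → ℝ := fun p =>
    ‖pos p.1.1 - pos p.2.1‖ + ‖vel p.1.1 - vel p.2.1‖ + |p.1.2 - p.2.2| with hdd
  have cd : Continuous d := by
    simp only [hdd]
    fun_prop
  set Q : Set ((X × ℝ) × (X × ℝ)) := (K ×ˢ Icc (0 : ℝ) 1) ×ˢ (K ×ˢ Icc (0 : ℝ) 1) with hQ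
  have cQ : IsCompact Q := (hK.prod isCompact_Icc).prod (hK.prod isCompact_Icc)
  have cB : IsCompact (Q ∩ F ⁻¹' W'ᶜ) := cQ.inter_right (hWW.isClosed_compl.preimage cF)
  obtain ⟨a, ha, hm⟩ := cB.exists_forall_le' (f := d) cd.continuousOn (a := 0) (by
    rintro ⟨⟨w, θ⟩, ⟨w', θ'⟩⟩ ⟨⟨h1, h2⟩, h3⟩
    by_contra hn
    have n1 := norm_nonneg (pos w - pos w')
    have n2 := norm_nonneg (vel w - vel w')
    have n3 := abs_nonneg (θ - θ')
    simp only [hdd, not_lt] at hn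
    have e1 : pos w = pos w' := sub_eq_zero.1 (norm_eq_zero.1 (by linarith))
    have e2 : vel w = vel w' := sub_eq_zero.1 (norm_eq_zero.1 (by linarith))
    have e3 : θ = θ' := sub_eq_zero.1 (abs_eq_zero.1 (by linarith))
    have e4 : w = w' := hi w h1.1 w' h2.1 e1 e2
    apply h3
    apply ho
    simp only [hF, e3, e4, mem_diagonal_iff])
  refine ⟨a / 10, by positivity, F '' (Q ∩ {p | d p ≤ a / 2}), ?_, ?_, ?_⟩
  · exact ((cQ.inter_right (isClosed_le cd continuous_const)).image cF).isClosed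
  · rintro _ ⟨p, ⟨h1, h2⟩, rfl⟩
    apply hd
    by_contra hn
    have := hm p ⟨h1, hn⟩
    simp only [mem_setOf_eq] at h2
    linarith
  · intro w hw w' hw' θ hθ θ' hθ' h1 h2 h3
    refine ⟨((w, θ), (w', θ')), ⟨⟨⟨hw, hθ⟩, ⟨hw', hθ'⟩⟩, ?_⟩, rfl⟩
    simp only [mem_setOf_eq, hdd]
    linarith

theorem it_MsC {X : Type} [TopologicalSpace X] (Φ : Flow ℝ X) (θ : ℝ) (w : X) (j : ℕ) :
    (Φ 1)^[j] (Φ θ w) = Φ θ (Φ j w) := by
  induction j with
  | zero => simp
  | succ j ih =>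
    rw [Function.iterate_succ_apply', ih, ← Φ.map_add, ← Φ.map_add, ← Φ.map_add]
    congr 1
    push_cast
    ring

theorem fl_MsC {θ θ' r : ℝ} (hr : 0 < r) (h : 0 ≤ θ) (h' : 0 ≤ θ')
    (e : ⌊θ / r⌋₊ = ⌊θ' / r⌋₊) : |θ - θ'| ≤ r := by
  have a1 := Nat.floor_le (div_nonneg h hr.le)
  have a2 := Nat.floor_le (div_nonneg h' hr.le)
  have b1 := Nat.lt_floor_add_one (θ / r)
  have b2 := Nat.lt_floor_add_one (θ' / r)
  rw [e] at a1 b1
  rw [le_div_iff₀ hr] at a1 a2
  rw [div_lt_iff₀ hr] at b1 b2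
  rw [abs_le]
  constructor <;> nlinarith

theorem s_msC : SMsC E := by
  intro G Λ Y X _ _ Φ ℓ tm pos vel α R h hv hK hcr hcod Z hZ
  have sp : ∀ w, tm w = 0 → (Static G Λ α fun t => pos (Φ t w)) → ∀ t, ‖vel (Φ t w)‖ ≤ R :=
    fun w hw hs t => by
      rw [← h.dv w hw t]
      exact hcr.2.1 _ hs t
  refine ⟨hZ.trans (closure_minimal ?_ hK.isClosed), fun W hW => ?_⟩
  · rintro _ ⟨w, θ, -, hw, rfl, hs⟩
    exact sp w hw hs θ
  have cK : IsCompact ({z | ‖vel z‖ ≤ R} ∩ {z | tm z = 0}) :=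
    hK.inter_right (isClosed_eq h.ctm continuous_const)
  obtain ⟨r, hr, Wc, hc, hWc, hcl⟩ := ent_MsC Φ cK h.cpos hv
    (fun z hz z' hz' e1 e2 => h.inj z z' e1 e2 (hz.2.trans hz'.2.symm)) hW
  refine exp_MsC _ fun γ hγ => ?_
  obtain ⟨C, hC⟩ := hcod r γ hr hγ α hcr.1
  refine ⟨C * ((⌊1 / r⌋₊ + 1 : ℕ) : ℝ), fun n => ?_⟩
  obtain ⟨𝓒, hcard, hcode⟩ := hC n
  have key := cov_MsC (Φ.continuous_toFun 1) hc hWc hZ n (𝓒 ×ˢ Finset.range (⌊1 / r⌋₊ + 1))
    (fun z i => ∃ w : X, ∃ θ ∈ Icc (0 : ℝ) 1, tm w = 0 ∧ z = Φ θ w ∧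
      (Static G Λ α fun t => pos (Φ t w)) ∧
      (∀ j < n, ‖pq (fun t => pos (Φ t w)) j - i.1 j‖ ≤ r) ∧ ⌊θ / r⌋₊ = i.2) ?_ ?_
  · refine (ENat.toENNReal_mono key).trans ?_
    rw [ENat.toENNReal_coe, ← ENNReal.ofReal_natCast, Finset.card_product, Finset.card_range]
    refine ENNReal.ofReal_le_ofReal ?_
    rw [Nat.cast_mul, mul_right_comm]
    exact mul_le_mul_of_nonneg_right hcard (Nat.cast_nonneg _)
  · rintro _ ⟨w, θ, hθ, hw, rfl, hs⟩
    obtain ⟨b, hb, hj⟩ := hcode _ hs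
    refine ⟨(b, ⌊θ / r⌋₊), Finset.mem_product.2 ⟨hb, Finset.mem_range.2 ?_⟩,
      w, θ, hθ, hw, rfl, hs, hj, rfl⟩
    exact Nat.lt_succ_of_le (Nat.floor_le_floor (div_le_div_of_nonneg_right hθ.2 hr.le))
  · rintro _ _ i ⟨w, θ, hθ, hw, rfl, hs, hj, hf⟩ ⟨w', θ', hθ', hw', rfl, hs', hj', hf'⟩ k hk
    rw [it_MsC, it_MsC]
    have t0 : ∀ v, tm v = 0 → tm (Φ k v) = 0 := fun v hv0 => by
      have := Ms3L.cl_int (k : ℤ)
      rw [Int.cast_natCast] at this
      rw [h.time, hv0, this, add_zero]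
    have hd : ‖pq (fun t => pos (Φ t w)) k - pq (fun t => pos (Φ t w')) k‖ ≤ 2 * r := by
      have := norm_sub_le_norm_sub_add_norm_sub (pq (fun t => pos (Φ t w)) k) (i.1 k)
        (pq (fun t => pos (Φ t w')) k)
      rw [norm_sub_rev (i.1 k)] at this
      linarith [hj k hk, hj' k hk]
    simp only [pq, h.dv w hw, h.dv w' hw', Prod.mk_sub_mk] at hd
    exact hcl _ ⟨sp w hw hs k, t0 w hw⟩ _ ⟨sp w' hw' hs' k, t0 w' hw'⟩ θ hθ θ' hθ'
      ((norm_fst_le (_, _)).trans hd) ((norm_snd_le (_, _)).trans hd)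
      (fl_MsC hr hθ.1 hθ'.1 (hf.trans hf'.symm))

end Pool.Agent.MP_7bf9b2_an.Zc

end

section

set_option autoImplicit false
set_option maxSynthPendingDepth 3

namespace Pool.Agent.MP_7bf9b2_an.Zc

open scoped Topology Manifold ContDiff
open Set Filter MeasureTheory Metric

variable {E : Type} [NormedAddCommGroup E] [InnerProductSpace ℝ E] [FiniteDimensional ℝ E]

theorem s_u : SU E := by
  intro G Λ β K T₀ y hL hC hS
  have hB : Bas E := bas
  have hy := hS.el.cu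
  let S : E → ℝ → Set ℝ := fun x t => {v | ∃ (s : ℝ) (k : ℤ) (A : ℝ),
    Path G Λ (y s) s x (t + k) A ∧ v = act Λ y 0 s + A + β * (t + k)}
  have hne : ∀ x ∈ G.M₀, ∀ t, (S x t).Nonempty := fun x hx t =>
    ⟨_, t - T₀, 0, K * T₀,
      GapL.pcongr (hC _ (hy.mem _) x hx (t - T₀)) rfl rfl rfl (by push_cast; ring), rfl⟩
  have hbd : ∀ x ∈ G.M₀, ∀ t, BddBelow (S x t) := by
    intro x hx t
    refine ⟨act Λ y 0 t - K * T₀ - β * T₀ + β * t, ?_⟩
    rintro _ ⟨s, k, A, hp, rfl⟩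
    have h1 := hS.st s t (k + T₀) _ (GapL.pcongr
      (hB.pth.concat hL hp (hC x hx _ (hy.mem t) (t + k))) rfl rfl rfl (by push_cast; ring))
    have h2 := hB.el.add hL hy 0 s t
    push_cast at h1
    linarith
  have hu : ∀ t, sInf (S (y t) t) = act Λ y 0 t + β * t := by
    intro t
    refine le_antisymm (csInf_le (hbd _ (hy.mem t) t) ⟨t, 0, _,
      GapL.pcongr (hB.el.arc hL hy t t le_rfl) rfl rfl rfl (by push_cast; ring), ?_⟩)
      (le_csInf (hne _ (hy.mem t) t) ?_)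
    · rw [hB.el.add hL hy 0 t t, Int.cast_zero, add_zero]
    · rintro _ ⟨s, k, A, hp, rfl⟩
      have h1 := hS.st s t k A hp
      have h2 := hB.el.add hL hy 0 s t
      linarith
  refine ⟨fun x t => sInf (S x t), fun x hx x' hx' t t' k A hp => ?_, fun a b => ?_⟩
  · have h : sInf (S x' t') - A - β * (t' + k - t) ≤ sInf (S x t) := by
      refine le_csInf (hne x hx t) ?_
      rintro _ ⟨s, k₀, A₀, hp₀, rfl⟩
      have h1 : sInf (S x' t') ≤ act Λ y 0 s + (A₀ + A) + β * (t' + ((k + k₀ : ℤ) : ℝ)) :=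
        csInf_le (hbd x' hx' t') ⟨s, k + k₀, A₀ + A, GapL.pcongr
          (hB.pth.concat hL hp₀ (hB.pth.shift k₀ hL hp)) rfl rfl rfl (by push_cast; ring), rfl⟩
      push_cast at h1
      linarith
    change sInf (S x' t') ≤ sInf (S x t) + A + β * (t' + k - t)
    linarith
  · change act Λ y a b + β * (b - a) - sInf (S (y b) b) + sInf (S (y a) a) = 0
    have h2 := hB.el.add hL hy 0 a b
    rw [hu, hu]
    linarith

end Pool.Agent.MP_7bf9b2_an.Zc

end
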