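import Pool.Agent.Mg.F7bf9b2a.Gfbc720

set_option linter.all false

section

set_option autoImplicit false
set_option maxSynthPendingDepth 3

namespace Pool.Agent.MP_7bf9b2_an.Zc

open scoped Topology Manifold ContDiff
open Set Filter MeasureTheory Metric

variable {E : Type} [NormedAddCommGroup E] [InnerProductSpace ℝ E] [FiniteDimensional ℝ E]

theorem s_cross : SCross E := by
  intro G Λ₀ Λ y z u β R κ K σ ρ hL0 hL hb0 hb hy hz sy sz hu hd hσ hρ hρr s t k hk hv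
  have hr := G.r0_pos
  have hK : 0 ≤ K := zero_le_one.trans hb.K1
  have h0 : ∀ p : PP E, p.1 ∈ G.U1 → ‖p.2.1‖ ≤ R + 1 → Λ₀ p ≤ Λ₀ p + 0 := fun p _ _ => by
    rw [add_zero]
  have h1 : ∀ p : PP E, p.1 ∈ G.U1 → ‖p.2.1‖ ≤ R + 1 → Λ₀ p ≤ Λ p + σ := fun p a b => by
    linarith [(abs_le.1 (hσ p a b)).1]
  have h2 : ∀ p : PP E, p.1 ∈ G.U1 → ‖p.2.1‖ ≤ R + 1 → Λ p ≤ Λ₀ p + σ := fun p a b => by
    linarith [(abs_le.1 (hσ p a b)).2]
  have key : ∀ h : E, ‖h‖ ≤ ρ → (mom Λ z t - mom Λ₀ y s) h ≤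
      dfc Λ₀ β u z (t - 1 / 2) (t + 1 / 2) + 2 * σ + 6 * K * ρ ^ 2 := by
    intro h hh
    have hw : ‖h - (z t - y s)‖ ≤ 2 * ρ := by linarith [norm_sub_le h (z t - y s)]
    have P1 := (vl bas hL0 hL0 hb0 hy sy h0 s h (by linarith)).1
    have P2 := bas.pth.shift (-k) hL0
      (vl bas hL hL0 hb hz sz h1 t (h - (z t - y s)) (by linarith)).2
    have P3 := (vl bas hL hL0 hb hz sz h1 t (-(z t - y s)) (by rw [norm_neg]; linarith)).1
    have P4 := bas.pth.shift k hL0 (bas.el.arc hL0 hy.cu s (s + 1 / 2) (by linarith))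
    rw [show z t + (h - (z t - y s)) = y s + h by abel,
      show t + ((-k : ℤ) : ℝ) = s by rw [hk]; push_cast; ring] at P2
    rw [show z t + -(z t - y s) = y s by abel] at P3
    rw [← hk] at P4
    have a1 := hu _ (hy.cu.mem _) _ (hz.cu.mem _) _ _ _ _ (bas.pth.concat hL0 P1 P2)
    have a2 := hu _ (hz.cu.mem _) _ (hy.cu.mem _) _ _ _ _ (bas.pth.concat hL0 P3 P4)
    rw [show t + 1 / 2 + ((-k : ℤ) : ℝ) - (s - 1 / 2) = 1 by rw [hk]; push_cast; ring] at a1
    rw [show s + 1 / 2 + (k : ℝ) - (t - 1 / 2) = 1 by rw [hk]; ring, norm_neg] at a2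
    have a3 := bas.el.add hL0 hy.cu (s - 1 / 2) s (s + 1 / 2)
    have a4 := bas.el.add hL hz.cu (t - 1 / 2) t (t + 1 / 2)
    have a5 := bas.pth.cmp hL0 hL (show t - 1 / 2 ≤ t + 1 / 2 by linarith)
      ((bas (E := E)).cur.c1 (t - 1 / 2) (t + 1 / 2) (hz.cu.c2.of_le (by norm_num)))
      (fun τ _ => G.M_sub_U1 (hz.cu.mem τ))
      (Eventually.of_forall fun τ _ => (sz τ).trans (le_add_of_nonneg_right zero_le_one)) h2
    have a6 := hd (s - 1 / 2) (s + 1 / 2)
    have b1 := mul_le_mul_of_nonneg_left (pow_le_pow_left₀ (norm_nonneg _) hh 2) hK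
    have b2 := mul_le_mul_of_nonneg_left (pow_le_pow_left₀ (norm_nonneg _) hw 2) hK
    have b3 := mul_le_mul_of_nonneg_left (pow_le_pow_left₀ (norm_nonneg _) hv 2) hK
    rw [map_sub (mom Λ z t) h] at a1
    rw [map_neg] at a2
    rw [dfc] at a6 ⊢
    rw [sub_apply]
    linarith
  generalize dfc Λ₀ β u z (t - 1 / 2) (t + 1 / 2) + 2 * σ + 6 * K * ρ ^ 2 = B at key ⊢
  generalize mom Λ z t - mom Λ₀ y s = A at key ⊢
  have B0 : 0 ≤ B := by simpa using key 0 (by simpa using hρ.le)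
  rw [← le_div_iff₀ hρ]
  refine ContinuousLinearMap.opNorm_le_bound _ (by positivity) fun v => ?_
  by_cases hv0 : v = 0
  · simp [hv0]
  have hn : 0 < ‖v‖ := norm_pos_iff.2 hv0
  have e : ‖(ρ / ‖v‖) • v‖ = ρ := by
    rw [norm_smul, Real.norm_of_nonneg (by positivity), div_mul_cancel₀ _ hn.ne']
  have c1 := key _ e.le
  have c2 := key (-((ρ / ‖v‖) • v)) (by rw [norm_neg]; exact e.le)
  rw [map_neg] at c2
  rw [map_smul, smul_eq_mul] at c1 c2
  have c3 : ρ / ‖v‖ * |A v| ≤ B := by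
    rw [← abs_of_pos (div_pos hρ hn), ← abs_mul]
    exact abs_le.2 ⟨by linarith, c1⟩
  rw [div_mul_eq_mul_div, div_le_iff₀ hn] at c3
  rw [Real.norm_eq_abs, div_mul_eq_mul_div, le_div_iff₀ hρ]
  linarith

end Pool.Agent.MP_7bf9b2_an.Zc

end

section

set_option autoImplicit false
set_option maxSynthPendingDepth 3

namespace Pool.Agent.MP_7bf9b2_an.Zc

open scoped Topology Manifold ContDiff
open Set Filter MeasureTheory Metric

variable {E : Type} [NormedAddCommGroup E] [InnerProductSpace ℝ E] [FiniteDimensional ℝ E]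

theorem arc_Loop {G : Geo E} {Λ₀ Λ : PP E → ℝ} {y : ℝ → E} {φ : E × ℝ → ℝ}
    {β R κ K σ P δ a : ℝ} {T s s' : ℕ} (hL0 : Lag G Λ₀) (hL : Lag G Λ) (hb : Bd G Λ₀ R κ K)
    (hy : Static G Λ₀ β y) (hs : Spd R y) (hφ : Continuous φ) (hP : ∀ q, φ q ≤ P)
    (hc : ∀ p : PP E, p.1 ∈ G.U1 → ‖p.2.1‖ ≤ R + 1 → Λ p ≤ addP G Λ₀ φ p + σ) (hT : 0 < T)
    (hδ : δ ≤ 2 * G.r0) (hw : ‖y s' - y (s + T)‖ ≤ δ)
    (ha : (∫ τ in (s : ℝ)..(s + T - 1 / 2), φ (y τ, τ)) ≤ a) :
    Path G Λ (y s) s (y s') (s + T)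
      (act Λ₀ y s s' + β * (s' - s) - β * T + (2 * K * δ ^ 2 + P / 2 + σ * T) + a) := by
  have hT1 : (1 : ℝ) ≤ T := by exact_mod_cast hT
  have cu := hy.el.cu
  have hle : (s : ℝ) ≤ s + T - 1 / 2 := by linarith
  have p1 := bas.el.arc hL cu s (s + T - 1 / 2) hle
  have c0 := bas.el.cL hL0 cu
  have c1 := bas.el.cL hL cu
  have c2 : Continuous fun τ : ℝ => φ (y τ, τ) :=
    hφ.comp (cu.c2.continuous.prodMk continuous_id)
  have b1 : act Λ y s (s + T - 1 / 2) ≤ act Λ₀ y s (s + T - 1 / 2) + a + σ * (T - 1 / 2) := by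
    have h1 : act Λ y s (s + T - 1 / 2) ≤
        ∫ τ in (s : ℝ)..(s + T - 1 / 2), (Λ₀ (ph y τ) + φ (y τ, τ) + σ) := by
      refine intervalIntegral.integral_mono_on hle (c1.intervalIntegrable _ _)
        (((c0.add c2).add continuous_const).intervalIntegrable _ _) fun τ _ => ?_
      have := hc (ph y τ) (G.M_sub_U1 (cu.mem τ)) ((hs τ).trans (by linarith))
      have e : addP G Λ₀ φ (ph y τ) = Λ₀ (ph y τ) + φ (y τ, τ) := by
        simp only [addP, ph, G.fix _ (cu.mem τ)]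
      rwa [e] at this
    have c3 : Continuous fun τ : ℝ => Λ₀ (ph y τ) + φ (y τ, τ) := c0.add c2
    rw [intervalIntegral.integral_add (c3.intervalIntegrable _ _)
      (continuous_const.intervalIntegrable _ _),
      intervalIntegral.integral_add (c0.intervalIntegrable _ _) (c2.intervalIntegrable _ _),
      intervalIntegral.integral_const, smul_eq_mul] at h1
    have e : act Λ₀ y s (s + T - 1 / 2) = ∫ τ in (s : ℝ)..(s + T - 1 / 2), Λ₀ (ph y τ) := rfl
    rw [e]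
    linarith
  have p2 := (vl bas hL0 hL hb hy.el hs (σ' := P + σ) (fun p h1 h2 => by
    have := hc p h1 h2
    have h3 := hP (G.r p.1, p.2.2)
    simp only [addP] at this
    linarith) (s + T) (y s' - y (s + T)) (hw.trans hδ)).1
  have b2 := cutAll hL0 hb hy hs s' (s + T) ((s' : ℤ) - s - T) (by push_cast; ring) (hw.trans hδ)
  have b3 : K * ‖y s' - y (s + T)‖ ^ 2 ≤ K * δ ^ 2 :=
    mul_le_mul_of_nonneg_left (pow_le_pow_left₀ (norm_nonneg _) hw 2) (by linarith [hb.K1])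
  have e1 := bas.el.add hL0 cu s (s + T - 1 / 2) (s + T)
  have e2 := bas.el.add hL0 cu s (s + T) s'
  refine (GapL.pcongr (bas.pth.concat hL p1 p2) rfl rfl (by abel) rfl).mono ?_
  push_cast at b2
  linarith

theorem s_loop : SLoop E := by
  intro G Λ₀ Λ y φ α β R κ K σ P δ T₀ T n s a hL0 hL hb hy hs hlow hc0 hc hφ hP _ hcm hT hδ hw ha
  have cu := hy.el.cu
  have key : ∀ m : ℕ, Path G Λ (y (s 0)) (s 0) (y (s m)) (s 0 + m * T)
      (act Λ₀ y (s 0) (s m) + β * (s m - s 0) - β * (m * T) +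
        m * (2 * K * δ ^ 2 + P / 2 + σ * T) + ∑ i ∈ Finset.range m, a i) := by
    intro m
    induction m with
    | zero =>
      refine GapL.pcongr (s := s 0) (t := s 0) (bas.pth.refl.2 ⟨rfl, G.M_sub_U1 (cu.mem _), ?_⟩)
        rfl rfl rfl (by simp)
      simp [act]
    | succ m ih =>
      have p1 := bas.pth.shift ((s 0 : ℤ) + m * T - s m) hL
        (arc_Loop hL0 hL hb hy hs hφ hP hcm hT hδ (hw m) (ha m))
      have p2 := GapL.pcongr (s' := s 0 + m * T) (t' := s 0 + ((m + 1 : ℕ) : ℝ) * T) p1 rfl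
        (by push_cast; ring) rfl (by push_cast; ring)
      refine (bas.pth.concat hL ih p2).mono (le_of_eq ?_)
      have e := bas.el.add hL0 cu (s 0) (s m) (s (m + 1))
      rw [Finset.sum_range_succ]
      push_cast
      linarith
  have p1 := bas.pth.concat hL (key n) (hc _ (cu.mem (s n)) _ (cu.mem (s 0)) (s 0 + n * T))
  have h1 := hlow (n * T + T₀) _ (s 0) _ (GapL.pcongr p1 rfl rfl rfl (by push_cast; ring))
  have h2 := hy.st (s 0) (s n) ((s 0 : ℤ) + T₀ - s n) _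
    (GapL.pcongr (hc0 _ (cu.mem (s 0)) _ (cu.mem (s n)) (s 0)) rfl rfl rfl (by push_cast; ring))
  push_cast at h1 h2
  linarith

end Pool.Agent.MP_7bf9b2_an.Zc

end

section

/-! Invariant measures: lower bound, and equality forces static orbits. -/

set_option autoImplicit false
set_option maxSynthPendingDepth 3

namespace Pool.Agent.MP_7bf9b2_an.Zc

open scoped Topology Manifold ContDiff
open Set Filter MeasureTheory Metric

variable {E : Type} [NormedAddCommGroup E] [InnerProductSpace ℝ E] [FiniteDimensional ℝ E]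

open Ms3L in
theorem s_msA : SMsA E := by
  intro G Λ Y X _ _ _ _ Φ ℓ tm pos vel α hL h hlow μ hμ
  obtain ⟨u, husc, ⟨C, hC⟩, hsub⟩ := usub bas (conn bas) (modS bas) (bdx bas) hL hlow
  obtain ⟨θ, θm, θb, θc⟩ := exists_th
  have hb : ∀ z, tm (Φ (-θ (tm z)) z) = 0 := fun z => by
    rw [h.time]
    nth_rewrite 1 [← θc (tm z)]
    exact cl_neg _
  have hz : ∀ z (r : ℝ), Φ r z = Φ (θ (tm z) + r) (Φ (-θ (tm z)) z) := fun z r => by
    rw [← Φ.map_add]
    congr 1
    ring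
  have hM : ∀ z, pos z ∈ G.M₀ := fun z => by
    have := (h.el _ (hb z)).cu.mem (θ (tm z) + 0)
    rwa [← hz, Φ.map_zero_apply] at this
  have hΦ : Continuous fun q : X × ℝ => Φ q.2 q.1 := Φ.continuous continuous_snd continuous_fst
  have hg : Continuous fun q : X × ℝ => ∫ t in (0 : ℝ)..q.2, ℓ (Φ t q.1) :=
    intervalIntegral.continuous_parametric_primitive_of_continuous (f := fun z t => ℓ (Φ t z))
      (h.cL.comp hΦ)
  have hm : Measurable fun z => (z, -θ (tm z)) :=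
    measurable_id.prodMk (θm.comp h.ctm.measurable).neg
  have hup : UpperSemicontinuous fun z => u (pos z) := fun z c hc =>
    (tendsto_nhdsWithin_iff.2 ⟨h.cpos.continuousAt, Eventually.of_forall hM⟩).eventually
      (husc (pos z) (hM z) c hc)
  set U : X → ℝ := fun z => u (pos (Φ (-θ (tm z)) z)) - ∫ t in (0 : ℝ)..(-θ (tm z)), ℓ (Φ t z)
    with hU
  have Um : Measurable U :=
    ((hup.measurable.comp hΦ.measurable).comp hm).sub (hg.measurable.comp hm)
  have Ub : ∀ K : Set X, IsCompact K → ∃ C, ∀ z ∈ K, |U z| ≤ C := fun K hK => by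
    obtain ⟨D, hD⟩ := (hK.prod (isCompact_Icc (a := (-1 : ℝ)) (b := 0))).exists_bound_of_continuousOn
      hg.continuousOn
    refine ⟨C + D, fun z hz => (abs_sub _ _).trans (add_le_add (hC _ (hM _)) ?_)⟩
    exact hD (z, -θ (tm z)) ⟨hz, by linarith [(θb (tm z)).2], by linarith [(θb (tm z)).1]⟩
  have Uk : ∀ z (k : ℤ), U (Φ k z) = u (pos (Φ k (Φ (-θ (tm z)) z))) -
      ∫ t in (θ (tm z) + k)..k, ℓ (Φ t (Φ (-θ (tm z)) z)) := fun z k => by
    have e : tm (Φ k z) = tm z := by rw [h.time, cl_int, add_zero]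
    simp only [hU, e]
    rw [← Φ.map_add, ← Φ.map_add, add_comm (k : ℝ), hz z k, shift]
    congr 2
    ring
  have W : ∀ z (k : ℤ), (∫ s in (0 : ℝ)..1, ℓ (Φ s (Φ k z))) + α - U (Φ 1 (Φ k z)) + U (Φ k z) =
      act Λ (fun t => pos (Φ t (Φ (-θ (tm z)) z))) k (k + 1) + α -
        u (pos (Φ (k + 1) (Φ (-θ (tm z)) z))) + u (pos (Φ k (Φ (-θ (tm z)) z))) := fun z k => by
    have e : Φ 1 (Φ k z) = Φ ((k + 1 : ℤ) : ℝ) z := by
      rw [← Φ.map_add, add_comm]
      norm_cast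
    have hi : ∀ a b, IntervalIntegrable (fun t => ℓ (Φ t (Φ (-θ (tm z)) z))) volume a b :=
      fun a b => (h.cL.comp (Φ.continuous continuous_id continuous_const)).intervalIntegrable a b
    rw [e, Uk, Uk, act_eq h (hb z), hz z k, shift]
    push_cast
    have a1 := intervalIntegral.integral_add_adjacent_intervals (hi (θ (tm z) + k) k)
      (hi k (k + 1))
    have a2 := intervalIntegral.integral_add_adjacent_intervals
      (hi (θ (tm z) + k) (θ (tm z) + (k + 1))) (hi (θ (tm z) + (k + 1)) (k + 1))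
    rw [show 1 + (θ (tm z) + k) = θ (tm z) + (k + 1) by ring]
    linarith
  have W0 : ∀ z, 0 ≤ (∫ s in (0 : ℝ)..1, ℓ (Φ s z)) + α - U (Φ 1 z) + U z := fun z => by
    have h1 := W z 0
    have h2 := hsub _ (hM _) _ (hM _) 0 1 _
      (bas.el.arc hL (h.el _ (hb z)).cu ((0 : ℤ) : ℝ) ((1 : ℤ) : ℝ) (by norm_num))
    simp only [Int.cast_zero, Int.cast_one, Φ.map_zero_apply, zero_add, sub_zero, mul_one] at h1 h2
    linarith
  have M1 := ms1 Φ ℓ U α h.cL Um Ub W0 μ hμ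
  refine ⟨M1.1, fun e => (M1.2 e).mono fun z k => ⟨_, θ (tm z), θb _, hb z, ?_,
    cal bas hL hsub (h.el _ (hb z)) fun i => by linarith [W z i, k i]⟩⟩
  have := hz z 0
  rwa [Φ.map_zero_apply, add_zero] at this

end Pool.Agent.MP_7bf9b2_an.Zc

end

section

set_option autoImplicit false
set_option maxSynthPendingDepth 3
set_option linter.unusedSectionVars false

namespace Pool.Agent.MP_7bf9b2_an.Zc

open scoped Topology Manifold ContDiff
open Set Filter MeasureTheory Metric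

variable {V : Type} [NormedAddCommGroup V] [NormedSpace ℝ V] [FiniteDimensional ℝ V]
  {M : Type} [TopologicalSpace M] [ChartedSpace V M] [IsManifold 𝓘(ℝ, V) ∞ M]

theorem s_top : STop V M := by
  intro k hk
  refine continuous_generateFrom_iff.2 ?_
  rintro _ ⟨f, x₀, K, ε, hK, hKS, hε, rfl⟩
  refine isOpen_iff_forall_mem_open.2 fun g hg => ?_
  have hS : IsOpen ((chartAt V x₀).target ×ˢ (univ : Set ℝ)) :=
    (chartAt V x₀).open_target.prod isOpen_univ
  obtain ⟨m, hm, hm'⟩ := T1L.margin hS hK hKS (ch1.pot (to2 hk g) x₀) (ch1.pot f x₀) hg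
  refine ⟨{g' | CjClose 2 K m (g'.loc x₀) (g.loc x₀)}, fun g' hg' p hp i hi => ?_,
    TopologicalSpace.isOpen_generateFrom_of_mem ⟨g, x₀, 2, K, m, hk, hK, hKS, hm, rfl⟩,
    fun p _ i _ => by simpa using hm⟩
  have h1 := hg' p hp i hi
  have h2 := hm' p hp i hi
  have h3 := norm_sub_le_norm_sub_add_norm_sub (iteratedFDeriv ℝ i (g'.loc x₀) p)
    (iteratedFDeriv ℝ i (g.loc x₀) p) (iteratedFDeriv ℝ i (f.loc x₀) p)
  change ‖iteratedFDeriv ℝ i (g'.loc x₀) p - iteratedFDeriv ℝ i (f.loc x₀) p‖ < ε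
  change ‖iteratedFDeriv ℝ i (g.loc x₀) p - iteratedFDeriv ℝ i (f.loc x₀) p‖ + m ≤ ε at h2
  linarith

end Pool.Agent.MP_7bf9b2_an.Zc

end
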