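import Pool.Agent.Mg.F7bf9b2a.Gfbc720

set_option linter.all false

section

/-! Transfer to the manifold and the Baire argument. -/

set_option autoImplicit false
set_option maxSynthPendingDepth 3
set_option linter.unusedSectionVars false

namespace Pool.Agent.MP_7bf9b2_an.Zc

open scoped Topology Manifold ContDiff
open Set Filter MeasureTheory Metric

variable {V : Type} [NormedAddCommGroup V] [NormedSpace ℝ V] [FiniteDimensional ℝ V]
  {M : Type} [TopologicalSpace M] [ChartedSpace V M] [IsManifold 𝓘(ℝ, V) ∞ M]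
  {E : Type} [NormedAddCommGroup E] [InnerProductSpace ℝ E] [FiniteDimensional ℝ E]

theorem key_Fin (a : Amb V M E) {L : TT V M → ℝ} (hL : IsTonelli L) {m : ℕ}
    {η : Fin m → TB V M → ℝ} (hη : ∀ i, IsClosedForm (η i)) (g : Pot V M) (d : Fin m → ℝ) :
    Lag a.G (a.amb (lagr L g η d)) ∧ ∀ Ψ : Flow ℝ (TT V M), IsEL (lagf L g) Ψ →
      ∃ Y : PP E → ℝ → E, Fl a.G (a.amb (lagr L g η d)) Y ∧
        Rep a.G (a.amb (lagr L g η d)) Y Ψ (lagr L g η d) (fun z => z.2) a.pos a.vel := by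
  obtain ⟨k1, k2⟩ := tonf ch1 g d hL hη
  exact ⟨alag (alag1 ch1 (ch2 ch1)) (alag2 ch1 (ch2 ch1)) supS a k1, fun Ψ hΨ =>
    afl ch1 (ch2 ch1) (ael ch1 (ch2 ch1) elcore) a k1.smooth (elf ch1 d k2 hη hΨ)⟩

theorem dens_Fin (ham : SAm E) (ht : STop V M) (h1 : ST1 V M E) (a : Amb V M E) {k : ℕ∞}
    (hk : 2 ≤ k) {L : TT V M → ℝ} (hL : IsTonelli L) {m : ℕ} {η : Fin m → TB V M → ℝ}
    (hη : ∀ i, IsClosedForm (η i)) {r : ℝ} (hr : 0 < r) (f : PotK V M k) (c : Fin m → ℝ)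
    (hf : ∃ Φ : Flow ℝ (TT V M), IsEL (lagf L (to2 hk f)) Φ) :
    ∀ N ∈ 𝓝 f, ∃ f₁ ∈ N, ∃ N₁ ∈ 𝓝 f₁, ∃ δ > 0, ∀ f' ∈ N₁, ∀ c' : Fin m → ℝ, dist c' c < δ →
      Cod a.G (a.amb (lagr L (to2 hk f') η c')) r r := by
  intro N hN
  obtain ⟨Φ, hΦ⟩ := hf
  obtain ⟨j, ε, hε, hφ⟩ := h1 k a f N hN
  obtain ⟨l0, hY⟩ := key_Fin a hL hη (to2 hk f) c
  obtain ⟨Y₀, f0, -⟩ := hY Φ hΦ
  obtain ⟨φ, hφb, σ, hσ, hcod⟩ := ham l0 f0 (max j 2) ε r r (le_max_right _ _) hε hr hr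
  obtain ⟨f₁, hf₁, hf₁e⟩ := hφ φ
    ⟨hφb.sm, hφb.per, fun i hi => hφb.bd i (hi.trans (le_max_left _ _))⟩
  obtain ⟨N₁, hN₁, δ, hδ, hcl⟩ :=
    t4 (tonf ch1) (alag1 ch1 (ch2 ch1)) (t2S ch1 (ch2 ch1)) (t3 (ch2 ch1)) a c (to2 hk f)
      (to2 hk f₁) φ hL hη hf₁e σ hσ
  refine ⟨f₁, hf₁, to2 hk ⁻¹' N₁, (ht k hk).continuousAt.preimage_mem_nhds hN₁, δ, hδ,
    fun f' hf' c' hc' => ?_⟩
  exact hcod _ (key_Fin a hL hη (to2 hk f') c').1 (hcl _ hf' c' hc')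

theorem fin_Fin [MeasurableSpace (TT V M)] [BorelSpace (TT V M)] (ham : SAm E) (ht : STop V M)
    (h1 : ST1 V M E) (hK : SCpt V M E) (hA : SMsA E) (hB : SMsB E) (hC : SMsC E) (a : Amb V M E)
    (k : ℕ∞) (hk : 2 ≤ k) (L : TT V M → ℝ) (hL : IsTonelli L) (m : ℕ)
    (η : Fin m → TB V M → ℝ) (hη : ∀ i, IsClosedForm (η i)) :
    ∃ O ∈ residual (PotK V M k), ∀ f ∈ O, ∀ Φ : Flow ℝ (TT V M),
      IsEL (fun z => L z + f.toFun (z.1.proj, z.2)) Φ →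
      ∃ U ∈ residual (Fin m → ℝ), ∀ c ∈ U,
        ZeroEnt Φ fun z => L z + f.toFun (z.1.proj, z.2) - ∑ i, c i * η i z.1 := by
  have H : ∀ i : ℕ, ∃ O ∈ residual (PotK V M k), ∀ f ∈ O,
      (∃ Φ : Flow ℝ (TT V M), IsEL (lagf L (to2 hk f)) Φ) →
      ∃ U : Set (Fin m → ℝ), IsOpen U ∧ Dense U ∧ ∀ c ∈ U,
        Cod a.G (a.amb (lagr L (to2 hk f) η c)) (1 / (i + 1)) (1 / (i + 1)) := fun i =>
    fin_baire (fun (f : PotK V M k) (c : Fin m → ℝ) =>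
        Cod a.G (a.amb (lagr L (to2 hk f) η c)) (1 / (i + 1)) (1 / (i + 1)))
      (fun f => ∃ Φ : Flow ℝ (TT V M), IsEL (lagf L (to2 hk f)) Φ)
      (fun f c hf => dens_Fin ham ht h1 a hk hL hη (by positivity) f c hf)
  choose O hO h using H
  refine ⟨⋂ i, O i, countable_iInter_mem.2 hO, fun f hf Φ hΦ => ?_⟩
  choose U u1 u2 u3 using fun i => h i f (mem_iInter.1 hf i) ⟨Φ, hΦ⟩
  refine ⟨⋂ i, U i, countable_iInter_mem.2 fun i => residual_of_dense_open (u1 i) (u2 i),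
    fun c hc => ?_⟩
  obtain ⟨l1, hY⟩ := key_Fin a hL hη (to2 hk f) c
  obtain ⟨Y, fl, rep⟩ := hY Φ hΦ
  have := (ch2 (V := V) (M := M) (E := E) ch1).t2 a
  exact zero_Crit hA hB hC l1 fl rep ((ch2 ch1).cvel a) (hK a) fun i => u3 i c (mem_iInter.1 hc i)

end Pool.Agent.MP_7bf9b2_an.Zc

end

section

set_option autoImplicit false
set_option maxSynthPendingDepth 3

namespace Pool.Agent.MP_7bf9b2_an.Zc

open scoped Topology Manifold ContDiff
open Set Filter MeasureTheory Metric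

variable {E : Type} [NormedAddCommGroup E] [InnerProductSpace ℝ E] [FiniteDimensional ℝ E]

theorem s_en : SEn E := by
  intro G Λ₀ Λ z φ u α β R K σ T₀ h0 hL hs hR hu c0 c1 hφ hσ
  have hc := hs.el.cu
  refine ⟨fun a b hab => ?_, fun a b c => ?_, fun n => ?_⟩
  · have := hu _ (hc.mem a) _ (hc.mem b) a b 0 _ (by simpa using bas.el.arc h0 hc a b hab)
    simp only [Int.cast_zero, add_zero] at this
    unfold dfc
    linarith
  · have := bas.el.add h0 hc a b c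
    unfold dfc
    linarith
  · have k1 := hs.st 0 n (T₀ - n) _ (by simpa using c1 _ (hc.mem 0) _ (hc.mem n) 0)
    have k2 := hu _ (hc.mem n) _ (hc.mem 0) n 0 (n + T₀) _
      (by simpa using c0 _ (hc.mem n) _ (hc.mem 0) n)
    have i0 := (bas.el.cL h0 hc).intervalIntegrable (μ := volume) 0 n
    have i1 := (bas.el.cL hL hc).intervalIntegrable (μ := volume) 0 n
    have i2 : IntervalIntegrable (fun t => φ (z t, t)) volume 0 n :=
      (hφ.comp (hc.c2.continuous.prodMk continuous_id)).intervalIntegrable _ _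
    have k3 := intervalIntegral.integral_mono_on (Nat.cast_nonneg n) (i0.add i2)
      (i1.add (intervalIntegrable_const (c := σ))) fun t _ => by
        simpa [addP, ph, G.fix _ (hc.mem t)] using
          hσ (ph z t) (G.M_sub_U1 (hc.mem t)) ((hR t).trans (by linarith))
    rw [intervalIntegral.integral_add i0 i2,
      intervalIntegral.integral_add i1 intervalIntegrable_const] at k3
    simp only [intervalIntegral.integral_const, sub_zero, smul_eq_mul] at k3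
    push_cast at k1 k2
    unfold dfc
    unfold act at *
    linarith

end Pool.Agent.MP_7bf9b2_an.Zc

end

section

/-! Small ambient potentials give small potentials on the manifold, for every order. -/

set_option autoImplicit false
set_option maxSynthPendingDepth 3
set_option linter.unusedSectionVars false

namespace Pool.Agent.MP_7bf9b2_an.Zc

open scoped Topology Manifold ContDiff
open Set Filter MeasureTheory Metric

variable {V : Type} [NormedAddCommGroup V] [NormedSpace ℝ V] [FiniteDimensional ℝ V]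
  {M : Type} [TopologicalSpace M] [ChartedSpace V M] [IsManifold 𝓘(ℝ, V) ∞ M]
  {E : Type} [NormedAddCommGroup E] [InnerProductSpace ℝ E] [FiniteDimensional ℝ E]

theorem le_T1 (k : ℕ∞) : (k : WithTop ℕ∞) ≤ ∞ := WithTop.coe_le_coe.2 le_top

theorem ex_T1 {k : ℕ∞} (a : Amb V M E) (f : PotK V M k) {j : ℕ} {ε : ℝ} {φ : E × ℝ → ℝ}
    (hφ : CjBd j ε φ) : ∃ f₁ : PotK V M k, ∀ (x : M) (t : ℝ),
      f₁.toFun (x, cl t) = f.toFun (x, cl t) + φ (a.e x, t) := by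
  have hp : ∀ x : M, Function.Periodic (fun t : ℝ => φ (a.e x, t)) 1 := fun x t => hφ.per _ t
  refine ⟨⟨fun p => f.toFun p + (hp p.1).lift p.2, ?_⟩, fun x t => rfl⟩
  have h2 : ContMDiff (𝓘(ℝ, V).prod 𝓘(ℝ, ℝ)) 𝓘(ℝ, E × ℝ) k fun p : M × ℝ => (a.e p.1, p.2) :=
    ((a.he.of_le (le_T1 k)).comp contMDiff_fst).prodMk_space contMDiff_snd
  exact f.smooth.add ((hφ.sm.of_le (le_T1 k)).comp_contMDiff h2)

/-- Small ambient perturbations of `f` lie in `N`. -/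
def Q_T1 {k : ℕ∞} (a : Amb V M E) (f : PotK V M k) (N : Set (PotK V M k)) : Prop :=
  ∃ (j : ℕ) (ε' : ℝ), 0 < ε' ∧ ∀ φ : E × ℝ → ℝ, CjBd j ε' φ → ∀ f₁ : PotK V M k,
    (∀ (x : M) (t : ℝ), f₁.toFun (x, cl t) = f.toFun (x, cl t) + φ (a.e x, t)) → f₁ ∈ N

theorem mono_T1 {j j' : ℕ} {ε ε' : ℝ} {φ : E × ℝ → ℝ} (h : CjBd j ε φ) (hj : j' ≤ j)
    (he : ε ≤ ε') : CjBd j' ε' φ :=
  ⟨h.sm, h.per, fun i hi q => (h.bd i (hi.trans hj) q).trans he⟩

theorem cont_T1 {W F : Type} [NormedAddCommGroup W] [NormedSpace ℝ W] [NormedAddCommGroup F]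
    [NormedSpace ℝ F] {S : Set W} (hS : IsOpen S) {g : W → F} {j : ℕ} (hg : ContDiffOn ℝ j g S)
    {i : ℕ} (hi : i ≤ j) : ContinuousOn (iteratedFDeriv ℝ i g) S := by
  have h1 := hg.continuousOn_iteratedFDerivWithin (m := i) (by exact_mod_cast hi) hS.uniqueDiffOn
  exact h1.congr fun p hp => (iteratedFDerivWithin_of_isOpen i hS hp).symm

theorem fin_T1 {P : ℕ → ℝ → Prop} (hP : ∀ i m m', 0 < m' → m' ≤ m → P i m → P i m') (j : ℕ)
    (h : ∀ i ≤ j, ∃ m > 0, P i m) : ∃ m > 0, ∀ i ≤ j, P i m := by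
  induction j with
  | zero =>
    obtain ⟨m, h0, h1⟩ := h 0 le_rfl
    exact ⟨m, h0, fun i hi => Nat.le_zero.1 hi ▸ h1⟩
  | succ j ih =>
    obtain ⟨m, h0, h1⟩ := ih fun i hi => h i (by omega)
    obtain ⟨m', h0', h1'⟩ := h (j + 1) le_rfl
    refine ⟨min m m', lt_min h0 h0', fun i hi => ?_⟩
    rcases Nat.le_succ_iff.1 hi with hi | rfl
    · exact hP i m _ (lt_min h0 h0') (min_le_left _ _) (h1 i hi)
    · exact hP _ m' _ (lt_min h0 h0') (min_le_right _ _) h1'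

theorem margin_T1 {W : Type} [NormedAddCommGroup W] [NormedSpace ℝ W] {S K : Set W}
    (hS : IsOpen S) (hK : IsCompact K) (hKS : K ⊆ S) {F G : W → ℝ} {j : ℕ}
    (hF : ContDiffOn ℝ j F S) (hG : ContDiffOn ℝ j G S) {ε : ℝ} (h : CjClose j K ε F G) :
    ∃ m > 0, ∀ i ≤ j, ∀ p ∈ K, m ≤ ε - ‖iteratedFDeriv ℝ i F p - iteratedFDeriv ℝ i G p‖ :=
  fin_T1 (P := fun i m => ∀ p ∈ K, m ≤ ε - ‖iteratedFDeriv ℝ i F p - iteratedFDeriv ℝ i G p‖)
    (fun _ _ _ _ h1 h2 p hp => h1.trans (h2 p hp)) j fun i hi =>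
    hK.exists_forall_le'
      (f := fun p => ε - ‖iteratedFDeriv ℝ i F p - iteratedFDeriv ℝ i G p‖)
      (continuousOn_const.sub (((cont_T1 hS hF hi).sub (cont_T1 hS hG hi)).mono hKS).norm)
      fun p hp => sub_pos.2 (h p hp i hi)

theorem comp_T1 {W F : Type} [NormedAddCommGroup W] [NormedSpace ℝ W] [NormedAddCommGroup F]
    [NormedSpace ℝ F] {S K : Set W} (hS : IsOpen S) (hK : IsCompact K) (hKS : K ⊆ S) {g : W → F}
    {j : ℕ} (hg : ContDiffOn ℝ j g S) : ∃ C > 0, ∀ (φ : F → ℝ) (ε : ℝ), ContDiff ℝ j φ →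
      (∀ i : ℕ, i ≤ j → ∀ q, ‖iteratedFDeriv ℝ i φ q‖ ≤ ε) → ∀ p ∈ K, ∀ i : ℕ, i ≤ j →
      ‖iteratedFDeriv ℝ i (φ ∘ g) p‖ ≤ C * ε := by
  have h0 : ∀ i, ∃ D : ℝ, i ≤ j → ∀ p ∈ K, ‖iteratedFDeriv ℝ i g p‖ ≤ D := fun i => by
    by_cases hi : i ≤ j
    · obtain ⟨D, h⟩ := hK.exists_bound_of_continuousOn ((cont_T1 hS hg hi).mono hKS)
      exact ⟨D, fun _ => h⟩
    · exact ⟨0, fun h => absurd h hi⟩
  choose B hB using h0
  obtain ⟨D, hD⟩ : ∃ D : ℝ, D = 1 + ∑ i ∈ Finset.range (j + 1), |B i| := ⟨_, rfl⟩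
  have s0 : 0 ≤ ∑ i ∈ Finset.range (j + 1), |B i| := Finset.sum_nonneg fun _ _ => abs_nonneg _
  have d0 : 1 ≤ D := by linarith
  have d1 : ∀ i ≤ j, B i ≤ D := fun i hi => by
    have := Finset.single_le_sum (f := fun i => |B i|) (fun _ _ => abs_nonneg _)
      (Finset.mem_range.2 (Nat.lt_succ_of_le hi))
    linarith [le_abs_self (B i)]
  refine ⟨j.factorial * D ^ j, by positivity, fun φ ε hφ hb p hp k hk => ?_⟩
  have he : 0 ≤ ε := (norm_nonneg _).trans (hb 0 (Nat.zero_le _) 0)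
  have h3 := norm_iteratedFDerivWithin_comp_le (𝕜 := ℝ) (g := φ) (f := g) (n := k) (s := S)
    (t := univ) (x := p) (N := j) hφ.contDiffOn hg (by exact_mod_cast hk) uniqueDiffOn_univ
    hS.uniqueDiffOn (mapsTo_univ _ _) (hKS hp) (C := ε) (D := D)
    (fun i hi => by
      rw [iteratedFDerivWithin_univ]
      exact hb i (hi.trans hk) _)
    (fun i hi hi' => by
      rw [iteratedFDerivWithin_of_isOpen i hS (hKS hp)]
      exact ((hB i (hi'.trans hk) p hp).trans (d1 i (hi'.trans hk))).trans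
        (le_self_pow₀ d0 (by omega)))
  rw [iteratedFDerivWithin_of_isOpen k hS (hKS hp)] at h3
  refine h3.trans ?_
  have h4 : ((k.factorial : ℕ) : ℝ) ≤ j.factorial := by exact_mod_cast Nat.factorial_le hk
  have h5 : D ^ k ≤ D ^ j := pow_le_pow_right₀ d0 hk
  calc ((k.factorial : ℕ) : ℝ) * ε * D ^ k ≤ j.factorial * ε * D ^ j := by gcongr
    _ = j.factorial * D ^ j * ε := by ring

theorem pot_T1 {k : ℕ∞} (f : PotK V M k) (x₀ : M) {j : ℕ} (hj : (j : ℕ∞) ≤ k) :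
    ContDiffOn ℝ j (f.loc x₀) ((chartAt V x₀).target ×ˢ univ) := by
  have h1 : ContMDiffOn 𝓘(ℝ, V) 𝓘(ℝ, V) k (chartAt V x₀).symm (chartAt V x₀).target :=
    (contMDiffOn_chart_symm (n := ∞)).of_le (le_T1 k)
  have h2 : ContMDiffOn 𝓘(ℝ, V × ℝ) 𝓘(ℝ, V) k (fun p : V × ℝ => (chartAt V x₀).symm p.1)
      ((chartAt V x₀).target ×ˢ univ) :=
    h1.comp contDiff_fst.contMDiff.contMDiffOn fun p hp => hp.1
  have h3 : ContDiffOn ℝ k (f.loc x₀) ((chartAt V x₀).target ×ˢ univ) :=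
    contMDiffOn_iff_contDiffOn.1 (f.smooth.comp_contMDiffOn
      (h2.prodMk contDiff_snd.contMDiff.contMDiffOn))
  exact h3.of_le (WithTop.coe_le_coe.2 hj)

theorem basic_T1 {k : ℕ∞} (a : Amb V M E) (f g₀ : PotK V M k) (x₀ : M) {j : ℕ} {K : Set (V × ℝ)}
    {ε : ℝ} (hj : (j : ℕ∞) ≤ k) (hK : IsCompact K) (hKS : K ⊆ (chartAt V x₀).target ×ˢ univ)
    (h : CjClose j K ε (f.loc x₀) (g₀.loc x₀)) :
    Q_T1 a f {g | CjClose j K ε (g.loc x₀) (g₀.loc x₀)} := by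
  have hS : IsOpen ((chartAt V x₀).target ×ˢ (univ : Set ℝ)) :=
    (chartAt V x₀).open_target.prod isOpen_univ
  obtain ⟨m, hm, hm'⟩ := margin_T1 hS hK hKS (pot_T1 f x₀ hj) (pot_T1 g₀ x₀ hj) h
  have e1 : ContDiffOn ℝ j (fun q : V => a.e ((chartAt V x₀).symm q)) (chartAt V x₀).target := by
    have := a.he.comp_contMDiffOn (contMDiffOn_chart_symm (I := 𝓘(ℝ, V)) (n := ∞) (x := x₀))
    exact (contMDiffOn_iff_contDiffOn.1 this).of_le (le_T1 j)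
  have e2 : ContDiffOn ℝ j (fun p : V × ℝ => (a.e ((chartAt V x₀).symm p.1), p.2))
      ((chartAt V x₀).target ×ˢ (univ : Set ℝ)) :=
    (e1.comp contDiffOn_fst fun p hp => hp.1).prodMk contDiffOn_snd
  obtain ⟨C, hC, hC'⟩ := comp_T1 hS hK hKS e2
  refine ⟨j, m / (2 * C), by positivity, fun φ hφ f₁ hf₁ p hp i hi => ?_⟩
  have e3 : f₁.loc x₀ = f.loc x₀ + φ ∘ fun p : V × ℝ => (a.e ((chartAt V x₀).symm p.1), p.2) := by
    funext q
    exact hf₁ _ _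
  have hn := hS.mem_nhds (hKS hp)
  have hk' : (i : WithTop ℕ∞) ≤ j := by exact_mod_cast hi
  have hs : ContDiff ℝ j φ := hφ.sm.of_le (le_T1 j)
  rw [e3, iteratedFDeriv_add_apply (((pot_T1 f x₀ hj).contDiffAt hn).of_le hk')
    (((hs.comp_contDiffOn e2).contDiffAt hn).of_le hk'), add_sub_right_comm]
  refine (norm_add_le _ _).trans_lt ?_
  have e4 := hC' φ _ hs hφ.bd p hp i hi
  have e5 : C * (m / (2 * C)) = m / 2 := by field_simp
  have e6 := hm' i hi p hp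
  linarith

theorem s_t1 : ST1 V M E := by
  intro k a f N hN
  obtain ⟨t, htN, ht, hf⟩ := mem_nhds_iff.1 hN
  have key : Q_T1 a f t := by
    clear htN
    induction ht with
    | basic s hs =>
      obtain ⟨g₀, x₀, j, K, ε, hj, hK, hKS, -, rfl⟩ := hs
      exact basic_T1 a f g₀ x₀ hj hK hKS hf
    | univ => exact ⟨0, 1, one_pos, fun _ _ _ _ => mem_univ _⟩
    | inter s t _ _ ihs iht =>
      obtain ⟨j1, e1, p1, q1⟩ := ihs hf.1
      obtain ⟨j2, e2, p2, q2⟩ := iht hf.2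
      exact ⟨max j1 j2, min e1 e2, lt_min p1 p2, fun φ hφ f₁ h =>
        ⟨q1 φ (mono_T1 hφ (le_max_left _ _) (min_le_left _ _)) f₁ h,
          q2 φ (mono_T1 hφ (le_max_right _ _) (min_le_right _ _)) f₁ h⟩⟩
    | sUnion S _ ih =>
      obtain ⟨s, hs, hfs⟩ := hf
      obtain ⟨j, e1, p1, q1⟩ := ih s hs hfs
      exact ⟨j, e1, p1, fun φ hφ f₁ h => ⟨s, hs, q1 φ hφ f₁ h⟩⟩
  obtain ⟨j, ε', h0, hq⟩ := key
  refine ⟨j, ε', h0, fun φ hφ => ?_⟩
  obtain ⟨f₁, hf₁⟩ := ex_T1 a f hφ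
  exact ⟨f₁, htN (hq φ hφ f₁ hf₁), hf₁⟩

end Pool.Agent.MP_7bf9b2_an.Zc

end
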