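import Pool.Agent.Mg.F7bf9b2a.G0a54d9

set_option linter.all false

section

set_option autoImplicit false

namespace Pool.Agent.MP_7bf9b2_an.Zc

open Finset

theorem tel_Bad (d : ℝ → ℝ → ℝ) (h2 : ∀ a b c, d a b + d b c = d a c) (n : ℕ) :
    ∑ j ∈ range n, d j (j + 3) =
      d 0 n + d 0 (n + 1) + d 0 (n + 2) - (d 0 0 + d 0 1 + d 0 2) := by
  induction n with
  | zero => simp
  | succ n ih =>
    rw [sum_range_succ, ih]
    have e1 : ((n + 1 : ℕ) : ℝ) = n + 1 := by push_cast; ring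
    have e2 : ((n : ℝ) + 1) + 1 = n + 2 := by ring
    have e3 : ((n : ℝ) + 1) + 2 = n + 3 := by ring
    rw [e1, e2, e3]
    linarith [h2 0 n (n + 3)]

theorem int_Bad (f : ℝ → ℝ) (hf : Continuous f) (n : ℕ) :
    ∑ j ∈ range n, ∫ t in ((j : ℝ) + 1)..(j + 2), f t = ∫ t in (1 : ℝ)..(n + 1), f t := by
  induction n with
  | zero => simp
  | succ n ih =>
    rw [sum_range_succ, ih]
    have e1 : ((n + 1 : ℕ) : ℝ) + 1 = n + 2 := by push_cast; ring
    rw [e1]
    exact intervalIntegral.integral_add_adjacent_intervals (hf.intervalIntegrable _ _)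
      (hf.intervalIntegrable _ _)

theorem s_bad : SBad := by
  classical
  intro d f P Q n h1 h2 hf hf0 hP hPQ
  have hn : (0 : ℝ) ≤ n := Nat.cast_nonneg n
  have hI : ∀ a b : ℝ, a ≤ b → 0 ≤ ∫ t in a..b, f t := fun a b hab =>
    intervalIntegral.integral_nonneg hab fun t _ => hf0 t
  have hA : ∑ j ∈ range n, d j (j + 3) ≤ 3 * d 0 (n + 3) := by
    rw [tel_Bad d h2]
    linarith [h2 0 n (n + 3), h2 0 (n + 1) (n + 3), h2 0 (n + 2) (n + 3),
      h1 n (n + 3) (by linarith), h1 (n + 1) (n + 3) (by linarith),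
      h1 (n + 2) (n + 3) (by linarith), h1 0 0 le_rfl, h1 0 1 zero_le_one, h1 0 2 (by norm_num)]
  have hB : ∑ j ∈ range n, ∫ t in ((j : ℝ) + 1)..(j + 2), f t ≤ ∫ t in (0 : ℝ)..(n + 3), f t := by
    rw [int_Bad f hf]
    have e1 := intervalIntegral.integral_add_adjacent_intervals (μ := MeasureTheory.volume)
      (hf.intervalIntegrable 0 1) (hf.intervalIntegrable 1 (n + 1))
    have e2 := intervalIntegral.integral_add_adjacent_intervals (μ := MeasureTheory.volume)
      (hf.intervalIntegrable 0 (n + 1)) (hf.intervalIntegrable (n + 1) (n + 3))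
    linarith [hI 0 1 zero_le_one, hI (n + 1) (n + 3) (by linarith)]
  have hC : ∀ S : Finset ℕ, S ⊆ range n → (∀ j ∈ S, Q < d j (j + 3) ∨
      ∀ t ∈ Set.Icc ((j : ℝ) + 1) (j + 2), P ≤ f t) → (S.card : ℝ) * P ≤
      ∑ j ∈ range n, (d j (j + 3) + ∫ t in ((j : ℝ) + 1)..(j + 2), f t) := by
    intro S hS hb
    have e1 : (S.card : ℝ) * P = ∑ _j ∈ S, P := by rw [sum_const, nsmul_eq_mul]
    rw [e1]
    refine (sum_le_sum fun j hj => ?_).trans (sum_le_sum_of_subset_of_nonneg hS fun j _ _ =>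
      add_nonneg (h1 _ _ (by linarith)) (hI _ _ (by linarith)))
    rcases hb j hj with h | h
    · linarith [hI ((j : ℝ) + 1) (j + 2) (by linarith)]
    · have e2 := intervalIntegral.integral_mono_on (μ := MeasureTheory.volume)
        (show (j : ℝ) + 1 ≤ j + 2 by linarith) (continuous_const.intervalIntegrable _ _)
        (hf.intervalIntegrable _ _) h
      rw [intervalIntegral.integral_const, smul_eq_mul] at e2
      have e3 : (j : ℝ) + 2 - (j + 1) = 1 := by ring
      rw [e3, one_mul] at e2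
      linarith [h1 j (j + 3) (by linarith)]
  refine (hC _ (filter_subset _ _) fun j hj => (mem_filter.1 hj).2).trans ?_
  rw [sum_add_distrib]
  linarith [hI 0 (n + 3) (by linarith)]

end Pool.Agent.MP_7bf9b2_an.Zc

end

section

set_option autoImplicit false

namespace Pool.Agent.MP_7bf9b2_an.Zc

open scoped ContDiff

theorem s_bump (h : SConv) : SBump := by
  intro F _ _ _ j
  obtain ⟨C, hC, h⟩ := h F j
  refine ⟨C, hC, fun S ρ hρ => ?_⟩
  obtain ⟨Ψ, h1, h2, h3, h4, h5, h6⟩ := h {x | ρ • x ∈ S}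
  obtain ⟨L, hL, hLn⟩ : ∃ L : F →L[ℝ] F, (∀ x, L x = ρ⁻¹ • x) ∧ ‖L‖ ≤ ρ⁻¹ := by
    refine ⟨ρ⁻¹ • ContinuousLinearMap.id ℝ F, fun x => rfl, ?_⟩
    rw [norm_smul, Real.norm_eq_abs, abs_of_pos (inv_pos.2 hρ)]
    exact mul_le_of_le_one_right (inv_pos.2 hρ).le ContinuousLinearMap.norm_id_le
  refine ⟨Ψ ∘ L, h1.comp L.contDiff, fun x => h2 _, fun x hx => h3 _ ?_, fun x hx => h4 _ ?_,
    fun i hi x => ?_, fun a ha x => ?_⟩
  · show ρ • L x ∈ S
    rwa [hL, smul_inv_smul₀ hρ.ne']
  · intro y hy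
    have := hx _ hy
    have e : x - ρ • y = ρ • (L x - y) := by rw [hL, smul_sub, smul_inv_smul₀ hρ.ne']
    rw [e, norm_smul, Real.norm_eq_abs, abs_of_pos hρ] at this
    exact (le_mul_iff_one_le_right hρ).1 this
  · rw [L.iteratedFDeriv_comp_right h1 x (by exact_mod_cast le_top)]
    refine (ContinuousMultilinearMap.norm_compContinuousLinearMap_le _ _).trans ?_
    rw [Finset.prod_const, Finset.card_univ, Fintype.card_fin, div_eq_mul_inv, ← inv_pow]
    exact mul_le_mul (h5 i hi _) (pow_le_pow_left₀ (norm_nonneg _) hLn i) (by positivity) hC.le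
  · show Ψ (L (x + a)) = Ψ (L x)
    rw [map_add]
    refine h6 _ (fun y => ?_) _
    show ρ • (y + L a) ∈ S ↔ ρ • y ∈ S
    rw [hL, smul_add, smul_inv_smul₀ hρ.ne', ha]

end Pool.Agent.MP_7bf9b2_an.Zc

end

section

set_option autoImplicit false

namespace Pool.Agent.MP_7bf9b2_an.Zc

theorem fl_Cell {s t : ℝ} (hs : 0 ≤ s) (ht : 0 ≤ t) (h : ⌊s⌋₊ = ⌊t⌋₊) : |s - t| ≤ 1 := by
  have a1 := Nat.floor_le hs
  have a2 := Nat.floor_le ht
  have a3 := Nat.lt_floor_add_one s
  have a4 := Nat.lt_floor_add_one t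
  rw [h] at a1 a3
  exact abs_le.2 ⟨by linarith, by linarith⟩

theorem s_cell : SCell := by
  intro F _ _ _ R
  let e : F ≃L[ℝ] (Fin (Module.finrank ℝ F) → ℝ) := ContinuousLinearEquiv.ofFinrankEq (by simp)
  set a : ℝ := ‖(e : F →L[ℝ] (Fin (Module.finrank ℝ F) → ℝ))‖ * |R| with ha
  set b : ℝ := ‖(e.symm : (Fin (Module.finrank ℝ F) → ℝ) →L[ℝ] F)‖ + 1 with hb
  have a0 : 0 ≤ a := by positivity
  have b0 : 0 < b := by positivity
  refine ⟨2 * a * b + 1, Module.finrank ℝ F, by positivity, fun δ d0 d1 => ?_⟩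
  set M : ℕ := ⌊2 * a * b / δ⌋₊ with hM
  have e1 : (M + 1) ^ Module.finrank ℝ F = (M + 1) ^ Module.finrank ℝ F - 1 + 1 :=
    (Nat.sub_add_cancel (Nat.one_le_pow _ _ (by omega))).symm
  refine ⟨(M + 1) ^ Module.finrank ℝ F - 1, fun x => Fin.cast e1 (finFunctionFinEquiv fun i =>
    ⟨min M ⌊(e x i + a) * b / δ⌋₊, by omega⟩), ?_, fun x y hx hy h => ?_⟩
  · rw [← e1, Nat.cast_pow]
    refine pow_le_pow_left₀ (by positivity) ?_ _
    have := Nat.floor_le (show 0 ≤ 2 * a * b / δ by positivity)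
    have := (one_le_div d0).2 d1
    rw [add_div]
    push_cast
    linarith
  · have k : ∀ z : F, ‖z‖ ≤ R → ∀ i, 0 ≤ (e z i + a) * b / δ ∧ ⌊(e z i + a) * b / δ⌋₊ ≤ M := by
      intro z hz i
      have := abs_le.1 ((norm_le_pi_norm (e z) i).trans
        ((e : F →L[ℝ] (Fin (Module.finrank ℝ F) → ℝ)).le_of_opNorm_le_of_le le_rfl
          (hz.trans (le_abs_self R))))
      have h0 : 0 ≤ e z i + a := by linarith
      refine ⟨by positivity, Nat.floor_le_floor ?_⟩
      gcongr
      linarith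
    have h1 := finFunctionFinEquiv.injective (Fin.cast_injective _ h)
    have h2 : ‖e (x - y)‖ ≤ δ / b := by
      refine (pi_norm_le_iff_of_nonneg (by positivity)).2 fun i => ?_
      have h3 := congrArg Fin.val (congrFun h1 i)
      simp only [min_eq_right (k x hx i).2, min_eq_right (k y hy i).2] at h3
      have h4 := fl_Cell (k x hx i).1 (k y hy i).1 h3
      rw [← sub_div, ← sub_mul, add_sub_add_right_eq_sub, abs_div, abs_mul, abs_of_pos b0,
        abs_of_pos d0, div_le_one d0] at h4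
      rw [map_sub, Pi.sub_apply, Real.norm_eq_abs, le_div_iff₀ b0]
      exact h4
    have h5 := (e.symm : (Fin (Module.finrank ℝ F) → ℝ) →L[ℝ] F).le_of_opNorm_le_of_le
      (a := b) (by linarith) h2
    rw [mul_div_cancel₀ _ b0.ne'] at h5
    simpa using h5

end Pool.Agent.MP_7bf9b2_an.Zc

end

section

set_option autoImplicit false

namespace Pool.Agent.MP_7bf9b2_an.Zc

open scoped ContDiff Convolution
open MeasureTheory ContinuousLinearMap

theorem bound_Conv {F : Type} [NormedAddCommGroup F] [NormedSpace ℝ F] [FiniteDimensional ℝ F]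
    [MeasurableSpace F] [BorelSpace F] (μ : Measure F) [μ.IsAddHaarMeasure] (i : ℕ) :
    ∀ (G : Type) [NormedAddCommGroup G] [NormedSpace ℝ G] [CompleteSpace G] (χ : F → G),
      ContDiff ℝ ∞ χ → HasCompactSupport χ → ∃ C : ℝ, 0 ≤ C ∧ ∀ g : F → ℝ, LocallyIntegrable g μ →
        (∀ y, |g y| ≤ 1) → ∀ x, ‖iteratedFDeriv ℝ i (g ⋆[lsmul ℝ ℝ, μ] χ) x‖ ≤ C := by
  induction i with
  | zero =>
    intro G _ _ _ χ h1 h2
    refine ⟨∫ y, ‖χ y‖ ∂μ, integral_nonneg fun _ => norm_nonneg _, fun g _ hg x => ?_⟩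
    rw [norm_iteratedFDeriv_zero, convolution_def,
      ← integral_sub_left_eq_self (fun y => ‖χ y‖) μ x]
    refine norm_integral_le_of_norm_le
      ((h1.continuous.integrable_of_hasCompactSupport h2).norm.comp_sub_left x)
      (Filter.Eventually.of_forall fun y => ?_)
    rw [lsmul_apply, norm_smul]
    exact mul_le_of_le_one_left (norm_nonneg _) (hg y)
  | succ i ih =>
    intro G _ _ _ χ h1 h2
    obtain ⟨C, hC, h⟩ := ih (F →L[ℝ] G) (fderiv ℝ χ) (h1.fderiv_right le_rfl) (h2.fderiv ℝ)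
    refine ⟨C, hC, fun g hg hg1 x => ?_⟩
    have e : fderiv ℝ (g ⋆[lsmul ℝ ℝ, μ] χ) = g ⋆[lsmul ℝ ℝ, μ] fderiv ℝ χ := funext fun x =>
      (h2.hasFDerivAt_convolution_right (lsmul ℝ ℝ) hg (h1.of_le (by simp)) x).fderiv
    rw [← norm_iteratedFDeriv_fderiv, e]
    exact h g hg hg1 x

theorem s_conv : SConv := by
  intro F _ _ _ j
  borelize F
  let μ : Measure F := Measure.addHaar
  let b : ContDiffBump (0 : F) := ⟨1 / 4, 1 / 2, by norm_num, by norm_num⟩
  have h1 : ContDiff ℝ ∞ (b.normed μ) := b.contDiff_normed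
  have h2 : HasCompactSupport (b.normed μ) := b.hasCompactSupport_normed
  have h3 : ∀ x, ∫ y, b.normed μ (x - y) ∂μ = 1 := fun x => by
    rw [integral_sub_left_eq_self (b.normed μ) μ x, b.integral_normed]
  have h4 : ∀ z, b.normed μ z ≠ 0 → ‖z‖ < 1 / 2 := fun z hz => by
    have : z ∈ Function.support (b.normed μ) := hz
    rw [b.support_normed_eq] at this
    exact mem_ball_zero_iff.1 this
  choose C hC0 hC using fun i => bound_Conv μ i ℝ (b.normed μ) h1 h2
  refine ⟨1 + ∑ i ∈ Finset.range (j + 1), C i,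
    add_pos_of_pos_of_nonneg one_pos (Finset.sum_nonneg fun i _ => hC0 i), fun S => ?_⟩
  let A : Set F := {y | ∀ s ∈ S, 1 / 2 ≤ ‖y - s‖}
  have hA : IsClosed A := by
    have : A = ⋂ s ∈ S, {y | 1 / 2 ≤ ‖y - s‖} := by ext y; simp [A]
    rw [this]
    exact isClosed_biInter fun s _ => isClosed_le continuous_const (by fun_prop)
  let g : F → ℝ := A.indicator fun _ => 1
  have hg : LocallyIntegrable g μ := (locallyIntegrable_const 1).indicator hA.measurableSet
  have hg1 : ∀ y, 0 ≤ g y ∧ g y ≤ 1 := fun y => by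
    by_cases h : y ∈ A <;> simp [g, h]
  have hψ : ∀ x, (g ⋆[lsmul ℝ ℝ, μ] b.normed μ) x = ∫ y, g y * b.normed μ (x - y) ∂μ :=
    fun x => rfl
  refine ⟨g ⋆[lsmul ℝ ℝ, μ] b.normed μ, h2.contDiff_convolution_right _ hg h1, fun x => ?_,
    fun x hx => ?_, fun x hx => ?_, fun i hi x => ?_, fun a ha x => ?_⟩
  · rw [hψ]
    have h5 : ∀ y, 0 ≤ g y * b.normed μ (x - y) := fun y =>
      mul_nonneg (hg1 y).1 (b.nonneg_normed _)
    refine ⟨integral_nonneg h5, ?_⟩
    rw [← h3 x]
    exact integral_mono_of_nonneg (Filter.Eventually.of_forall h5)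
      (b.integrable_normed.comp_sub_left x) (Filter.Eventually.of_forall fun y =>
        mul_le_of_le_one_left (b.nonneg_normed _) (hg1 y).2)
  · rw [hψ]
    refine (integral_congr_ae (Filter.Eventually.of_forall fun y => ?_)).trans (integral_zero F ℝ)
    by_cases h : y ∈ A
    · refine mul_eq_zero_of_right _ (by_contra fun h5 => ?_)
      have h6 := h4 _ h5
      rw [norm_sub_rev] at h6
      exact absurd (h x hx) (not_le.2 h6)
    · exact mul_eq_zero_of_left (Set.indicator_of_notMem h _) _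
  · rw [hψ, ← h3 x]
    refine integral_congr_ae (Filter.Eventually.of_forall fun y => ?_)
    by_cases h5 : b.normed μ (x - y) = 0
    · simp only [h5, mul_zero]
    · have h : y ∈ A := fun s hs => by
        have h6 := norm_add_le (x - y) (y - s)
        rw [sub_add_sub_cancel] at h6
        linarith [h4 _ h5, hx s hs]
      simp only [g, Set.indicator_of_mem h, one_mul]
  · refine (hC i g hg (fun y => abs_le.2 ⟨by linarith [(hg1 y).1], (hg1 y).2⟩) x).trans ?_
    exact (Finset.single_le_sum (fun i _ => hC0 i)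
      (Finset.mem_range.2 (Nat.lt_succ_of_le hi))).trans (le_add_of_nonneg_left zero_le_one)
  · rw [hψ, hψ, ← integral_add_right_eq_self _ a]
    refine integral_congr_ae (Filter.Eventually.of_forall fun y => ?_)
    have h5 : y + a ∈ A ↔ y ∈ A := ⟨fun h s hs => by
      simpa using h (s + a) ((ha s).2 hs), fun h s hs => by
      have := h (s - a) ((ha _).1 (by simpa using hs))
      rwa [← sub_add, sub_add_eq_add_sub] at this⟩
    have h6 : g (y + a) = g y := by
      by_cases h : y ∈ A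
      · simp only [g, Set.indicator_of_mem h, Set.indicator_of_mem (h5.2 h)]
      · simp only [g, Set.indicator_of_notMem h, Set.indicator_of_notMem (mt h5.1 h)]
    simp only [h6, add_sub_add_right_eq_sub]

end Pool.Agent.MP_7bf9b2_an.Zc

end

section

set_option autoImplicit false

namespace Pool.Agent.MP_7bf9b2_an.Zc

open Filter Topology

theorem app_Scale {A : Type} (w : ℕ → A) (t s : ℕ) :
    Fin.append (word w t s) (word w t (s + t)) = word w (t + t) s := by
  funext l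
  refine Fin.addCases (fun j => ?_) (fun j => ?_) l
  · rw [Fin.append_left]
    rfl
  · rw [Fin.append_right, word, word, add_assoc]
    rfl

theorem cau_Scale (h : ℕ → ℝ) (h0 : ∀ i, 0 ≤ h i) (h2 : ∀ i, h (i + 1) ≤ 2 * h i) (q : ℕ) :
    ∃ i₁, ∀ a, i₁ ≤ a → ∀ J, 2 ^ q * (2 ^ J * h a - h (a + J)) ≤ 2 ^ (a + J) := by
  have ha : Antitone fun i => h i / 2 ^ i := antitone_nat_of_succ_le fun i => by
    rw [div_le_div_iff₀ (by positivity) (by positivity), pow_succ]
    have : (0 : ℝ) < 2 ^ i := by positivity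
    nlinarith [h2 i]
  have hb : BddBelow (Set.range fun i => h i / 2 ^ i) :=
    ⟨0, by rintro _ ⟨i, rfl⟩; exact div_nonneg (h0 i) (by positivity)⟩
  have hq : (0 : ℝ) < 1 / 2 ^ q := by positivity
  obtain ⟨i₁, hi⟩ := exists_lt_of_ciInf_lt (lt_add_of_pos_right (⨅ i, h i / 2 ^ i) hq)
  refine ⟨i₁, fun a h1 J => ?_⟩
  have e1 : h a / 2 ^ a ≤ h i₁ / 2 ^ i₁ := ha h1
  have e2 : (⨅ i, h i / 2 ^ i) ≤ h (a + J) / 2 ^ (a + J) := ciInf_le hb (a + J)
  have e3 : h a / 2 ^ a - h (a + J) / 2 ^ (a + J) ≤ 1 / 2 ^ q := by linarith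
  have e4 : (2 : ℝ) ^ q * (2 ^ J * h a - h (a + J)) =
      2 ^ q * 2 ^ (a + J) * (h a / 2 ^ a - h (a + J) / 2 ^ (a + J)) := by
    rw [pow_add]
    field_simp
  rw [e4]
  refine (mul_le_mul_of_nonneg_left e3 (by positivity)).trans (le_of_eq ?_)
  field_simp

theorem tel_Scale (h k : ℕ → ℝ) (h2 : ∀ i, h (i + 1) ≤ 2 * h i) (a J : ℕ) (x : ℝ)
    (hx : ∀ l < J, x ≤ k (a + l) + h (a + l) - k (a + l + 1)) :
    k (a + J) + J * x ≤ k a + (2 ^ J - 1) * h a := by
  have h3 : ∀ l, h (a + l) ≤ 2 ^ l * h a := fun l => by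
    induction l with
    | zero => simp
    | succ l ih =>
      have := h2 (a + l)
      rw [← add_assoc, pow_succ]
      linarith
  induction J with
  | zero => simp
  | succ J ih =>
    have e1 := ih fun l hl => hx l (by omega)
    have e2 := hx J (by omega)
    have e3 := h3 J
    rw [← add_assoc, pow_succ]
    push_cast
    linarith

theorem s_scale (he : SEnt) : SScale := by
  intro η D hη hD
  obtain ⟨p, hp⟩ := pow_unbounded_of_one_lt (1 / η) (one_lt_two (α := ℝ))
  obtain ⟨J, hJ⟩ := exists_nat_gt ((D + 1) / η)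
  rw [div_lt_iff₀ hη] at hp hJ
  refine ⟨2 ^ (p + J), fun m hm A _ _ w N₀ => ?_⟩
  have e2 : ∀ i : ℕ, 2 ^ (i + 1) = 2 ^ i + 2 ^ i := fun i => by rw [pow_succ, mul_two]
  have h2 : ∀ i : ℕ, Ent m (word w (2 ^ (i + 1))) ≤ 2 * Ent m (word w (2 ^ i)) := fun i => by
    rw [e2]
    generalize 2 ^ i = t
    have a1 := he.mono hm (fun s => (word w t s, word w t (s + t))) fun y => Fin.append y.1 y.2
    have a2 := he.sub hm (word w t) fun s => word w t (s + t)
    have a3 := he.shift hm (word w t) t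
    simp only [app_Scale] at a1
    linarith
  obtain ⟨i₁, hi⟩ := cau_Scale (fun i => Ent m (word w (2 ^ i))) (fun i => he.nn hm _) h2 (p + J)
  refine ⟨2 ^ (i₁ + N₀), (Nat.lt_two_pow_self (n := N₀)).le.trans
    (Nat.pow_le_pow_right two_pos (by omega)), fun B _ c hB => ?_⟩
  generalize hi₂ : i₁ + N₀ = i at hB ⊢
  by_contra hn
  have hN : (0 : ℝ) < (2 ^ i : ℕ) := by positivity
  have h4 := tel_Scale (fun i => Ent m (word w (2 ^ i)))
    (fun i => Ent m fun s => (word w (2 ^ i) s, c s)) h2 (i + p) J (η * (2 ^ i : ℕ)) fun l hl => by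
      by_contra h
      refine hn ⟨2 ^ (i + p + l), ?_, ?_, ?_⟩
      · have a1 : (1 : ℝ) ≤ 2 ^ l := one_le_pow₀ one_le_two
        have a2 : (1 : ℝ) ≤ 2 ^ p * η * 2 ^ l := one_le_mul_of_one_le_of_one_le hp.le a1
        push_cast at hN ⊢
        rw [pow_add, pow_add]
        nlinarith
      · rw [← pow_add]
        exact Nat.pow_le_pow_right two_pos (by omega)
      · simp only [not_le] at h
        rw [e2] at h
        generalize 2 ^ (i + p + l) = t at h ⊢
        have a1 := he.mono hm (fun s => ((word w t s, c s), word w t (s + t)))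
          fun y => (Fin.append y.1.1 y.2, y.1.2)
        simp only [app_Scale] at a1
        linarith
  have h5 := hi (i + p) (by omega) J
  have h6 := he.mono hm (fun s => (word w (2 ^ (i + p + J)) s, c s)) Prod.fst
  have h7 := he.sub hm (word w (2 ^ (i + p))) c
  have h8 := he.card hm c
  rw [show i + p + J = p + J + i by ring, pow_add (2 : ℝ) (p + J) i] at h5
  have h9 := le_of_mul_le_mul_left h5 (by positivity)
  rw [show p + J + i = i + p + J by ring] at h9
  have h10 := mul_lt_mul_of_pos_right hJ hN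
  push_cast at h4 h10 hB
  simp only at h6 h9
  nlinarith

end Pool.Agent.MP_7bf9b2_an.Zc

end
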