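import Pool.Agent.Mg.F7bf9b2a.G394261
import Pool.Agent.Mg.F7bf9b2a.G81b0a9
import Pool.Agent.Mg.F7bf9b2a.Ga362d6
import Pool.Agent.Mg.F7bf9b2a.G10544f
import Pool.Agent.Mg.F7bf9b2a.G0a54d9
import Pool.Agent.Mg.F7bf9b2a.G60b742
import Pool.Agent.Mg.F7bf9b2a.G655cc3

set_option linter.all false

/-! Mather sets of `C^k`-generic Lagrangians have zero topological entropy. -/

set_option autoImplicit false

namespace Pool.Agent.MP_7bf9b2_an.Zc

open scoped Topology Manifold ContDiff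
open Set Filter

theorem core_All : SCore := s_core s_mean s_law (s_scale (s_ent s_law)) (s_dp s_dpA) s_hit

theorem am_All {E : Type} [NormedAddCommGroup E] [InnerProductSpace ℝ E]
    [FiniteDimensional ℝ E] : SAm E :=
  s_am core_All s_count s_cell (s_bump s_conv) s_bad s_u s_cross s_gr s_loop s_en

theorem main_All {V : Type} [NormedAddCommGroup V] [NormedSpace ℝ V] [FiniteDimensional ℝ V]
    {M : Type} [TopologicalSpace M] [T2Space M] [CompactSpace M] [ConnectedSpace M]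
    [ChartedSpace V M] [IsManifold 𝓘(ℝ, V) ∞ M] [MeasurableSpace (TT V M)] [BorelSpace (TT V M)]
    (k : ℕ∞) (hk : 2 ≤ k) (L : TT V M → ℝ) (hL : IsTonelli L) (m : ℕ)
    (η : Fin m → TB V M → ℝ) (hη : ∀ i, IsClosedForm (η i)) :
    ∃ O ∈ residual (PotK V M k), ∀ f ∈ O, ∀ Φ : Flow ℝ (TT V M),
      IsEL (fun z => L z + f.toFun (z.1.proj, z.2)) Φ →
      ∃ U ∈ residual (Fin m → ℝ), ∀ c ∈ U,
        ZeroEnt Φ fun z => L z + f.toFun (z.1.proj, z.2) - ∑ i, c i * η i z.1 := by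
  obtain ⟨N, ⟨a⟩⟩ := retr (V := V) (M := M) fun _ => retr1
  exact fin_Fin am_All s_top s_t1 s_cpt s_msA s_msB s_msC a k hk L hL m η hη

end Pool.Agent.MP_7bf9b2_an.Zc
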