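import Pool.Agent.Mg.F7bf9b2a.Gfbc720

set_option linter.all false

/-! The abstract main theorem: a small smooth potential makes the static curves few. -/

set_option autoImplicit false
set_option maxSynthPendingDepth 3
set_option linter.unusedSectionVars false

namespace Pool.Agent.MP_7bf9b2_an.Zc

open scoped Topology Manifold ContDiff
open Set Filter MeasureTheory Metric

variable {E : Type} [NormedAddCommGroup E] [InnerProductSpace ℝ E] [FiniteDimensional ℝ E]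

theorem scale_Am {ψ : E × ℝ → ℝ} {C ρ : ℝ} {j : ℕ} (hψ : ContDiff ℝ ∞ ψ) (hρ : 0 < ρ)
    (hρ1 : ρ ≤ 1) (hC : 0 < C) (hp : ∀ (x : E) (t : ℝ), ψ (x, t + 1) = ψ (x, t))
    (hb : ∀ i ≤ j, ∀ x, ‖iteratedFDeriv ℝ i ψ x‖ ≤ C / ρ ^ i) :
    CjBd j (C * ρ) fun q => ρ ^ (j + 1) * ψ q := by
  refine ⟨contDiff_const.mul hψ, fun x t => by rw [hp], fun i hi q => ?_⟩
  have e := iteratedFDeriv_const_smul_apply (a := ρ ^ (j + 1)) (x := q) (i := i)
    (hψ.contDiffAt.of_le (WithTop.coe_le_coe.2 (le_top : ((i : ℕ) : ℕ∞) ≤ ⊤)))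
  rw [show (fun q => ρ ^ (j + 1) * ψ q) = ρ ^ (j + 1) • ψ from rfl, e, norm_smul,
    Real.norm_of_nonneg (by positivity)]
  refine (mul_le_mul_of_nonneg_left (hb i hi q) (by positivity)).trans ?_
  have h1 : ρ ^ j ≤ ρ ^ i := pow_le_pow_of_le_one hρ.le hρ1 hi
  rw [← mul_div_assoc, div_le_iff₀ (by positivity), pow_succ]
  have := mul_le_mul_of_nonneg_left h1 (by positivity : 0 ≤ C * ρ)
  linarith

/-- From good times to codes. -/
theorem cod_Am (hcount : SCount) {a : ℕ} (rep : Fin (a + 1) → E × E) {T N : ℕ}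
    (F : Finset (Fin T → Fin (a + 1))) {r γ η C₄ : ℝ} (hγ : 0 < γ) (hη : 0 < η)
    (hηγ : η ≤ γ / (108 * (a + 1))) (hF : (T : ℝ) * F.card ≤ Real.exp (η * N))
    (hN : 2 * ((a : ℝ) + 1) ^ 2 ≤ γ * N / 4) (hC : 0 ≤ C₄) :
    ∃ C : ℝ, ∀ n : ℕ, ∃ 𝓒 : Finset (ℕ → E × E), (𝓒.card : ℝ) ≤ C * Real.exp (γ * n) ∧
      ∀ (z : ℕ → E × E) (bad : ℕ → Prop) [DecidablePred bad], (∀ j, ∃ b, ‖z j - rep b‖ ≤ r) →
        (∀ j, ¬ bad j → ∃ v ∈ F, ∃ o : ℕ, o < T ∧ ∀ l < N, ∃ h : o + l < T,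
          ‖z (j + 2 + l) - rep (v ⟨o + l, h⟩)‖ ≤ r) →
        (((Finset.range n).filter bad).card : ℝ) ≤ C₄ + 27 * η * n →
        ∃ c ∈ 𝓒, ∀ j < n, ‖z j - c j‖ ≤ r := by
  classical
  let tp : (Fin (a + 1) × Fin (a + 1)) × ℕ × (Fin T → Fin (a + 1)) → ℕ → E × E := fun q l =>
    if l = 0 then rep q.1.1 else if l = 1 then rep q.1.2 else
      if h : q.2.1 + (l - 2) < T then rep (q.2.2 ⟨_, h⟩) else 0
  let 𝓣 := (Finset.univ ×ˢ (Finset.range T ×ˢ F)).image tp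
  let A := Finset.univ.image rep
  have ha : (0 : ℝ) < a + 1 := by positivity
  have hA : (A.card : ℝ) ≤ a + 1 := by
    have : A.card ≤ a + 1 := Finset.card_image_le.trans (by simp)
    exact_mod_cast this
  have hη4 : η ≤ γ / 4 := hηγ.trans (div_le_div_of_nonneg_left hγ.le (by norm_num)
    (by nlinarith [(Nat.cast_nonneg a : (0 : ℝ) ≤ a)]))
  have h𝓣 : 2 * (𝓣.card : ℝ) ≤ Real.exp (γ / 2) ^ (N + 2) := by
    have h1 : 𝓣.card ≤ (a + 1) * (a + 1) * (T * F.card) := Finset.card_image_le.trans (by simp)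
    have h2 : (𝓣.card : ℝ) ≤ (a + 1) * (a + 1) * (T * F.card) := by exact_mod_cast h1
    have h3 := Real.add_one_le_exp (γ * N / 4)
    have h4 : Real.exp (η * N) ≤ Real.exp (γ * N / 4) :=
      Real.exp_le_exp.2 (by nlinarith [(Nat.cast_nonneg N : (0 : ℝ) ≤ N)])
    have h5 : Real.exp (γ * N / 4) * Real.exp (γ * N / 4) ≤ Real.exp (γ / 2) ^ (N + 2) := by
      rw [← Real.exp_add, ← Real.exp_nat_mul]
      refine Real.exp_le_exp.2 ?_
      push_cast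
      linarith
    have h6 := mul_le_mul (show 2 * ((a : ℝ) + 1) ^ 2 ≤ Real.exp (γ * N / 4) by linarith)
      (hF.trans h4) (by positivity) (Real.exp_pos _).le
    nlinarith
  refine ⟨Real.exp (γ / 2 * (N + 2) + 2 * (a + 1) * C₄), fun n => ?_⟩
  obtain ⟨𝓒, c1, c2⟩ := hcount (E × E) (fun x b => ‖x - b‖ ≤ r) A 𝓣 (N + 2) (Real.exp (γ / 2))
    ⟨rep 0, Finset.mem_image_of_mem _ (Finset.mem_univ _)⟩ (by omega)
    (Real.one_le_exp (by linarith)) h𝓣 n ⌊C₄ + 27 * η * n⌋₊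
  refine ⟨𝓒, c1.trans ?_, fun z bad _ h1 h2 h3 => ?_⟩
  · have hn : (0 : ℝ) ≤ n := Nat.cast_nonneg n
    have b1 : 2 * (A.card : ℝ) ≤ Real.exp (2 * (a + 1)) := by
      linarith [Real.add_one_le_exp (2 * ((a : ℝ) + 1))]
    have b2 : (⌊C₄ + 27 * η * n⌋₊ : ℝ) ≤ C₄ + 27 * η * n := Nat.floor_le (by positivity)
    have b3 : 108 * (a + 1) * η ≤ γ := by
      rw [le_div_iff₀ (by positivity)] at hηγ
      linarith
    refine (mul_le_mul_of_nonneg_left (pow_le_pow_left₀ (by positivity) b1 _)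
      (by positivity)).trans ?_
    rw [← Real.exp_nat_mul, ← Real.exp_nat_mul, ← Real.exp_add, ← Real.exp_add]
    refine Real.exp_le_exp.2 ?_
    push_cast
    have b4 := mul_le_mul_of_nonneg_right b2 (by positivity : (0 : ℝ) ≤ 2 * (a + 1))
    have b5 := mul_le_mul_of_nonneg_right b3 hn
    nlinarith
  · refine c2 z (fun j => ¬ bad j) (fun j => ?_) (fun j hj => ?_) (Nat.le_floor ?_)
    · obtain ⟨b, hb⟩ := h1 j
      exact ⟨rep b, Finset.mem_image_of_mem _ (Finset.mem_univ _), hb⟩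
    · obtain ⟨v, hv, o, ho, hl⟩ := h2 j hj
      obtain ⟨b0, hb0⟩ := h1 j
      obtain ⟨b1, hb1⟩ := h1 (j + 1)
      refine ⟨tp ((b0, b1), o, v), Finset.mem_image_of_mem _ (by simp [ho, hv]), fun l hl' => ?_⟩
      rcases l with _ | _ | l
      · simpa [tp] using hb0
      · simpa [tp] using hb1
      · obtain ⟨h, hh⟩ := hl l (by omega)
        have e : j + (l + 1 + 1) = j + 2 + l := by omega
        simpa [tp, h, e] using hh
    · refine le_trans (le_of_eq ?_) h3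
      congr 2
      ext j
      simp

theorem s_am (hcore : SCore) (hcount : SCount) (hcell : SCell) (hbump : SBump) (hbad : SBad)
    (hu : SU E) (hcross : SCross E) (hgr : SGr E) (hloop : SLoop E) (hen : SEn E) : SAm E := by
  classical
  intro G Λ₀ Y₀ hL hF j ε r γ hj hε hr hγ
  obtain ⟨σ₀, hσ₀, R, κ, K, A, uni⟩ := uniAll hL hF
  have hU₀ := uni Λ₀ hL (Close.refl hσ₀.le)
  have hb₀ := hU₀.bd
  have hR := hb₀.R0
  have hK := hb₀.K1
  have hr0 := G.r0_pos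
  obtain ⟨β, -, -, ⟨y, hy⟩, -⟩ := s_crit hL hF hU₀
  have sy := (hU₀.st β y hy).1
  obtain ⟨T₀, -, hconn⟩ := conn bas G
  have cn : ∀ Λ, Lag G Λ → Bd G Λ R κ K → Cn G Λ T₀ K := fun Λ l b =>
    hconn Λ K l fun p hp hv => (le_abs_self _).trans (b.b0 p hp (hv.trans (by linarith)))
  obtain ⟨u, hsub, hcal⟩ := hu hL (cn _ hL hb₀) hy
  obtain ⟨R₁, hR₁⟩ := G.cpt.isBounded.exists_norm_le
  have hpq : ∀ z : ℝ → E, Cu G z → Spd R z → ∀ t, ‖pq z t‖ ≤ max R₁ R := fun z hz hs t =>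
    max_le_max (hR₁ _ (hz.mem t)) (hs t)
  obtain ⟨Cc, dc, -, hcA⟩ := hcell (E × E) (max R₁ R)
  obtain ⟨a, cA, -, hcA⟩ := hcA (min (r / 2) 1) (by positivity) (min_le_right _ _)
  obtain ⟨rep, hrep⟩ : ∃ rep : Fin (a + 1) → E × E, ∀ x, ‖x‖ ≤ max R₁ R →
      ‖x - rep (cA x)‖ ≤ r / 2 := by
    refine ⟨fun b => if h : ∃ x, ‖x‖ ≤ max R₁ R ∧ cA x = b then h.choose else 0, fun x hx => ?_⟩
    have h : ∃ x', ‖x'‖ ≤ max R₁ R ∧ cA x' = cA x := ⟨x, hx, rfl⟩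
    simp only [dif_pos h]
    exact (hcA _ _ hx h.choose_spec.1 h.choose_spec.2.symm).trans (min_le_left _ _)
  obtain ⟨η, hη, hη1, hηγ⟩ : ∃ η : ℝ, 0 < η ∧ η ≤ 1 / 2 ∧ η ≤ γ / (108 * (a + 1)) :=
    ⟨min (1 / 2) (γ / (108 * (a + 1))), by positivity, min_le_left _ _, min_le_right _ _⟩
  obtain ⟨Cd, dd, hCd, hcB⟩ := hcell E R₁
  obtain ⟨Cg, hCg, hGr⟩ := hgr κ K
  obtain ⟨Cb, hCb, hB⟩ := hbump (E × ℝ) j
  obtain ⟨Ca, hCa, hadd⟩ := addp G
  obtain ⟨C₅, hC₅⟩ : ∃ C₅, C₅ = (1 + R) + (5 + 6 * K * (1 + R)) + (1 + Ca * Cb) * (R + 2) :=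
    ⟨_, rfl⟩
  have p1 : 0 ≤ 1 + R := by positivity
  have p2 : 0 ≤ 5 + 6 * K * (1 + R) := by positivity
  have p3 : 0 ≤ (1 + Ca * Cb) * (R + 2) := by positivity
  have hC₅1 : 1 ≤ C₅ := by linarith
  obtain ⟨ρ₁, hρ₁, q1, q2, q3, q4⟩ : ∃ ρ₁ : ℝ, 0 < ρ₁ ∧ ρ₁ ≤ 1 ∧
      Cg * C₅ * ρ₁ ≤ min (r / 2) G.r0 ∧ Cb * ρ₁ ≤ ε ∧ (1 + Ca * Cb) * ρ₁ ≤ σ₀ := by
    refine ⟨min (min 1 (min (r / 2) G.r0 / (Cg * C₅))) (min (ε / Cb) (σ₀ / (1 + Ca * Cb))),
      by positivity, (min_le_left _ _).trans (min_le_left _ _), ?_, ?_, ?_⟩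
    · exact (le_div_iff₀' (by positivity)).1 ((min_le_left _ _).trans (min_le_right _ _))
    · exact (le_div_iff₀' hCb).1 ((min_le_right _ _).trans (min_le_left _ _))
    · exact (le_div_iff₀' (by positivity)).1 ((min_le_right _ _).trans (min_le_right _ _))
  obtain ⟨Q, hQ⟩ : ∃ Q, Q = (2 * K + 2 * |β|) * T₀ + 1 := ⟨_, rfl⟩
  have hQ1 : 1 ≤ Q := by
    have : (0 : ℝ) ≤ (2 * K + 2 * |β|) * T₀ := by positivity
    linarith
  obtain ⟨D₁, hD₁, n1⟩ := num_Am (a := 2 * K * Cd / η) (by positivity) hρ₁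
    (by linarith : 0 ≤ Cg) (j + 1) dd
  obtain ⟨D₂, hD₂, n2⟩ := num_Am (a := 2 * Q / η) (by positivity) hρ₁
    (by linarith : 0 ≤ Cg) (j + 1) 1
  obtain ⟨N₀, hN₀⟩ := exists_nat_ge (8 * ((a : ℝ) + 1) ^ 2 / γ)
  obtain ⟨N, hN, core⟩ := hcore (Fin (a + 1)) (fun s => cA (pq y s)) η (D₁ + D₂) (max N₀ 3) hη
    (by linarith) (by positivity)
  have hN3 : 3 ≤ N := (le_max_right _ _).trans hN
  have hN3' : (3 : ℝ) ≤ N := by exact_mod_cast hN3
  have hNγ : 2 * ((a : ℝ) + 1) ^ 2 ≤ γ * N / 4 := by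
    have : (N₀ : ℝ) ≤ N := by exact_mod_cast (le_max_left _ _).trans hN
    rw [div_le_iff₀ hγ] at hN₀
    nlinarith
  replace n1 := n1 N (by omega)
  replace n2 := n2 N (by omega)
  obtain ⟨ρ, hρe⟩ : ∃ ρ, ρ = ρ₁ * Real.exp (-(Cg * (N + 1))) := ⟨_, rfl⟩
  rw [← hρe] at n1 n2
  have hρ : 0 < ρ := by rw [hρe]; positivity
  have hρρ : ρ ≤ ρ₁ := by
    rw [hρe]
    exact mul_le_of_le_one_right hρ₁.le (Real.exp_le_one_iff.2 (neg_nonpos.2 (by positivity)))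
  have hρ1 : ρ ≤ 1 := hρρ.trans q1
  have hge : Cg * Real.exp (Cg * (N + 1)) * (C₅ * ρ) ≤ min (r / 2) G.r0 := by
    have : Real.exp (Cg * (N + 1)) * ρ = ρ₁ := by
      rw [hρe, mul_left_comm, ← Real.exp_add, add_neg_cancel, Real.exp_zero, mul_one]
    calc Cg * Real.exp (Cg * (N + 1)) * (C₅ * ρ)
        = Cg * C₅ * (Real.exp (Cg * (N + 1)) * ρ) := by ring
      _ ≤ _ := by rwa [this]
  have hρr : C₅ * ρ ≤ G.r0 := by
    have h1 : C₅ * ρ ≤ C₅ * ρ₁ := by gcongr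
    have h2 : C₅ * ρ₁ ≤ Cg * (C₅ * ρ₁) := le_mul_of_one_le_left (by positivity) hCg
    linarith [min_le_right (r / 2) G.r0]
  obtain ⟨P, hPe⟩ : ∃ P, P = ρ ^ (j + 1) := ⟨_, rfl⟩
  rw [← hPe] at n1 n2
  have hP : 0 < P := by rw [hPe]; positivity
  have hP2 : P ≤ ρ ^ 2 := by
    rw [hPe]
    exact pow_le_pow_of_le_one hρ.le hρ1 (by omega)
  have hPρ : P ≤ ρ := hP2.trans (by nlinarith)
  have hηP : 0 < η * P := by positivity
  have hηP1 : η * P ≤ P := by nlinarith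
  obtain ⟨b, cB, hb, hcB⟩ := hcB (η * P / (2 * K)) (by positivity)
    (by rw [div_le_one (by positivity)]; linarith)
  have hDN : (0 : ℝ) ≤ N := Nat.cast_nonneg N
  obtain ⟨T, F, s, hT, hTF, hs, hc⟩ := core (Fin (b + 1)) (fun s => cB (y s)) ⌈Q / (η * P)⌉₊
    (by
      rw [Fintype.card_fin]
      refine hb.trans (le_trans (le_of_eq ?_) (n1.trans (Real.exp_le_exp.2 (by nlinarith))))
      congr 1
      field_simp)
    (by
      refine le_trans ?_ (n2.trans (Real.exp_le_exp.2 (by nlinarith)))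
      have h1 : 1 ≤ Q / (η * P) := by
        rw [le_div_iff₀ hηP]
        linarith
      have h2 := Nat.ceil_lt_add_one (zero_le_one.trans h1)
      have h3 : 2 * Q / η / P = 2 * (Q / (η * P)) := by field_simp
      rw [pow_one, h3]
      linarith)
  have hT0 : (0 : ℝ) ≤ T := Nat.cast_nonneg T
  have hT1 : 2 * (N : ℝ) ≤ T := by nlinarith
  let S : Set (E × ℝ) := {q | ∃ (i : ℕ) (τ : ℝ) (m : ℤ),
    word (fun s : ℕ => cA (pq y s)) T (s i) ∈ F ∧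
      τ ∈ Icc ((s i : ℝ) + 1) (s i + T - N - 2) ∧ q = (y τ, τ + m)}
  obtain ⟨ψ, ψ1, ψ2, ψ3, ψ4, ψ5, ψ6⟩ := hB S ρ hρ
  have ψp : ∀ (x : E) (t : ℝ), ψ (x, t + 1) = ψ (x, t) := fun x t => by
    have := ψ6 (0, 1) (fun q => ⟨?_, ?_⟩) (x, t)
    · simpa using this
    · rintro ⟨i, τ, m, h1, h2, h3⟩
      refine ⟨i, τ, m - 1, h1, h2, Prod.ext (by simpa using congrArg Prod.fst h3) ?_⟩
      have := congrArg Prod.snd h3
      simp only [Prod.snd_add] at this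
      push_cast
      linarith
    · rintro ⟨i, τ, m, h1, h2, rfl⟩
      exact ⟨i, τ, m + 1, h1, h2, Prod.ext (by simp) (by simp [add_assoc])⟩
  have hφ := scale_Am ψ1 hρ hρ1 hCb ψp ψ5
  rw [← hPe] at hφ
  have hφc : Continuous fun q => P * ψ q := hφ.sm.continuous
  have hφ0 : ∀ q, 0 ≤ P * ψ q := fun q => mul_nonneg hP.le (ψ2 q).1
  have hφP : ∀ q, P * ψ q ≤ P := fun q => mul_le_of_le_one_right hP.le (ψ2 q).2
  obtain ⟨-, hc2⟩ := hadd Λ₀ _ (Cb * ρ) hL ⟨hφ.sm.of_le (WithTop.coe_le_coe.2 le_top), hφ.per,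
    fun i hi => hφ.bd i (hi.trans hj)⟩
  refine ⟨_, ⟨hφ.sm, hφ.per, fun i hi q => (hφ.bd i hi q).trans ((by gcongr : _ ≤ _).trans q3)⟩,
    η * P / (R + 2), by positivity, fun Λ hΛ hcl α low => ?_⟩
  have hσρ : η * P / (R + 2) ≤ ρ := by
    rw [div_le_iff₀ (by positivity)]
    nlinarith
  have c1 : Close G ((1 + Ca * Cb) * ρ) Λ Λ₀ := (hcl.trans hc2).mono (by linarith)
  have hU := uni Λ hΛ (c1.mono ((by gcongr : _ ≤ (1 + Ca * Cb) * ρ₁).trans q4))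
  have hup : ∀ p : PP E, p.1 ∈ G.U1 → ‖p.2.1‖ ≤ R + 1 →
      |Λ p - addP G Λ₀ (fun q => P * ψ q) p| ≤ η * P := fun p hp hv => by
    refine (hcl.c0 p hp).trans ?_
    rw [div_mul_eq_mul_div, div_le_iff₀ (by positivity)]
    nlinarith
  have hβα : β - α ≤ 8 * η * P :=
    beta_Am hloop (s := s) (n := ⌈Q / (η * P)⌉₊) (N := N) (T := T)
      (fun i => word (fun s : ℕ => cA (pq y s)) T (s i) ∈ F) hL hΛ hb₀ hy sy low (cn _ hL hb₀)
      (cn _ hΛ hU.bd) hφc hφP hP (by nlinarith) hη hη1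
      (fun p hp hv => by linarith [(abs_le.1 (hup p hp hv)).2]) hN3 hT
      (fun i => by
        have := hcB _ _ (hR₁ _ (hy.el.cu.mem _)) (hR₁ _ (hy.el.cu.mem _)) (hs i).symm
        rwa [Nat.cast_add] at this)
      (fun i hi τ hτ => by
        rw [ψ3 (y τ, τ) ⟨i, τ, 0, hi, hτ, by simp⟩, mul_zero])
      hc (by
        have := Nat.le_ceil (Q / (η * P))
        rw [div_le_iff₀ hηP] at this
        linarith)
  obtain ⟨C, hC⟩ := cod_Am hcount rep F (r := r)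
    (C₄ := 3 * ((2 * K + |α| + |β|) * T₀) / P + 81 * η) hγ hη hηγ hTF hNγ (by positivity)
  refine ⟨C, fun n => ?_⟩
  obtain ⟨𝓒, k1, k2⟩ := hC n
  refine ⟨𝓒, k1, fun z hz => ?_⟩
  have sz := (hU.st α z hz).1
  obtain ⟨d0, da, en⟩ := hen hL hΛ hz sz hsub (cn _ hL hb₀) (cn _ hΛ hU.bd) hφc (σ := η * P)
    fun p hp hv => by linarith [(abs_le.1 (hup p hp hv)).1]
  refine k2 (fun l => pq z l) (fun l : ℕ => ρ ^ 2 < dfc Λ₀ β u z l (l + 3) ∨
    ∀ t ∈ Icc ((l : ℝ) + 1) (l + 2), P ≤ P * ψ (z t, t))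
    (fun l => ⟨_, (hrep _ (hpq z hz.el.cu sz l)).trans (by linarith)⟩) (fun l hl => ?_) ?_
  · push Not at hl
    obtain ⟨h1, t, ht, h2⟩ := hl
    obtain ⟨q, ⟨i, τ, m, i1, i2, rfl⟩, i3⟩ : ∃ q ∈ S, ‖(z t, t) - q‖ < ρ := by
      by_contra h
      push Not at h
      rw [ψ4 _ h, mul_one] at h2
      exact lt_irrefl _ h2
    have i4 : ‖z t - y τ‖ ≤ ρ := (norm_fst_le ((z t, t) - (y τ, τ + m))).trans i3.le
    have i5 : |t - (τ + m)| ≤ ρ := (norm_snd_le ((z t, t) - (y τ, τ + m))).trans i3.le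
    have g := good_Am hcross (e := C₅ * ρ) (B := r / 2) (N := N) hL hΛ hb₀ hU.bd hy.el hz.el sy sz
      hsub hcal d0 da (P := P) (fun p hp hv => by
        have a1 := abs_le.1 (hup p hp hv)
        have a2 := hφ0 (G.r p.1, p.2.2)
        have a3 := hφP (G.r p.1, p.2.2)
        simp only [addP] at a1
        rw [abs_le]
        constructor <;> linarith [a1.1, a1.2]) hρ hP2
      (le_trans (by gcongr; linarith) hρr) (by gcongr; linarith) (by gcongr; linarith)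
      (fun s t k e1 e2 e3 τ hτ => (hGr hL hb₀ c1 (by positivity)
        (by rw [mul_right_comm]; gcongr; linarith) hy.el hz.el sy sz (by positivity)
        (hge.trans (min_le_right _ _)) s t k e1 e2 e3 τ hτ).trans (hge.trans (min_le_left _ _)))
      h1 ht i4 i5
    obtain ⟨i6, i7⟩ := abs_le.1 i5
    have o1 : (s i : ℤ) + m ≤ l + 2 := by
      have : (s i : ℝ) + m ≤ l + 2 := by linarith [ht.2, i2.1]
      exact_mod_cast this
    have o2 : (l : ℤ) + 2 + N ≤ s i + m + T := by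
      have : (l : ℝ) + 2 + N ≤ s i + m + T := by linarith [ht.1, i2.2]
      exact_mod_cast this
    obtain ⟨o, ho⟩ : ∃ o : ℕ, (o : ℤ) = l + 2 - m - s i := ⟨_, Int.toNat_of_nonneg (by omega)⟩
    refine ⟨_, i1, o, by omega, fun l' hl' => ⟨by omega, ?_⟩⟩
    have ho' : (o : ℝ) = l + 2 - m - s i := by exact_mod_cast ho
    have g1 := g l' hl'
    have g2 := hrep _ (hpq y hy.el.cu sy ((s i + (o + l') : ℕ) : ℝ))
    have e1 : (l : ℝ) + 2 + l' - m = ((s i + (o + l') : ℕ) : ℝ) := by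
      push_cast
      linarith
    have e2 : (l : ℝ) + 2 + l' = ((l + 2 + l' : ℕ) : ℝ) := by push_cast; rfl
    rw [e1, e2] at g1
    exact (norm_sub_le_norm_sub_add_norm_sub _ _ _).trans ((add_le_add g1 g2).trans (by linarith))
  · have b1 := hbad (dfc Λ₀ β u z) (fun t => P * ψ (z t, t)) P (ρ ^ 2) n d0 da
      (hφc.comp (hz.el.cu.c2.continuous.prodMk continuous_id)) (fun t => hφ0 _) hP hP2
    have b2 := en (n + 3)
    push_cast at b2
    have b3 : (2 * K + α + β) * T₀ ≤ (2 * K + |α| + |β|) * T₀ :=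
      mul_le_mul_of_nonneg_right (by linarith [le_abs_self α, le_abs_self β]) (Nat.cast_nonneg _)
    have b4 : (β - α + η * P) * (n + 3) ≤ 9 * η * P * (n + 3) :=
      mul_le_mul_of_nonneg_right (by linarith) (by positivity)
    refine le_of_mul_le_mul_right (le_trans (le_of_eq ?_) (b1.trans ?_)) hP
    · congr
    · have e : (3 * ((2 * K + |α| + |β|) * T₀) / P + 81 * η + 27 * η * n) * P =
          3 * ((2 * K + |α| + |β|) * T₀ + 9 * η * P * (n + 3)) := by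
        field_simp
        ring
      rw [e]
      linarith

end Pool.Agent.MP_7bf9b2_an.Zc
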