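import Pool.Agent.Mg.F7bf9b2.G2f340c
import Pool.Agent.MP_7bf9b2_an.Z.Defs
import Pool.Agent.Mg.F7bf9b2a.G0a54d9

set_option linter.all false

section



end

section

/-!
Statements of the Lagrangian steps of the zero entropy theorem.
-/

set_option autoImplicit false
set_option linter.unusedSectionVars false

namespace Pool.Agent.MP_7bf9b2_an.Zc

open scoped Topology Manifold ContDiff
open Set Filter MeasureTheory Metric

section Amb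

variable {E : Type} [NormedAddCommGroup E] [InnerProductSpace ℝ E] [FiniteDimensional ℝ E]

/-- paths of duration `T₀` and bounded action between any two points -/
def Cn (G : Geo E) (Λ : PP E → ℝ) (T₀ : ℕ) (K : ℝ) : Prop :=
  ∀ x ∈ G.M₀, ∀ z ∈ G.M₀, ∀ s : ℝ, Path G Λ x s z (s + T₀) (K * T₀)

/-- time periodic subsolution at real times -/
def SubR (G : Geo E) (Λ : PP E → ℝ) (β : ℝ) (u : E → ℝ → ℝ) : Prop :=
  ∀ x ∈ G.M₀, ∀ x' ∈ G.M₀, ∀ (t t' : ℝ) (k : ℤ) (A : ℝ), Path G Λ x t x' (t' + k) A →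
    u x' t' ≤ u x t + A + β * (t' + k - t)

/-- defect of calibration of the curve `z` on `[a, b]` -/
noncomputable def dfc (Λ : PP E → ℝ) (β : ℝ) (u : E → ℝ → ℝ) (z : ℝ → E) (a b : ℝ) : ℝ :=
  act Λ z a b + β * (b - a) - u (z b) b + u (z a) a

/-- smooth time periodic functions with derivatives of order `≤ j` bounded by `ε` -/
structure CjBd (j : ℕ) (ε : ℝ) (φ : E × ℝ → ℝ) : Prop where
  sm : ContDiff ℝ ∞ φ
  per : ∀ (x : E) (t : ℝ), φ (x, t + 1) = φ (x, t)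
  bd : ∀ i : ℕ, i ≤ j → ∀ q, ‖iteratedFDeriv ℝ i φ q‖ ≤ ε

/-- position and velocity -/
noncomputable def pq (y : ℝ → E) (t : ℝ) : E × E := (y t, deriv y t)

/-- the static curves are described at integer times with precision `r` by `C exp (γ n)` codes -/
def Cod (G : Geo E) (Λ : PP E → ℝ) (r γ : ℝ) : Prop :=
  ∀ α : ℝ, Low G Λ α → ∃ C : ℝ, ∀ n : ℕ, ∃ 𝓒 : Finset (ℕ → E × E),
    (𝓒.card : ℝ) ≤ C * Real.exp (γ * n) ∧
    ∀ y, Static G Λ α y → ∃ b ∈ 𝓒, ∀ j < n, ‖pq y j - b j‖ ≤ r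

/-- `α` is the critical value, approached by periodic orbits of speed `≤ R` -/
def Crit (G : Geo E) (Λ : PP E → ℝ) (Y : PP E → ℝ → E) (α R : ℝ) : Prop :=
  Low G Λ α ∧ (∀ y, Static G Λ α y → Spd R y) ∧ (∃ y, Static G Λ α y) ∧
    ∀ δ > 0, ∃ (l : ℕ) (Γ : ℝ → E), 0 < l ∧ Orb G Y Γ ∧ Function.Periodic Γ (l : ℝ) ∧ Spd R Γ ∧
      act Λ Γ 0 l + α * l ≤ δ

variable (E)

def SU : Prop := ∀ {G : Geo E} {Λ : PP E → ℝ} {β K : ℝ} {T₀ : ℕ} {y : ℝ → E}, Lag G Λ →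
  Cn G Λ T₀ K → Static G Λ β y → ∃ u : E → ℝ → ℝ, SubR G Λ β u ∧ ∀ a b, dfc Λ β u y a b = 0

def SCross : Prop := ∀ {G : Geo E} {Λ₀ Λ : PP E → ℝ} {y z : ℝ → E} {u : E → ℝ → ℝ}
  {β R κ K σ ρ : ℝ}, Lag G Λ₀ → Lag G Λ → Bd G Λ₀ R κ K → Bd G Λ R κ K → ELc G Λ₀ y →
  ELc G Λ z → Spd R y → Spd R z → SubR G Λ₀ β u → (∀ a b, dfc Λ₀ β u y a b = 0) →
  (∀ p : PP E, p.1 ∈ G.U1 → ‖p.2.1‖ ≤ R + 1 → |Λ p - Λ₀ p| ≤ σ) → 0 < ρ → ρ ≤ G.r0 →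
  ∀ (s t : ℝ) (k : ℤ), t = s + k → ‖z t - y s‖ ≤ ρ →
    ‖mom Λ z t - mom Λ₀ y s‖ * ρ ≤ dfc Λ₀ β u z (t - 1 / 2) (t + 1 / 2) + 2 * σ + 6 * K * ρ ^ 2

def SGr : Prop := ∀ κ K : ℝ, ∃ C : ℝ, 1 ≤ C ∧ ∀ {G : Geo E} {Λ₀ Λ : PP E → ℝ} {y z : ℝ → E}
  {R σ e T : ℝ}, Lag G Λ₀ → Bd G Λ₀ R κ K → Close G σ Λ Λ₀ → 0 ≤ σ → σ * (R + 2) ≤ e →
  ELc G Λ₀ y → ELc G Λ z → Spd R y → Spd R z → 0 ≤ T → C * Real.exp (C * T) * e ≤ G.r0 →
  ∀ (s t : ℝ) (k : ℤ), t = s + k → ‖z t - y s‖ ≤ e → ‖mom Λ z t - mom Λ₀ y s‖ ≤ e →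
    ∀ τ ∈ Icc (0 : ℝ) T, ‖pq z (t + τ) - pq y (s + τ)‖ ≤ C * Real.exp (C * T) * e

def SLoop : Prop := ∀ {G : Geo E} {Λ₀ Λ : PP E → ℝ} {y : ℝ → E} {φ : E × ℝ → ℝ}
  {α β R κ K σ P δ : ℝ} {T₀ T n : ℕ} {s : ℕ → ℕ} {a : ℕ → ℝ}, Lag G Λ₀ → Lag G Λ →
  Bd G Λ₀ R κ K → Static G Λ₀ β y → Spd R y → Low G Λ α → Cn G Λ₀ T₀ K → Cn G Λ T₀ K →
  Continuous φ → (∀ q, φ q ≤ P) → 0 ≤ σ →
  (∀ p : PP E, p.1 ∈ G.U1 → ‖p.2.1‖ ≤ R + 1 → Λ p ≤ addP G Λ₀ φ p + σ) → 0 < T →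
  δ ≤ 2 * G.r0 → (∀ i, ‖y (s (i + 1)) - y (s i + T)‖ ≤ δ) →
  (∀ i, (∫ τ in (s i : ℝ)..(s i + T - 1 / 2), φ (y τ, τ)) ≤ a i) →
  (β - α) * (n * T) ≤ (2 * K + α + β) * T₀ + n * (2 * K * δ ^ 2 + P / 2 + σ * T) +
    ∑ i ∈ Finset.range n, a i

def SEn : Prop := ∀ {G : Geo E} {Λ₀ Λ : PP E → ℝ} {z : ℝ → E} {φ : E × ℝ → ℝ} {u : E → ℝ → ℝ}
  {α β R K σ : ℝ} {T₀ : ℕ}, Lag G Λ₀ → Lag G Λ → Static G Λ α z → Spd R z → SubR G Λ₀ β u →
  Cn G Λ₀ T₀ K → Cn G Λ T₀ K → Continuous φ →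
  (∀ p : PP E, p.1 ∈ G.U1 → ‖p.2.1‖ ≤ R + 1 → addP G Λ₀ φ p ≤ Λ p + σ) →
  (∀ a b, a ≤ b → 0 ≤ dfc Λ₀ β u z a b) ∧
  (∀ a b c, dfc Λ₀ β u z a b + dfc Λ₀ β u z b c = dfc Λ₀ β u z a c) ∧
  ∀ n : ℕ, dfc Λ₀ β u z 0 n + ∫ t in (0 : ℝ)..n, φ (z t, t) ≤
    (2 * K + α + β) * T₀ + (β - α + σ) * n

def SCrit : Prop := ∀ {G : Geo E} {Λ : PP E → ℝ} {Y : PP E → ℝ → E} {R κ K A : ℝ}, Lag G Λ →
  Fl G Λ Y → Uni G Λ R κ K A → ∃ α, Crit G Λ Y α R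

/-- the abstract main theorem -/
def SAm : Prop := ∀ {G : Geo E} {Λ₀ : PP E → ℝ} {Y₀ : PP E → ℝ → E}, Lag G Λ₀ → Fl G Λ₀ Y₀ →
  ∀ (j : ℕ) (ε r γ : ℝ), 2 ≤ j → 0 < ε → 0 < r → 0 < γ → ∃ φ : E × ℝ → ℝ, CjBd j ε φ ∧
    ∃ σ > 0, ∀ Λ : PP E → ℝ, Lag G Λ → Close G σ Λ (addP G Λ₀ φ) → Cod G Λ r γ

/-- invariant measures: lower bound, and equality forces static orbits -/
def SMsA : Prop := ∀ {G : Geo E} {Λ : PP E → ℝ} {Y : PP E → ℝ → E} {X : Type}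
  [TopologicalSpace X] [T2Space X] [MeasurableSpace X] [BorelSpace X] {Φ : Flow ℝ X}
  {ℓ : X → ℝ} {tm : X → Ci} {pos vel : X → E} {α : ℝ}, Lag G Λ →
  Rep G Λ Y Φ ℓ tm pos vel → Low G Λ α → ∀ μ : Measure X, IsInv Φ μ →
    -α ≤ ∫ z, ℓ z ∂μ ∧ (∫ z, ℓ z ∂μ = -α → ∀ᵐ z ∂μ, ∃ w : X, ∃ θ ∈ Icc (0 : ℝ) 1, tm w = 0 ∧
      z = Φ θ w ∧ Static G Λ α fun t => pos (Φ t w))

/-- an invariant measure of action `≤ -α` whose support is not empty -/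
def SMsB : Prop := ∀ {G : Geo E} {Λ : PP E → ℝ} {Y : PP E → ℝ → E} {X : Type}
  [TopologicalSpace X] [T2Space X] [MeasurableSpace X] [BorelSpace X] {Φ : Flow ℝ X}
  {ℓ : X → ℝ} {tm : X → Ci} {pos vel : X → E} {α R : ℝ}, Lag G Λ →
  Rep G Λ Y Φ ℓ tm pos vel → Continuous vel → IsCompact {z | ‖vel z‖ ≤ R} → Crit G Λ Y α R →
  ∃ μ : Measure X, IsInv Φ μ ∧ ∫ z, ℓ z ∂μ ≤ -α ∧ μ.support.Nonempty

/-- from codes to dynamical covers -/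
def SMsC : Prop := ∀ {G : Geo E} {Λ : PP E → ℝ} {Y : PP E → ℝ → E} {X : Type}
  [TopologicalSpace X] [T2Space X] {Φ : Flow ℝ X} {ℓ : X → ℝ} {tm : X → Ci} {pos vel : X → E}
  {α R : ℝ}, Rep G Λ Y Φ ℓ tm pos vel → Continuous vel → IsCompact {z | ‖vel z‖ ≤ R} →
  Crit G Λ Y α R → (∀ r γ : ℝ, 0 < r → 0 < γ → Cod G Λ r γ) → ∀ Z : Set X,
  Z ⊆ closure {z | ∃ w : X, ∃ θ ∈ Icc (0 : ℝ) 1, tm w = 0 ∧ z = Φ θ w ∧
    Static G Λ α fun t => pos (Φ t w)} →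
  Z ⊆ {z | ‖vel z‖ ≤ R} ∧
    ∀ W ∈ 𝓝ˢ (diagonal X), Dynamics.coverEntropyEntourage (Φ 1) Z W ≤ 0

end Amb

section Mfd

variable {V : Type} [NormedAddCommGroup V] [NormedSpace ℝ V] [FiniteDimensional ℝ V]
  {M : Type} [TopologicalSpace M] [ChartedSpace V M] [IsManifold 𝓘(ℝ, V) ∞ M]
  {E : Type} [NormedAddCommGroup E] [InnerProductSpace ℝ E] [FiniteDimensional ℝ E]

/-- a `C^k` potential is a `C²` potential -/
def to2 {k : ℕ∞} (hk : 2 ≤ k) (f : PotK V M k) : Pot V M :=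
  ⟨f.toFun, f.smooth.of_le (WithTop.coe_le_coe.2 hk)⟩

variable (V M E)

def SCpt : Prop := ∀ (a : Amb V M E) (R : ℝ), IsCompact {z : TT V M | ‖a.vel z‖ ≤ R}

def STop : Prop := ∀ (k : ℕ∞) (hk : 2 ≤ k), Continuous (to2 hk : PotK V M k → Pot V M)

def ST1 : Prop := ∀ (k : ℕ∞) (a : Amb V M E) (f : PotK V M k), ∀ N ∈ 𝓝 f, ∃ (j : ℕ) (ε : ℝ),
  0 < ε ∧ ∀ φ : E × ℝ → ℝ, CjBd j ε φ → ∃ f₁ ∈ N, ∀ (x : M) (t : ℝ),
    f₁.toFun (x, cl t) = f.toFun (x, cl t) + φ (a.e x, t)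

end Mfd

end Pool.Agent.MP_7bf9b2_an.Zc

end

section

/-! The critical value, and the measure theoretic conclusion. -/

set_option autoImplicit false
set_option maxSynthPendingDepth 3
set_option linter.unusedSectionVars false

namespace Pool.Agent.MP_7bf9b2_an.Zc

open scoped Topology Manifold ContDiff
open Set Filter MeasureTheory Metric

variable {E : Type} [NormedAddCommGroup E] [InnerProductSpace ℝ E] [FiniteDimensional ℝ E]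

theorem s_crit : SCrit E := by
  intro G Λ Y R κ K A hL hF hU
  have hΓ : ∀ l : ℕ, ∃ Γ, 0 < l → Orb G Y Γ ∧ PMin G Λ Γ l := fun l => by
    by_cases h : 0 < l
    · obtain ⟨Γ, a, b⟩ := tonAll hL hF l h
      exact ⟨Γ, fun _ => ⟨a, b⟩⟩
    · exact ⟨fun _ => 0, fun a => absurd a h⟩
  choose Γ pm using hΓ
  obtain ⟨α, low, inf⟩ := critAll hL hU.bd fun l h => ⟨(pm l h).2, (hU.pm _ l h (pm l h).2).1⟩
  refine ⟨α, low, fun y hy => (hU.st α y hy).1, ?_, fun δ hδ => ?_⟩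
  · refine stat bas (vl bas) hL hF hU.bd low fun δ hδ => ?_
    obtain ⟨l, h, e⟩ := inf δ hδ
    exact ⟨l, Γ l, h, (pm l h).1, (pm l h).2, (hU.pm _ l h (pm l h).2).1, e⟩
  · obtain ⟨l, h, e⟩ := inf δ hδ
    exact ⟨l, Γ l, h, (pm l h).1, (pm l h).2.per, (hU.pm _ l h (pm l h).2).1, e⟩

theorem cod_mono_Crit {G : Geo E} {Λ : PP E → ℝ} {r γ r' γ' : ℝ} (h : Cod G Λ r γ) (hr : r ≤ r')
    (hγ : γ ≤ γ') : Cod G Λ r' γ' := by
  intro α hα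
  obtain ⟨C, hC⟩ := h α hα
  refine ⟨|C|, fun n => ?_⟩
  obtain ⟨𝓒, h1, h2⟩ := hC n
  refine ⟨𝓒, h1.trans ?_, fun y hy => ?_⟩
  · have : Real.exp (γ * n) ≤ Real.exp (γ' * n) :=
      Real.exp_le_exp.2 (mul_le_mul_of_nonneg_right hγ (Nat.cast_nonneg n))
    exact mul_le_mul (le_abs_self C) this (Real.exp_pos _).le (abs_nonneg C)
  · obtain ⟨b, hb, h3⟩ := h2 y hy
    exact ⟨b, hb, fun j hj => (h3 j hj).trans hr⟩

theorem zero_Crit (hA : SMsA E) (hB : SMsB E) (hC : SMsC E) {G : Geo E} {Λ : PP E → ℝ}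
    {Y : PP E → ℝ → E} {X : Type} [TopologicalSpace X] [T2Space X] [MeasurableSpace X]
    [BorelSpace X] {Φ : Flow ℝ X} {ℓ : X → ℝ} {tm : X → Ci} {pos vel : X → E} (hL : Lag G Λ)
    (hF : Fl G Λ Y) (h : Rep G Λ Y Φ ℓ tm pos vel) (hv : Continuous vel)
    (hK : ∀ R : ℝ, IsCompact {z | ‖vel z‖ ≤ R})
    (hc : ∀ i : ℕ, Cod G Λ (1 / (i + 1)) (1 / (i + 1))) : ZeroEnt Φ ℓ := by
  obtain ⟨σ₀, hσ, R, κ, K, A, uni⟩ := uniAll hL hF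
  obtain ⟨α, cr⟩ := s_crit hL hF (uni Λ hL (Close.refl hσ.le))
  have hc' : ∀ r γ : ℝ, 0 < r → 0 < γ → Cod G Λ r γ := fun r γ hr hγ => by
    obtain ⟨i, hi⟩ := exists_nat_one_div_lt (lt_min hr hγ)
    exact cod_mono_Crit (hc i) (hi.le.trans (min_le_left _ _)) (hi.le.trans (min_le_right _ _))
  obtain ⟨μ₀, i0, e0, n0⟩ := hB hL h hv (hK R) cr
  have m0 : IsMin Φ ℓ μ₀ := ⟨i0, fun ν hν => e0.trans (hA hL h cr.1 ν hν).1⟩
  have sub : Mather Φ ℓ ⊆ closure {z | ∃ w : X, ∃ θ ∈ Icc (0 : ℝ) 1, tm w = 0 ∧ z = Φ θ w ∧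
      Static G Λ α fun t => pos (Φ t w)} := by
    refine closure_minimal (iUnion₂_subset fun μ hμ => ?_) isClosed_closure
    have h1 := hA hL h cr.1 μ hμ.1
    have h2 := h1.2 (le_antisymm ((hμ.2 μ₀ i0).trans e0) h1.1)
    exact Measure.support_subset_of_isClosed isClosed_closure
      (h2.mono fun z hz => subset_closure hz)
  obtain ⟨c1, c2⟩ := hC h hv (hK R) cr hc' _ sub
  have ne : (Mather Φ ℓ).Nonempty := by
    obtain ⟨z, hz⟩ := n0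
    exact ⟨z, subset_closure (mem_iUnion₂.2 ⟨μ₀, m0, hz⟩)⟩
  exact ⟨ne, (hK R).of_isClosed_subset isClosed_closure c1, fun W hW =>
    le_antisymm (c2 W hW) (Dynamics.coverEntropyEntourage_nonneg _ ne W)⟩

end Pool.Agent.MP_7bf9b2_an.Zc

end

section

/-! Auxiliary estimates for the abstract main theorem. -/

set_option autoImplicit false
set_option maxSynthPendingDepth 3
set_option linter.unusedSectionVars false

namespace Pool.Agent.MP_7bf9b2_an.Zc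

open scoped Topology Manifold ContDiff
open Set Filter MeasureTheory Metric

variable {E : Type} [NormedAddCommGroup E] [InnerProductSpace ℝ E] [FiniteDimensional ℝ E]

theorem num_Am {a ρ₁ C : ℝ} (ha : 0 < a) (hρ : 0 < ρ₁) (hC : 0 ≤ C) (j d : ℕ) :
    ∃ D : ℝ, 0 ≤ D ∧ ∀ N : ℕ, 1 ≤ N →
      (a / (ρ₁ * Real.exp (-(C * (N + 1)))) ^ j) ^ d ≤ Real.exp (D * N) := by
  refine ⟨(a / ρ₁ ^ j) ^ d + 2 * (d * j * C), by positivity, fun N hN => ?_⟩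
  have hN' : (1 : ℝ) ≤ N := by exact_mod_cast hN
  have e : (a / (ρ₁ * Real.exp (-(C * (N + 1)))) ^ j) ^ d =
      (a / ρ₁ ^ j) ^ d * Real.exp (d * j * C * (N + 1)) := by
    rw [mul_pow, ← div_div, div_pow, ← pow_mul, ← Real.exp_nat_mul, div_eq_mul_inv,
      ← Real.exp_neg]
    congr 2
    push_cast
    ring
  have hx : 0 ≤ (a / ρ₁ ^ j) ^ d := by positivity
  have hy : (0 : ℝ) ≤ d * j * C := by positivity
  rw [e, add_mul, Real.exp_add]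
  refine mul_le_mul ?_ (Real.exp_le_exp.2 (by nlinarith)) (Real.exp_pos _).le (Real.exp_pos _).le
  have := Real.add_one_le_exp ((a / ρ₁ ^ j) ^ d * N)
  nlinarith

theorem lip_Am {G : Geo E} {y : ℝ → E} {R : ℝ} (hy : Cu G y) (hs : Spd R y) (a b : ℝ) :
    ‖y a - y b‖ ≤ R * |a - b| := by
  have := Convex.norm_image_sub_le_of_norm_deriv_le (f := y) (s := univ) (C := R) (x := b) (y := a)
    (fun x _ => hy.c2.differentiable two_ne_zero x) (fun x _ => hs x) convex_univ (mem_univ _)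
    (mem_univ _)
  simpa using this

theorem int_Am {f : ℝ → ℝ} {P s T N : ℝ} (hf : Continuous f) (hP : ∀ t, f t ≤ P) (hN : 0 ≤ N)
    (hT : N + 3 ≤ T) (h0 : ∀ t ∈ Icc (s + 1) (s + T - N - 2), f t = 0) (hP0 : 0 ≤ P) :
    ∫ t in s..(s + T - 1 / 2), f t ≤ P * (N + 3) := by
  have hi : ∀ a b, IntervalIntegrable f volume a b := fun a b => hf.intervalIntegrable a b
  have hb : ∀ a b, a ≤ b → ∫ t in a..b, f t ≤ (b - a) * P := fun a b h => by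
    have := intervalIntegral.integral_mono_on h (hi a b)
      (continuous_const.intervalIntegrable a b) fun t _ => hP t
    simpa using this
  have e1 := intervalIntegral.integral_add_adjacent_intervals (hi s (s + 1))
    (hi (s + 1) (s + T - N - 2))
  have e2 := intervalIntegral.integral_add_adjacent_intervals (hi s (s + T - N - 2))
    (hi (s + T - N - 2) (s + T - 1 / 2))
  have e3 : ∫ t in (s + 1)..(s + T - N - 2), f t = 0 := by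
    rw [intervalIntegral.integral_congr (g := fun _ => 0) fun t ht => h0 t ?_]
    · simp
    · rwa [uIcc_of_le (by linarith)] at ht
  have b1 := hb s (s + 1) (by linarith)
  have b2 := hb (s + T - N - 2) (s + T - 1 / 2) (by linarith)
  nlinarith

theorem good_Am (hcross : SCross E) {G : Geo E} {Λ₀ Λ : PP E → ℝ} {y z : ℝ → E}
    {u : E → ℝ → ℝ} {β R κ K ρ P e B : ℝ} {N : ℕ} (hL₀ : Lag G Λ₀) (hL : Lag G Λ)
    (hb₀ : Bd G Λ₀ R κ K) (hb : Bd G Λ R κ K) (hy : ELc G Λ₀ y) (hz : ELc G Λ z) (sy : Spd R y)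
    (sz : Spd R z) (hsub : SubR G Λ₀ β u) (hcal : ∀ a b, dfc Λ₀ β u y a b = 0)
    (d0 : ∀ a b, a ≤ b → 0 ≤ dfc Λ₀ β u z a b)
    (da : ∀ a b c, dfc Λ₀ β u z a b + dfc Λ₀ β u z b c = dfc Λ₀ β u z a c)
    (hcl : ∀ p : PP E, p.1 ∈ G.U1 → ‖p.2.1‖ ≤ R + 1 → |Λ p - Λ₀ p| ≤ 2 * P)
    (hρ : 0 < ρ) (hP : P ≤ ρ ^ 2) (h1 : (1 + R) * ρ ≤ G.r0) (h2 : (1 + R) * ρ ≤ e)
    (h3 : (5 + 6 * K * (1 + R)) * ρ ≤ e)
    (hgr : ∀ (s t : ℝ) (k : ℤ), t = s + k → ‖z t - y s‖ ≤ e → ‖mom Λ z t - mom Λ₀ y s‖ ≤ e →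
      ∀ τ ∈ Icc (0 : ℝ) (N + 1), ‖pq z (t + τ) - pq y (s + τ)‖ ≤ B)
    {j : ℕ} (hd : dfc Λ₀ β u z j (j + 3) ≤ ρ ^ 2) {t τ₀ : ℝ} {m : ℤ}
    (ht : t ∈ Icc ((j : ℝ) + 1) (j + 2)) (hx : ‖z t - y τ₀‖ ≤ ρ) (hm : |t - (τ₀ + m)| ≤ ρ) :
    ∀ l < N, ‖pq z (j + 2 + l) - pq y (j + 2 + l - m)‖ ≤ B := by
  intro l hl
  have hR := hb.R0
  have hK := hb.K1
  have a1 : ‖z t - y (t - m)‖ ≤ (1 + R) * ρ := by
    have b1 := lip_Am hy.cu sy τ₀ (t - m)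
    have b2 : |τ₀ - (t - m)| ≤ ρ := by
      rw [abs_sub_comm]
      convert hm using 2
      ring
    have b3 := norm_sub_le_norm_sub_add_norm_sub (z t) (y τ₀) (y (t - m))
    nlinarith
  have hρ' : 0 < (1 + R) * ρ := by positivity
  have a2 := hcross hL₀ hL hb₀ hb hy hz sy sz hsub hcal hcl hρ' h1 (t - m) t m (by ring) a1
  have a3 : dfc Λ₀ β u z (t - 1 / 2) (t + 1 / 2) ≤ ρ ^ 2 := by
    have c1 := da j (t - 1 / 2) (t + 1 / 2)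
    have c2 := da j (t + 1 / 2) (j + 3)
    have c3 := d0 j (t - 1 / 2) (by linarith [ht.1])
    have c4 := d0 (t + 1 / 2) (j + 3) (by linarith [ht.2])
    linarith
  have a4 : ‖mom Λ z t - mom Λ₀ y (t - m)‖ ≤ e := by
    refine le_trans (le_of_mul_le_mul_right ?_ hρ') h3
    have : 5 * ρ ^ 2 ≤ 5 * ρ * ((1 + R) * ρ) := by nlinarith [mul_nonneg hR (sq_nonneg ρ)]
    nlinarith
  have hl' : (l : ℝ) + 1 ≤ N := by exact_mod_cast hl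
  have := hgr (t - m) t m (by ring) (a1.trans h2) a4 (j + 2 + l - t)
    ⟨by linarith [ht.2, (Nat.cast_nonneg l : (0 : ℝ) ≤ l)], by linarith [ht.1]⟩
  convert this using 3 <;> ring_nf

theorem beta_Am (hloop : SLoop E) {G : Geo E} {Λ₀ Λ : PP E → ℝ} {y : ℝ → E} {φ : E × ℝ → ℝ}
    {α β R κ K P η : ℝ} {T₀ T n N : ℕ} {s : ℕ → ℕ} (gd : ℕ → Prop) [DecidablePred gd]
    (hL₀ : Lag G Λ₀) (hL : Lag G Λ) (hb₀ : Bd G Λ₀ R κ K) (hy : Static G Λ₀ β y) (sy : Spd R y)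
    (low : Low G Λ α) (c₀ : Cn G Λ₀ T₀ K) (c₁ : Cn G Λ T₀ K) (hφ : Continuous φ)
    (hφP : ∀ q, φ q ≤ P) (hP : 0 < P) (hP1 : P ≤ G.r0) (hη : 0 < η) (hη1 : η ≤ 1 / 2)
    (hup : ∀ p : PP E, p.1 ∈ G.U1 → ‖p.2.1‖ ≤ R + 1 → Λ p ≤ addP G Λ₀ φ p + η * P)
    (hN : 3 ≤ N) (hT : (N : ℝ) ≤ η * T)
    (hs : ∀ i, ‖y (s (i + 1)) - y (s i + T)‖ ≤ η * P / (2 * K))
    (h0 : ∀ i, gd i → ∀ τ ∈ Icc ((s i : ℝ) + 1) (s i + T - N - 2), φ (y τ, τ) = 0)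
    (hc : (((Finset.range n).filter fun i => ¬ gd i).card : ℝ) ≤ η * n)
    (hn : (2 * K + 2 * |β|) * T₀ + 1 ≤ η * P * n) : β - α ≤ 8 * η * P := by
  have hK := hb₀.K1
  have hN' : (3 : ℝ) ≤ N := by exact_mod_cast hN
  have hT0 : (0 : ℝ) ≤ T := Nat.cast_nonneg T
  have hT1 : 2 * (N : ℝ) ≤ T := by nlinarith
  have hT2 : (0 : ℝ) < T := by linarith
  have hηP : 0 < η * P := by positivity
  have hr := G.r0_le
  by_cases hαβ : β ≤ α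
  · nlinarith
  push Not at hαβ
  have hn0 : (0 : ℝ) < n := by
    have : (0 : ℝ) ≤ (2 * K + 2 * |β|) * T₀ := by positivity
    by_contra h
    push Not at h
    nlinarith
  have hδ0 : 0 < η * P / (2 * K) := by positivity
  have hδ1 : η * P / (2 * K) ≤ P := by
    rw [div_le_iff₀ (by positivity)]
    nlinarith
  have hcf : Continuous fun τ : ℝ => φ (y τ, τ) :=
    hφ.comp (hy.el.cu.c2.continuous.prodMk continuous_id)
  have key := hloop (n := n) (a := fun i => P * (N + 3) + if ¬ gd i then P * T else 0) hL₀ hL hb₀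
    hy sy low c₀ c₁ hφ hφP hηP.le hup (by exact_mod_cast hT2)
    (by linarith [G.r0_pos] : η * P / (2 * K) ≤ 2 * G.r0) hs fun i => by
      by_cases h : gd i
      · rw [if_neg (not_not.2 h), add_zero]
        exact int_Am hcf (fun t => hφP _) (by linarith) (by linarith) (h0 i h) hP.le
      · rw [if_pos h]
        have := intervalIntegral.integral_mono_on (μ := volume) (a := (s i : ℝ))
          (b := s i + T - 1 / 2) (by linarith) (hcf.intervalIntegrable _ _)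
          (continuous_const.intervalIntegrable _ _) fun t _ => hφP (y t, t)
        simp only [intervalIntegral.integral_const, smul_eq_mul] at this
        nlinarith
  rw [Finset.sum_add_distrib, Finset.sum_const, Finset.card_range, ← Finset.sum_filter,
    Finset.sum_const, nsmul_eq_mul, nsmul_eq_mul] at key
  have k1 : 2 * K * (η * P / (2 * K)) ^ 2 ≤ η * P := by
    have e : 2 * K * (η * P / (2 * K)) ^ 2 = η * P * (η * P / (2 * K)) := by field_simp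
    rw [e]
    nlinarith
  have k2 : (2 * K + α + β) * T₀ ≤ η * P * n := by
    have : 2 * K + α + β ≤ 2 * K + 2 * |β| := by linarith [le_abs_self β]
    have := mul_le_mul_of_nonneg_right this (Nat.cast_nonneg T₀ : (0 : ℝ) ≤ T₀)
    linarith
  have k3 := mul_le_mul_of_nonneg_right hc (by positivity : 0 ≤ P * T)
  have k4 : (1 : ℝ) ≤ T := by linarith
  have k5 : (N : ℝ) + 3 ≤ 2 * (η * T) := by linarith
  have k6 : 1 ≤ η * T := by linarith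
  have hnT : 0 < (n : ℝ) * T := by positivity
  refine le_of_mul_le_mul_right ?_ hnT
  have m1 : η * P * n ≤ η * P * (n * T) := by
    have := mul_le_mul_of_nonneg_left k4 (by positivity : 0 ≤ η * P * n)
    linarith
  have m2 : (n : ℝ) * P ≤ η * P * (n * T) := by
    have := mul_le_mul_of_nonneg_left k6 (by positivity : 0 ≤ (n : ℝ) * P)
    linarith
  have m3 : (n : ℝ) * (P * (N + 3)) ≤ 2 * (η * P * (n * T)) := by
    have := mul_le_mul_of_nonneg_left k5 (by positivity : 0 ≤ (n : ℝ) * P)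
    linarith
  have m4 := mul_le_mul_of_nonneg_left k1 hn0.le
  have m5 : 0 ≤ η * P * (n * T) := by positivity
  nlinarith

end Pool.Agent.MP_7bf9b2_an.Zc

end
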